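import Pool.Agent.L7h90.GL.Mor
import Pool.Agent.Y190.OP.Bro

/-! Brody hyperbolicity is open (Brody). -/

set_option autoImplicit false

open Filter Topology Set Metric MvPolynomial FF LinearAlgebra.Projectivization

namespace Pool.Agent.L7h90.GL

open Pool.Agent.Y190.OP Pool.Agent.W602.GT
open Pool.Agent.N154.GG (HolMap holP_of holMap_of toProj toProj_Phi Phi_rep_mk
  Phi_rep_toProj proj_ext)
open Pool.Agent.N154.TB
open scoped LinearAlgebra.Projectivization

variable {n : ℕ} {ι : Type} {F : ι → MvPolynomial (Fin (n + 1)) ℂ}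

theorem val_sum {d : ℕ} {P : MvPolynomial (Fin (n + 1)) ℂ} (hP : P.IsHomogeneous d)
    (u : Fin (n + 1) → ℂ) :
    val u P = ∑ s ∈ Finset.finsuppAntidiag Finset.univ d, coeff s P * ∏ i, u i ^ s i := by
  classical
  rw [val_eval, eval_eq']
  refine Finset.sum_subset ?_ ?_
  · intro s hs
    rw [Finset.mem_finsuppAntidiag]
    refine ⟨?_, Finset.subset_univ _⟩
    have h1 := hP (mem_support_iff.1 hs)
    rw [Finsupp.weight_apply, Finsupp.sum_fintype _ _ (by simp)] at h1
    simpa using h1
  · intro s _ hs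
    rw [notMem_support_iff.1 hs, zero_mul]

theorem val_le {d : ℕ} {P : MvPolynomial (Fin (n + 1)) ℂ} (hP : P.IsHomogeneous d) {ε : ℝ}
    (hε : ∀ s, ‖coeff s P‖ ≤ ε) {u : Fin (n + 1) → ℂ} (hu : ‖u‖ ≤ 1) :
    ‖val u P‖ ≤ (Finset.finsuppAntidiag (Finset.univ : Finset (Fin (n + 1))) d).card * ε := by
  classical
  have hε0 : 0 ≤ ε := (norm_nonneg _).trans (hε 0)
  rw [val_sum hP, ← nsmul_eq_mul]
  refine (norm_sum_le _ _).trans (Finset.sum_le_card_nsmul _ _ _ fun s _ => ?_)
  rw [norm_mul]
  have h1 : ‖∏ i, u i ^ s i‖ ≤ 1 := by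
    rw [norm_prod]
    refine Finset.prod_le_one (fun i _ => norm_nonneg _) fun i _ => ?_
    rw [norm_pow]
    exact pow_le_one₀ (norm_nonneg _) ((norm_le_pi_norm u i).trans hu)
  calc ‖coeff s P‖ * ‖∏ i, u i ^ s i‖ ≤ ε * 1 := mul_le_mul (hε s) h1 (norm_nonneg _) hε0
    _ = ε := mul_one ε

/-- **Brody hyperbolicity is open.** -/
theorem open_hyp {d : ι → ℕ} (hd : ∀ i, (F i).IsHomogeneous (d i)) (hH : BrodyHyp (Cone F)) :
    ∃ ε : ℝ, 0 < ε ∧ ∀ G : ι → MvPolynomial (Fin (n + 1)) ℂ, (∀ i, (G i).IsHomogeneous (d i)) →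
      (∀ i s, ‖coeff s (G i) - coeff s (F i)‖ ≤ ε) → BrodyHyp (Cone G) := by
  by_contra hcon
  push Not at hcon
  have hk : ∀ k : ℕ, (0 : ℝ) < 1 / (k + 1) := fun k => by positivity
  choose G hGd hGF hGH using fun k : ℕ => hcon (1 / (k + 1)) (hk k)
  have hF : ∀ i, IsForm (F i) := fun i => ⟨_, hd i⟩
  have hG : ∀ k i, IsForm (G k i) := fun k i => ⟨_, hGd k i⟩
  obtain ⟨H, hH1, hH2, hH3⟩ := limit_curve (S := fun k => TS (Cone (G k))) (T := TS (Cone F))
    (TS_PM (cone_conic hF)) (by
      intro 𝓤 h𝓤 M hM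
      have h1 : ∀ k, ∃ u : Fin (n + 1) → ℂ, ‖u‖ = 1 ∧ (M k ∈ TS (Cone (G k)) → u ∈ Cone (G k) ∧
          M k = Phi u) := by
        intro k
        by_cases hk : M k ∈ TS (Cone (G k))
        · obtain ⟨v, hv, hvM⟩ := hk
          have hn : (‖v‖ : ℂ) ≠ 0 := by
            have := norm_pos_iff.2 hv.1
            exact_mod_cast this.ne'
          refine ⟨(‖v‖ : ℂ)⁻¹ • v, ?_, fun _ => ⟨(cone_conic (hG k) v hv).2 _ (inv_ne_zero hn), ?_⟩⟩
          · rw [norm_smul, norm_inv, Complex.norm_real, norm_norm]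
            exact inv_mul_cancel₀ (norm_ne_zero_iff.2 hv.1)
          · rw [Phi_smul (inv_ne_zero hn)]
            exact hvM
        · refine ⟨fun _ => 1, ?_, fun h => absurd h hk⟩
          simp
      choose u hu1 hu2 using h1
      obtain ⟨u0, hu0, hlim⟩ := (isCompact_sphere (0 : Fin (n + 1) → ℂ) 1).ultrafilter_le_nhds
        (𝓤.map u) (by
          rw [le_principal_iff]
          have h2 : ∀ᶠ k in (𝓤 : Filter ℕ), u k ∈ sphere (0 : Fin (n + 1) → ℂ) 1 :=
            Filter.Eventually.of_forall fun k => by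
              rw [mem_sphere, dist_zero_right]
              exact hu1 k
          exact h2)
      have hlim' : Tendsto u 𝓤 (𝓝 u0) := hlim
      have hn0 : ‖u0‖ = 1 := by
        rwa [mem_sphere, dist_zero_right] at hu0
      have hu0' : u0 ≠ 0 := by
        intro h0
        rw [h0, norm_zero] at hn0
        exact zero_ne_one hn0
      refine ⟨Phi u0, ⟨u0, ⟨hu0', fun i => ?_⟩, rfl⟩, ?_⟩
      · have h2 : Tendsto (fun k => val (u k) (F i)) 𝓤 (𝓝 (val u0 (F i))) := by
          have hc : Continuous fun x : Fin (n + 1) → ℂ => val x (F i) := by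
            simp only [val_eval]
            exact MvPolynomial.continuous_eval _
          exact (hc.tendsto u0).comp hlim'
        have h3 : Tendsto (fun k => val (u k) (F i)) 𝓤 (𝓝 0) := by
          set Nn : ℝ := ((Finset.finsuppAntidiag (Finset.univ : Finset (Fin (n + 1))) (d i)).card : ℝ)
          have h4 : ∀ᶠ k in (𝓤 : Filter ℕ), ‖val (u k) (F i)‖ ≤ Nn * (1 / ((k : ℝ) + 1)) := by
            filter_upwards [hM] with k hk
            obtain ⟨h5, -⟩ := hu2 k hk
            have h6 : val (u k) (F i) = - val (u k) (G k i - F i) := by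
              unfold val
              rw [map_sub]
              have h7 : aeval (u k) (G k i) = 0 := h5.2 i
              rw [h7, zero_sub, neg_neg]
            rw [h6, norm_neg]
            exact val_le ((hGd k i).sub (hd i)) (fun s => by
              rw [coeff_sub]
              exact hGF k i s) (hu1 k).le
          have h5 : Tendsto (fun k : ℕ => Nn * (1 / ((k : ℝ) + 1))) 𝓤 (𝓝 0) := by
            have h6 : Tendsto (fun k : ℕ => Nn * (1 / ((k : ℝ) + 1))) atTop (𝓝 (Nn * 0)) :=
              tendsto_one_div_add_atTop_nhds_zero_nat.const_mul Nn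
            rw [mul_zero] at h6
            refine h6.mono_left ?_
            intro s hs
            obtain ⟨a, ha⟩ := Filter.mem_atTop_sets.1 hs
            filter_upwards [h𝓤 a] with k hk
            exact ha k (by exact_mod_cast hk)
          exact squeeze_zero_norm' h4 h5
        exact tendsto_nhds_unique h2 h3
      · have h2 : Tendsto (fun k => Phi (u k)) 𝓤 (𝓝 (Phi u0)) :=
          (continuousAt_Phi hu0').tendsto.comp hlim'
        refine h2.congr' ?_
        filter_upwards [hM] with k hk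
        exact (hu2 k hk).2.symm) (by
      intro k
      have h1 := hGH k
      unfold BrodyHyp at h1
      push Not at h1
      obtain ⟨f, hf, hne⟩ := h1
      refine ⟨fun z => Phi (f z).rep, holP_of hf.1, fun z => mem_TS (hf.2 z), fun hc => hne ?_⟩
      intro z w
      exact proj_ext ((hc z).trans (hc w).symm))
  apply hH3
  have h1 := hH (fun z => toProj (H z)) ⟨holMap_of hH1, fun z => rep_toProj (cone_conic hF)
    (hH2 z)⟩
  intro z
  have h2 := congrArg (fun p : ℙ ℂ (Fin (n + 1) → ℂ) => Phi p.rep) (h1 z 0)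
  change Phi (toProj (H z)).rep = Phi (toProj (H 0)).rep at h2
  rwa [Phi_rep_toProj (TS_PM (cone_conic hF) (hH2 z)),
    Phi_rep_toProj (TS_PM (cone_conic hF) (hH2 0))] at h2

end Pool.Agent.L7h90.GL
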