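import Pool.Agent.L7h90.GL.Mor

/-! Finite birational morphisms: lifting of entire curves. -/

set_option autoImplicit false

open Filter Topology Set Metric MvPolynomial FF LinearAlgebra.Projectivization

namespace Pool.Agent.L7h90.GL

open Pool.Agent.Y190.OP Pool.Agent.W602.GT
open Pool.Agent.N154.GG (HolMap holP_of holMap_of projDist toProj toProj_Phi Phi_rep_mk
  Phi_rep_toProj proj_ext)
open Pool.Agent.N154.TB
open scoped LinearAlgebra.Projectivization

variable {n n' : ℕ} {ι ι' : Type} {F : ι → MvPolynomial (Fin (n + 1)) ℂ}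
  {F' : ι' → MvPolynomial (Fin (n' + 1)) ℂ}

/-- The forms `P` define a morphism from `X' = {F' = 0}` to `X = {F = 0}` with finite fibres, which
has a rational inverse, given by forms `S` of the same degree, outside the zeros of `D`. -/
structure FiniteBirational (F' : ι' → MvPolynomial (Fin (n' + 1)) ℂ)
    (F : ι → MvPolynomial (Fin (n + 1)) ℂ) (P : Fin (n + 1) → MvPolynomial (Fin (n' + 1)) ℂ)
    (D : MvPolynomial (Fin (n + 1)) ℂ) : Prop extends Morphism F' F P where
  fin : ∀ u ∈ Cone F, {q : ℙ ℂ (Fin (n' + 1) → ℂ) | q.rep ∈ Cone F' ∧ Over P u q.rep}.Finite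
  inv : ∃ S : Fin (n' + 1) → MvPolynomial (Fin (n + 1)) ℂ, (∃ e, ∀ j, (S j).IsHomogeneous e) ∧
    ∀ u ∈ Cone F, val u D ≠ 0 → mor S u ∈ Cone F' ∧ Over P u (mor S u)

variable {P : Fin (n + 1) → MvPolynomial (Fin (n' + 1)) ℂ} {D : MvPolynomial (Fin (n + 1)) ℂ}

theorem mor_diff (P : Fin (n + 1) → MvPolynomial (Fin (n' + 1)) ℂ) : Differentiable ℂ (mor P) := by
  rw [differentiable_pi]
  intro j
  change Differentiable ℂ fun x : Fin (n' + 1) → ℂ => val x (P j)
  simp only [val_eval]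
  intro x
  exact ((AnalyticOnNhd.eval_mvPolynomial (𝕜 := ℂ) (P j)) x (Set.mem_univ x)).differentiableAt

theorem val_diff (D : MvPolynomial (Fin (n + 1)) ℂ) :
    Differentiable ℂ fun x : Fin (n + 1) → ℂ => val x D := by
  simp only [val_eval]
  intro x
  exact ((AnalyticOnNhd.eval_mvPolynomial (𝕜 := ℂ) D) x (Set.mem_univ x)).differentiableAt

theorem val_zero_smul {G : MvPolynomial (Fin (n + 1)) ℂ} (hG : IsForm G) {c : ℂ} (hc : c ≠ 0)
    (u : Fin (n + 1) → ℂ) : val (c • u) G = 0 ↔ val u G = 0 := by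
  obtain ⟨d, hd⟩ := hG
  rw [val_eval, Pool.Agent.N155.eval_smul hd, ← val_eval, mul_eq_zero,
    or_iff_right (pow_ne_zero _ hc)]

/-- **Lifting of entire curves.** -/
theorem FiniteBirational.lift (hF : ∀ i, IsForm (F i)) (hF' : ∀ i, IsForm (F' i)) (hD : IsForm D)
    (h : FiniteBirational F' F P D) {f : ℂ → ℙ ℂ (Fin (n + 1) → ℂ)} (hf : CurveIn (Cone F) f)
    (hfD : ∃ z, val (f z).rep D ≠ 0) :
    ∃ f', CurveIn (Cone F') f' ∧ ∀ z, f z = img P (f' z) := by
  obtain ⟨e, he⟩ := h.deg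
  obtain ⟨S, ⟨e', he'⟩, hS⟩ := h.inv
  obtain ⟨g, hg, hg0, hfg⟩ := zero_free (holP_of hf.1)
  have hfg' : ∀ z, ∃ c : ℂ, c ≠ 0 ∧ g z = c • (f z).rep := fun z =>
    Phi_inj (f z).rep_nonzero (hg0 z) (hfg z)
  have hgF : ∀ z, g z ∈ Cone F := by
    intro z
    obtain ⟨c, hc, hcg⟩ := hfg' z
    rw [hcg]
    exact (cone_conic hF _ (hf.2 z)).2 c hc
  have hGd : Differentiable ℂ fun z => mor S (g z) := (mor_diff S).comp hg
  have hDd : Differentiable ℂ fun z => val (g z) D := (val_diff D).comp hg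
  have hDa : AnalyticOnNhd ℂ (fun z => val (g z) D) univ := fun z _ => hDd.analyticAt z
  obtain ⟨z1, hz1⟩ := hfD
  have hz1' : val (g z1) D ≠ 0 := by
    obtain ⟨c, hc, hcg⟩ := hfg' z1
    rw [hcg, Ne, val_zero_smul hD hc]
    exact hz1
  have hev : ∀ z, ∀ᶠ w in 𝓝[≠] z, val (g w) D ≠ 0 := by
    intro z
    refine (hDa z (mem_univ z)).eventually_eq_zero_or_eventually_ne_zero.resolve_left fun h0 => ?_
    have h1 := hDa.eq_of_eventuallyEq (g := fun _ => (0 : ℂ)) (fun z _ => analyticAt_const)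
      (z₀ := z) h0
    exact hz1' (congrFun h1 z1)
  have hGne : ∀ z, ∀ᶠ w in 𝓝[≠] z, mor S (g w) ∈ Cone F' ∧
      Phi (g w) = Phi (mor P (mor S (g w))) := by
    intro z
    filter_upwards [hev z] with w hw
    obtain ⟨h1, c, hc⟩ := hS _ (hgF w) hw
    refine ⟨h1, ?_⟩
    have hc0 : c ≠ 0 := by
      rintro rfl
      rw [zero_smul] at hc
      exact hg0 w hc
    conv_lhs => rw [hc]
    rw [Phi_smul hc0]
  have hloc : ∀ z, ∃ (k : ℕ) (T : ℂ → Fin (n' + 1) → ℂ), AnalyticAt ℂ T z ∧ T z ≠ 0 ∧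
      ∀ᶠ w in 𝓝 z, mor S (g w) = (w - z) ^ k • T w := by
    intro z
    rw [(hGd.analyticAt z).exists_eventuallyEq_pow_smul_nonzero_iff]
    intro h0
    obtain ⟨w, h1, h2⟩ := ((hGne z).and (h0.filter_mono nhdsWithin_le_nhds)).exists
    exact h1.1.1 h2
  choose k T hT hT0 hTe using hloc
  -- at the points where `mor S (g w)` is not zero
  have hTw : ∀ w, mor S (g w) ≠ 0 → T w w = mor S (g w) := by
    intro w hw
    have h1 := (hTe w).self_of_nhds
    rw [sub_self] at h1
    rcases Nat.eq_zero_or_pos (k w) with h2 | h2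
    · rw [h2, pow_zero, one_smul] at h1
      exact h1.symm
    · rw [zero_pow h2.ne', zero_smul] at h1
      exact absurd h1 hw
  have hTev : ∀ z, ∀ᶠ w in 𝓝[≠] z, T z w ∈ Cone F' ∧ Phi (T w w) = Phi (T z w) ∧
      Phi (g w) = Phi (mor P (T z w)) := by
    intro z
    filter_upwards [hGne z, (hTe z).filter_mono nhdsWithin_le_nhds, self_mem_nhdsWithin]
      with w h1 h2 h3
    have hwz : (w - z) ^ k z ≠ 0 := pow_ne_zero _ (sub_ne_zero.2 h3)
    have h4 : T z w = ((w - z) ^ k z)⁻¹ • mor S (g w) := by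
      rw [h2, smul_smul, inv_mul_cancel₀ hwz, one_smul]
    refine ⟨?_, ?_, ?_⟩
    · rw [h4]
      exact (cone_conic hF' _ h1.1).2 _ (inv_ne_zero hwz)
    · rw [hTw w h1.1.1, h4, Phi_smul (inv_ne_zero hwz)]
    · rw [h4, Phi_mor he (inv_ne_zero hwz)]
      exact h1.2
  have hmem : ∀ z, T z z ∈ Cone F' := by
    intro z
    refine ⟨hT0 z, fun i => ?_⟩
    have h1 : Tendsto (fun w => val (T z w) (F' i)) (𝓝[≠] z) (𝓝 (val (T z z) (F' i))) := by
      have h2 : ContinuousAt (fun w => val (T z w) (F' i)) z :=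
        ContinuousAt.comp (g := fun x : Fin (n' + 1) → ℂ => val x (F' i))
          (val_diff (F' i)).continuous.continuousAt (hT z).continuousAt
      exact h2.tendsto.mono_left nhdsWithin_le_nhds
    refine tendsto_nhds_unique h1 ?_
    apply tendsto_const_nhds.congr'
    filter_upwards [hTev z] with w hw
    exact (hw.1.2 i).symm
  have hgP : ∀ z, Phi (g z) = Phi (mor P (T z z)) := by
    intro z
    have h1 : Tendsto (fun w => Phi (g w)) (𝓝[≠] z) (𝓝 (Phi (g z))) := by
      have h2 : ContinuousAt (fun w => Phi (g w)) z :=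
        ContinuousAt.comp (g := Phi) (continuousAt_Phi (hg0 z)) hg.continuous.continuousAt
      exact h2.tendsto.mono_left nhdsWithin_le_nhds
    have h3 : Tendsto (fun w => Phi (mor P (T z w))) (𝓝[≠] z) (𝓝 (Phi (mor P (T z z)))) := by
      have h2 : ContinuousAt (fun w => mor P (T z w)) z :=
        ContinuousAt.comp (g := mor P) (mor_cont P).continuousAt (hT z).continuousAt
      have h4 : ContinuousAt (fun w => Phi (mor P (T z w))) z :=
        ContinuousAt.comp (g := Phi) (continuousAt_Phi (h.ne (hmem z))) h2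
      exact h4.tendsto.mono_left nhdsWithin_le_nhds
    refine tendsto_nhds_unique h1 (h3.congr' ?_)
    filter_upwards [hTev z] with w hw
    exact hw.2.2.symm
  have hol : HolP univ fun z => Phi (T z z) := by
    intro z _
    have h1 : ∀ᶠ w in 𝓝 z, AnalyticAt ℂ (T z) w ∧ T z w ≠ 0 ∧ Phi (T w w) = Phi (T z w) := by
      have h2 : ∀ᶠ w in 𝓝 z, w ≠ z → Phi (T w w) = Phi (T z w) := by
        have h3 := eventually_nhdsWithin_iff.1 (hTev z)
        filter_upwards [h3] with w hw hwz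
        exact (hw hwz).2.1
      filter_upwards [(hT z).eventually_analyticAt, (hT z).continuousAt.eventually_ne (hT0 z), h2]
        with w k1 k2 k3
      refine ⟨k1, k2, ?_⟩
      by_cases hwz : w = z
      · rw [hwz]
      · exact k3 hwz
    obtain ⟨W, hWs, hW, hzW⟩ := _root_.mem_nhds_iff.1 h1
    exact ⟨W, T z, hW, hzW, fun w hw => (hWs hw).1.differentiableAt.differentiableWithinAt,
      fun w hw => (hWs hw).2⟩
  refine ⟨fun z => toProj (Phi (T z z)), ⟨holMap_of hol, fun z => rep_toProj (cone_conic hF')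
    ⟨_, hmem z, rfl⟩⟩, fun z => ?_⟩
  apply proj_ext
  have h1 : (toProj (Phi (T z z))).rep ∈ Cone F' := rep_toProj (cone_conic hF') ⟨_, hmem z, rfl⟩
  rw [Phi_img (h.ne h1)]
  change Phi (f z).rep = _
  rw [show Phi (f z).rep = Phi (g z) from hfg z, hgP z]
  have h2 : Phi (toProj (Phi (T z z))).rep = Phi (T z z) := Phi_rep_toProj ⟨_, hT0 z, rfl⟩
  obtain ⟨c, hc, hcr⟩ := Phi_inj (hT0 z) (toProj (Phi (T z z))).rep_nonzero h2.symm
  rw [hcr, Phi_mor he hc]

/-- the image of a nonconstant curve is not constant -/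
theorem FiniteBirational.nonconst (hF : ∀ i, IsForm (F i))
    (h : FiniteBirational F' F P D) {f : ℂ → ℙ ℂ (Fin (n' + 1) → ℂ)} (hf : CurveIn (Cone F') f)
    (hne : ¬ IsConst f) : ¬ IsConst fun z => img P (f z) := by
  intro hc
  have hfP := holP_of hf.1
  have hcont : Continuous fun z => Phi (f z).rep := by
    rw [continuous_iff_continuousAt]
    exact fun z => hfP.continuousAt (Set.mem_univ z)
  have hfin := h.fin _ (h.img_mem hF (hf.2 0))
  have hsub : range (fun z => Phi (f z).rep) ⊆ (fun q : ℙ ℂ (Fin (n' + 1) → ℂ) => Phi q.rep) ''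
      {q | q.rep ∈ Cone F' ∧ Over P (img P (f 0)).rep q.rep} := by
    rintro _ ⟨z, rfl⟩
    refine ⟨f z, ⟨hf.2 z, ?_⟩, rfl⟩
    have h1 : img P (f 0) = img P (f z) := hc 0 z
    rw [h1]
    obtain ⟨c, -, h2⟩ := img_rep (h.ne (hf.2 z))
    exact ⟨c, h2⟩
  have hpre : IsPreconnected (range fun z => Phi (f z).rep) := isPreconnected_range hcont
  apply hne
  intro z w
  apply proj_ext
  by_contra h0
  exact hpre.infinite_of_nontrivial ⟨_, ⟨z, rfl⟩, _, ⟨w, rfl⟩, h0⟩ ((hfin.image _).subset hsub)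

end Pool.Agent.L7h90.GL
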