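import Pool.Agent.N155.Har

/-! Bounded quotients of analytic functions in two variables are analytic. -/

set_option autoImplicit false

open Filter Topology Set Metric

namespace Pool.Agent.L7h90.GL

open Pool.Agent.N155

section curry

variable {r : ℝ}

/-- the circle -/
abbrev Cir (r : ℝ) : Type := sphere (0 : ℂ) r

noncomputable instance (r : ℝ) : CompactSpace (Cir r) := isCompact_iff_compactSpace.1 (isCompact_sphere _ _)

/-- the integral over the circle, on continuous functions -/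
noncomputable def cint (r : ℝ) (hr : 0 ≤ r) : C(Cir r, ℂ) →L[ℂ] ℂ :=
  LinearMap.mkContinuous
    { toFun := fun φ => ∫ θ in (0 : ℝ)..(2 * Real.pi), deriv (circleMap 0 r) θ *
        φ ⟨circleMap 0 r θ, circleMap_mem_sphere 0 hr θ⟩
      map_add' := fun φ ψ => by
        rw [← intervalIntegral.integral_add]
        · congr 1
          funext θ
          rw [ContinuousMap.add_apply]
          ring
        · apply Continuous.intervalIntegrable
          simp only [deriv_circleMap]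
          fun_prop
        · apply Continuous.intervalIntegrable
          simp only [deriv_circleMap]
          fun_prop
      map_smul' := fun c φ => by
        rw [RingHom.id_apply, smul_eq_mul, ← intervalIntegral.integral_const_mul]
        congr 1
        funext θ
        rw [ContinuousMap.smul_apply, smul_eq_mul]
        ring } (2 * Real.pi * r) (fun φ => by
    have h1 := intervalIntegral.norm_integral_le_of_norm_le_const (a := 0) (b := 2 * Real.pi)
      (C := r * ‖φ‖) (f := fun θ => deriv (circleMap 0 r) θ *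
        φ ⟨circleMap 0 r θ, circleMap_mem_sphere 0 hr θ⟩) (fun θ _ => by
        rw [norm_mul, deriv_circleMap]
        have h2 : ‖circleMap 0 r θ * Complex.I‖ = r := by
          rw [norm_mul, Complex.norm_I, mul_one, norm_circleMap_zero, abs_of_nonneg hr]
        rw [h2]
        exact mul_le_mul_of_nonneg_left (ContinuousMap.norm_coe_le_norm _ _) hr)
    refine h1.trans (le_of_eq ?_)
    rw [sub_zero, abs_of_pos (by positivity)]
    ring)

theorem cint_apply (hr : 0 ≤ r) (φ : C(Cir r, ℂ)) (g : ℂ → ℂ) (h : ∀ z : Cir r, φ z = g z) :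
    cint r hr φ = ∮ z in C(0, r), g z := by
  change (∫ θ in (0 : ℝ)..(2 * Real.pi), deriv (circleMap 0 r) θ *
    φ ⟨circleMap 0 r θ, circleMap_mem_sphere 0 hr θ⟩) = _
  unfold circleIntegral
  congr 1
  funext θ
  rw [h, smul_eq_mul]

/-- the kernel -/
theorem kernel_an (hr : 0 < r) : AnalyticAt ℂ (fun t : ℂ => Ring.inverse
    ((⟨Subtype.val, continuous_subtype_val⟩ : C(Cir r, ℂ)) - algebraMap ℂ C(Cir r, ℂ) t)) 0 := by
  set ι : C(Cir r, ℂ) := ⟨Subtype.val, continuous_subtype_val⟩ with hι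
  have hu : IsUnit (ι - algebraMap ℂ C(Cir r, ℂ) 0) := by
    rw [map_zero, sub_zero]
    refine ⟨⟨ι, ⟨fun z => (z : ℂ)⁻¹, ?_⟩, ?_, ?_⟩, rfl⟩
    · apply Continuous.inv₀ continuous_subtype_val
      intro z hz
      have := z.2
      rw [mem_sphere_zero_iff_norm, hz, norm_zero] at this
      exact hr.ne this
    · ext z
      have hz : (z : ℂ) ≠ 0 := by
        intro hz
        have := z.2
        rw [mem_sphere_zero_iff_norm, hz, norm_zero] at this
        exact hr.ne this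
      exact mul_inv_cancel₀ hz
    · ext z
      have hz : (z : ℂ) ≠ 0 := by
        intro hz
        have := z.2
        rw [mem_sphere_zero_iff_norm, hz, norm_zero] at this
        exact hr.ne this
      exact inv_mul_cancel₀ hz
  obtain ⟨u, hu⟩ := hu
  have h1 : AnalyticAt ℂ (fun t : ℂ => ι - algebraMap ℂ C(Cir r, ℂ) t) 0 := by
    apply AnalyticAt.sub analyticAt_const
    exact (Algebra.linearMap ℂ C(Cir r, ℂ)).toContinuousLinearMap.analyticAt 0
  have h2 : AnalyticAt ℂ (Ring.inverse : C(Cir r, ℂ) → C(Cir r, ℂ)) (ι - algebraMap ℂ C(Cir r, ℂ) 0) := by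
    rw [← hu]
    exact analyticAt_inverse u
  exact AnalyticAt.comp (g := (Ring.inverse : C(Cir r, ℂ) → C(Cir r, ℂ)))
    (f := fun t : ℂ => ι - algebraMap ℂ C(Cir r, ℂ) t) h2 h1

theorem kernel_apply {t : ℂ} (ht : t ∈ ball (0 : ℂ) r) (z : Cir r) : (Ring.inverse
    ((⟨Subtype.val, continuous_subtype_val⟩ : C(Cir r, ℂ)) - algebraMap ℂ C(Cir r, ℂ) t)) z =
      ((z : ℂ) - t)⁻¹ := by
  have hne : ∀ z : Cir r, (z : ℂ) - t ≠ 0 := by
    intro z h
    have h1 := z.2
    rw [sub_eq_zero.1 h, mem_sphere_zero_iff_norm] at h1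
    rw [mem_ball_zero_iff] at ht
    linarith
  let w : C(Cir r, ℂ)ˣ := ⟨(⟨Subtype.val, continuous_subtype_val⟩ : C(Cir r, ℂ)) -
    algebraMap ℂ C(Cir r, ℂ) t, ⟨fun z => ((z : ℂ) - t)⁻¹, Continuous.inv₀ (by fun_prop) hne⟩,
    by ext z; exact mul_inv_cancel₀ (hne z), by ext z; exact inv_mul_cancel₀ (hne z)⟩
  have h1 : ((⟨Subtype.val, continuous_subtype_val⟩ : C(Cir r, ℂ)) - algebraMap ℂ C(Cir r, ℂ) t) =
    (w : C(Cir r, ℂ)) := rfl
  rw [h1, Ring.inverse_unit]
  rfl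

/-- analytic functions of two variables, by Cauchy's formula -/
theorem two_cauchy {r ρ : ℝ} (hr : 0 < r) (hρ : 0 < ρ) {hh : ℂ → ℂ → ℂ}
    (hcont : ContinuousOn (fun x : ℂ × ℂ => hh x.1 x.2) (closedBall 0 ρ ×ˢ sphere 0 r))
    (hs : ∀ τ ∈ sphere (0 : ℂ) r, ∀ s ∈ closedBall (0 : ℂ) ρ, DifferentiableAt ℂ (fun s => hh s τ) s)
    {Q : ℂ → ℂ → ℂ} (hQ : ∀ s ∈ ball (0 : ℂ) ρ, ∀ t ∈ closedBall (0 : ℂ) r,
      DifferentiableAt ℂ (Q s) t)
    (hQh : ∀ s ∈ ball (0 : ℂ) ρ, ∀ τ ∈ sphere (0 : ℂ) r, Q s τ = hh s τ) :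
    ∃ ξ : ℂ × ℂ → ℂ, AnalyticAt ℂ ξ 0 ∧ ∀ s ∈ ball (0 : ℂ) ρ, ∀ t ∈ ball (0 : ℂ) r,
      ξ (s, t) = Q s t := by
  have hcon : Continuous fun x : Cir ρ × Cir r => hh x.1 x.2 := by
    have h1 : Continuous fun x : Cir ρ × Cir r => (⟨((x.1 : ℂ), (x.2 : ℂ)),
        ⟨sphere_subset_closedBall x.1.2, x.2.2⟩⟩ : closedBall (0 : ℂ) ρ ×ˢ sphere (0 : ℂ) r) := by
      fun_prop
    exact (continuousOn_iff_continuous_domRestrict.1 hcont).comp h1
  let H : C(Cir ρ, C(Cir r, ℂ)) := (⟨fun x : Cir ρ × Cir r => hh x.1 x.2, hcon⟩ :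
    C(Cir ρ × Cir r, ℂ)).curry
  classical
  let Φ : ℂ → C(Cir r, ℂ) := fun s => if hs : s ∈ sphere (0 : ℂ) ρ then H ⟨s, hs⟩ else 0
  have hΦ : ∀ (s : ℂ) (hs : s ∈ sphere (0 : ℂ) ρ), Φ s = H ⟨s, hs⟩ := fun s hs => dif_pos hs
  have hΦi : CircleIntegrable Φ 0 ρ := by
    apply Continuous.intervalIntegrable
    have h1 : (fun θ : ℝ => Φ (circleMap 0 ρ θ)) = fun θ : ℝ =>
        H ⟨circleMap 0 ρ θ, circleMap_mem_sphere 0 hρ.le θ⟩ := by
      funext θ
      exact hΦ _ _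
    rw [h1]
    fun_prop
  lift ρ to NNReal using hρ.le
  have hΨ := (hasFPowerSeriesOn_cauchy_integral hΦi (by exact_mod_cast hρ)).analyticAt
  set Ψ : ℂ → C(Cir r, ℂ) := fun w => (2 * Real.pi * Complex.I : ℂ)⁻¹ •
    ∮ z in C(0, ρ), (z - w)⁻¹ • Φ z with hΨd
  have hΨv : ∀ s ∈ ball (0 : ℂ) ρ, ∀ τ : Cir r, Ψ s τ = hh s τ := by
    intro s hsb τ
    have hcl : DiffContOnCl ℂ (fun s => hh s τ) (ball (0 : ℂ) ρ) := by
      apply DifferentiableOn.diffContOnCl
      intro t ht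
      rw [closure_ball _ hρ.ne'] at ht
      exact (hs τ τ.2 t ht).differentiableWithinAt
    have h1 := hcl.two_pi_i_inv_smul_circleIntegral_sub_inv_smul hsb
    rw [← h1, hΨd]
    change (2 * Real.pi * Complex.I : ℂ)⁻¹ • (∮ z in C(0, ρ), (z - s)⁻¹ • Φ z) τ = _
    congr 1
    have h2 : (∮ z in C(0, ρ), (z - s)⁻¹ • Φ z) τ = (ContinuousMap.evalCLM ℂ τ)
        (∮ z in C(0, ρ), (z - s)⁻¹ • Φ z) := rfl
    rw [h2]
    unfold circleIntegral
    rw [← ContinuousLinearMap.intervalIntegral_comp_comm]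
    · congr 1
      funext θ
      rw [map_smul, map_smul, hΦ _ (circleMap_mem_sphere 0 hρ.le θ)]
      rfl
    · have hne : ∀ θ : ℝ, circleMap 0 (ρ : ℝ) θ - s ≠ 0 := by
        intro θ h
        have h3 := circleMap_mem_sphere (0 : ℂ) hρ.le θ
        rw [sub_eq_zero.1 h, mem_sphere_zero_iff_norm] at h3
        rw [mem_ball_zero_iff] at hsb
        linarith
      apply Continuous.intervalIntegrable
      have h3 : (fun θ : ℝ => deriv (circleMap 0 (ρ : ℝ)) θ • (circleMap 0 (ρ : ℝ) θ - s)⁻¹ •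
          Φ (circleMap 0 ρ θ)) = fun θ : ℝ => deriv (circleMap 0 (ρ : ℝ)) θ •
            (circleMap 0 (ρ : ℝ) θ - s)⁻¹ • H ⟨circleMap 0 ρ θ, circleMap_mem_sphere 0 hρ.le θ⟩ := by
        funext θ
        rw [hΦ _ (circleMap_mem_sphere 0 hρ.le θ)]
      rw [h3]
      simp only [deriv_circleMap]
      have h4 : Continuous fun θ : ℝ => (circleMap 0 (ρ : ℝ) θ - s)⁻¹ :=
        Continuous.inv₀ (by fun_prop) hne
      fun_prop
  refine ⟨fun p => (2 * Real.pi * Complex.I : ℂ)⁻¹ * cint r hr.le (Ring.inverse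
    ((⟨Subtype.val, continuous_subtype_val⟩ : C(Cir r, ℂ)) - algebraMap ℂ C(Cir r, ℂ) p.2) *
      Ψ p.1), ?_, ?_⟩
  · apply AnalyticAt.mul analyticAt_const
    apply ((cint r hr.le).analyticAt _).comp
    apply AnalyticAt.mul
    · exact AnalyticAt.comp (f := Prod.snd) (x := ((0 : ℂ), (0 : ℂ))) (kernel_an hr) analyticAt_snd
    · exact AnalyticAt.comp (f := Prod.fst) (x := ((0 : ℂ), (0 : ℂ))) hΨ analyticAt_fst
  · intro s hsb t htb
    have hcl : DiffContOnCl ℂ (Q s) (ball (0 : ℂ) r) := by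
      apply DifferentiableOn.diffContOnCl
      intro t ht
      rw [closure_ball _ hr.ne'] at ht
      exact (hQ s hsb t ht).differentiableWithinAt
    have h1 := hcl.two_pi_i_inv_smul_circleIntegral_sub_inv_smul htb
    rw [← h1, smul_eq_mul]
    change (2 * Real.pi * Complex.I : ℂ)⁻¹ * _ = _
    congr 1
    rw [cint_apply hr.le _ (fun z => (z - t)⁻¹ • hh s z)]
    · apply circleIntegral.integral_congr hr.le
      intro z hz
      change (z - t)⁻¹ • hh s z = (z - t)⁻¹ • Q s z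
      rw [hQh s hsb z hz]
    · intro z
      rw [ContinuousMap.mul_apply, kernel_apply htb, hΨv s hsb, smul_eq_mul]

end curry

/-- quotients of analytic functions of one variable -/
theorem disc_quot {f0 f1 : ℂ → ℂ} {r : ℝ} (hr : 0 < r)
    (h0 : ∀ t ∈ closedBall (0 : ℂ) r, AnalyticAt ℂ f0 t)
    (h1 : ∀ t ∈ closedBall (0 : ℂ) r, AnalyticAt ℂ f1 t)
    (hs0 : ∀ t ∈ sphere (0 : ℂ) r, f0 t ≠ 0)
    (hord : ∀ t ∈ closedBall (0 : ℂ) r, analyticOrderAt f0 t ≤ analyticOrderAt f1 t) :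
    ∃ h : ℂ → ℂ, (∀ t ∈ closedBall (0 : ℂ) r, AnalyticAt ℂ h t) ∧
      ∀ t ∈ closedBall (0 : ℂ) r, h t * f0 t = f1 t := by
  have hrs : (r : ℂ) ∈ sphere (0 : ℂ) r := by
    rw [mem_sphere_zero_iff_norm, Complex.norm_real, Real.norm_of_nonneg hr.le]
  have hnz : ∀ t ∈ closedBall (0 : ℂ) r, ∀ᶠ s in 𝓝[≠] t, f0 s ≠ 0 := by
    intro t ht
    refine ((h0 t ht).eventually_eq_zero_or_eventually_ne_zero).resolve_left fun h2 => ?_
    have h3 := AnalyticOnNhd.eqOn_zero_of_preconnected_of_eventuallyEq_zero (f := f0)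
      (U := closedBall (0 : ℂ) r) h0 (convex_closedBall _ _).isPreconnected ht h2
    exact hs0 _ hrs (h3 (sphere_subset_closedBall hrs))
  have hquot : ∀ t ∈ closedBall (0 : ℂ) r, ∃ H : ℂ → ℂ, AnalyticAt ℂ H t ∧
      (f1 / f0) =ᶠ[𝓝[≠] t] H := by
    intro t ht
    have hne : analyticOrderAt f0 t ≠ ⊤ := by
      intro h2
      rw [analyticOrderAt_eq_top] at h2
      obtain ⟨s, hs1, hs2⟩ := ((hnz t ht).and (h2.filter_mono nhdsWithin_le_nhds)).exists
      exact hs1 hs2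
    obtain ⟨N, hN⟩ := ENat.ne_top_iff_exists.1 hne
    obtain ⟨g0, hg0, hg0n, hg0e⟩ := ((h0 t ht).analyticOrderAt_eq_natCast).1 hN.symm
    have hle : (N : ℕ∞) ≤ analyticOrderAt f1 t := by
      rw [hN]
      exact hord t ht
    obtain ⟨g1, hg1, hg1e⟩ := (natCast_le_analyticOrderAt (h1 t ht)).1 hle
    refine ⟨g1 / g0, hg1.div hg0 hg0n, ?_⟩
    filter_upwards [hg0e.filter_mono nhdsWithin_le_nhds, hg1e.filter_mono nhdsWithin_le_nhds,
      self_mem_nhdsWithin] with s h2 h3 h4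
    have h5 : (s - t) ^ N ≠ 0 := pow_ne_zero _ (sub_ne_zero.2 h4)
    rw [Pi.div_apply, Pi.div_apply, h2, h3, smul_eq_mul, smul_eq_mul, mul_div_mul_left _ _ h5]
  have hmer : MeromorphicOn (f1 / f0) (closedBall (0 : ℂ) r) := fun t ht =>
    (h1 t ht).meromorphicAt.div (h0 t ht).meromorphicAt
  set h := toMeromorphicNFOn (f1 / f0) (closedBall (0 : ℂ) r) with hh
  have hhan : ∀ t ∈ closedBall (0 : ℂ) r, AnalyticAt ℂ h t := by
    intro t ht
    have h2 : MeromorphicNFAt h t := meromorphicNFOn_toMeromorphicNFOn (f1 / f0) _ ht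
    rw [← h2.meromorphicOrderAt_nonneg_iff_analyticAt]
    obtain ⟨H, hH, hHe⟩ := hquot t ht
    have h3 : h =ᶠ[𝓝[≠] t] H :=
      (hmer.toMeromorphicNFOn_eq_self_on_nhdsNE ht).trans hHe
    rw [meromorphicOrderAt_congr h3]
    exact hH.meromorphicOrderAt_nonneg
  refine ⟨h, hhan, fun t ht => ?_⟩
  have h3 : (fun s => h s * f0 s) =ᶠ[𝓝[≠] t] f1 := by
    filter_upwards [hmer.toMeromorphicNFOn_eq_self_on_nhdsNE ht, hnz t ht] with s h4 h5
    have h6 : h s = (f1 / f0) s := h4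
    rw [h6, Pi.div_apply, div_mul_cancel₀ _ h5]
  have h4 : ContinuousAt (fun s => h s * f0 s) t :=
    (hhan t ht).continuousAt.mul (h0 t ht).continuousAt
  exact ((h4.eventuallyEq_nhds_iff_eventuallyEq_nhdsNE (h1 t ht).continuousAt).1 h3).self_of_nhds

variable {U : Set (ℂ × ℂ)} (hU : IsOpen U)

/-- **Quotients of analytic functions of two variables.** -/
theorem quot_an {p0 : ℂ × ℂ} (hp0 : p0 ∈ U) {e d : ℂ × ℂ} (hed : e.1 * d.2 - d.1 * e.2 ≠ 0)
    {g0 g1 : AnU hU} (hd : ¬ ∀ᶠ t : ℂ in 𝓝 0, ext0 U g0.1 (p0 + t • d) = 0)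
    (hord : ∀ p ∈ U, analyticOrderAt (fun t : ℂ => ext0 U g0.1 (p + t • d)) 0 ≤
      analyticOrderAt (fun t : ℂ => ext0 U g1.1 (p + t • d)) 0) :
    ∃ ξ : ℂ × ℂ → ℂ, AnalyticAt ℂ ξ p0 ∧ ∀ᶠ p in 𝓝 p0, ext0 U g1.1 p = ξ p * ext0 U g0.1 p := by
  have hp0' : p0 + (0 : ℂ) • d ∈ U := by rwa [zero_smul, add_zero]
  have h1 := ((analyticAt_line hU d p0 g0 hp0').eventually_eq_zero_or_eventually_ne_zero).resolve_left
    hd
  have h2 : ∀ᶠ t : ℂ in 𝓝 0, p0 + t • d ∈ U := (isOpen_line hU d p0).mem_nhds hp0'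
  rw [eventually_nhdsWithin_iff] at h1
  obtain ⟨r', hr', hball⟩ := Metric.eventually_nhds_iff_ball.1 (h1.and h2)
  set r := r' / 2 with hr
  have hr0 : 0 < r := by positivity
  have hin : ∀ t ∈ closedBall (0 : ℂ) r, p0 + t • d ∈ U := by
    intro t ht
    apply (hball t _).2
    rw [mem_closedBall_zero_iff] at ht
    rw [mem_ball_zero_iff]
    linarith
  have hne : ∀ t ∈ sphere (0 : ℂ) r, ext0 U g0.1 (p0 + t • d) ≠ 0 := by
    intro t ht
    rw [mem_sphere_zero_iff_norm] at ht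
    apply (hball t _).1
    · rintro rfl
      rw [norm_zero] at ht
      linarith
    · rw [mem_ball_zero_iff]
      linarith
  have hcs : IsCompact (sphere (0 : ℂ) r) := isCompact_sphere _ _
  have hcb : IsCompact (closedBall (0 : ℂ) r) := isCompact_closedBall _ _
  have e0 : ∀ᶠ p in 𝓝 p0, ∀ t ∈ sphere (0 : ℂ) r, ext0 U g0.1 (p + t • d) ≠ 0 := by
    apply hcs.eventually_forall_of_forall_eventually
    intro t ht
    have h3 : ContinuousAt (ext0 U g0.1) (p0 + t • d) :=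
      (g0.2 _ (hin t (sphere_subset_closedBall ht))).continuousAt
    have h4 : ContinuousAt (fun x : (ℂ × ℂ) × ℂ => x.1 + x.2 • d) (p0, t) := by fun_prop
    exact (ContinuousAt.comp (g := ext0 U g0.1) (f := fun x : (ℂ × ℂ) × ℂ => x.1 + x.2 • d) h3
      h4).eventually_ne (hne t ht)
  have e2 : ∀ᶠ p in 𝓝 p0, ∀ t ∈ closedBall (0 : ℂ) r, p + t • d ∈ U := by
    apply hcb.eventually_forall_of_forall_eventually
    intro t ht
    have h4 : ContinuousAt (fun x : (ℂ × ℂ) × ℂ => x.1 + x.2 • d) (p0, t) := by fun_prop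
    exact h4.eventually_mem (hU.mem_nhds (hin t ht))
  have hce : Tendsto (fun s : ℂ => p0 + s • e) (𝓝 0) (𝓝 p0) := by
    have h3 : Continuous (fun s : ℂ => p0 + s • e) := by fun_prop
    have h4 := h3.tendsto 0
    rwa [zero_smul, add_zero] at h4
  obtain ⟨ρ, hρ, hρb⟩ := Metric.nhds_basis_closedBall.eventually_iff.1 (hce.eventually (e0.and e2))
  have hU' : ∀ s ∈ closedBall (0 : ℂ) ρ, ∀ t ∈ closedBall (0 : ℂ) r, p0 + s • e + t • d ∈ U :=
    fun s hs t ht => (hρb hs).2 t ht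
  have hn' : ∀ s ∈ closedBall (0 : ℂ) ρ, ∀ t ∈ sphere (0 : ℂ) r,
      ext0 U g0.1 (p0 + s • e + t • d) ≠ 0 := fun s hs t ht => (hρb hs).1 t ht
  have hq : ∀ s : ℂ, ∃ h : ℂ → ℂ, s ∈ ball (0 : ℂ) ρ →
      (∀ t ∈ closedBall (0 : ℂ) r, AnalyticAt ℂ h t) ∧ ∀ t ∈ closedBall (0 : ℂ) r,
        h t * ext0 U g0.1 (p0 + s • e + t • d) = ext0 U g1.1 (p0 + s • e + t • d) := by
    intro s
    by_cases hs : s ∈ ball (0 : ℂ) ρ
    · have hsc := ball_subset_closedBall hs
      obtain ⟨h, ha, hb⟩ := disc_quot (f0 := fun t : ℂ => ext0 U g0.1 (p0 + s • e + t • d))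
        (f1 := fun t : ℂ => ext0 U g1.1 (p0 + s • e + t • d)) hr0
        (fun t ht => analyticAt_line hU d _ g0 (hU' s hsc t ht))
        (fun t ht => analyticAt_line hU d _ g1 (hU' s hsc t ht)) (hn' s hsc) (by
          intro t ht
          rw [← line_shift d _ t, ← line_shift d _ t]
          exact hord _ (hU' s hsc t ht))
      exact ⟨h, fun _ => ⟨ha, hb⟩⟩
    · exact ⟨0, fun h => absurd h hs⟩
  choose Q hQ using hq
  obtain ⟨ξ, hξ, hξQ⟩ := two_cauchy (Q := Q) hr0 hρ (hh := fun s t => ext0 U g1.1 (p0 + s • e + t • d) /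
      ext0 U g0.1 (p0 + s • e + t • d)) (by
    rintro ⟨s, t⟩ ⟨hs, ht⟩
    apply ContinuousAt.continuousWithinAt
    have hm := hU' s hs t (sphere_subset_closedBall ht)
    have hc : ContinuousAt (fun x : ℂ × ℂ => p0 + x.1 • e + x.2 • d) (s, t) := by fun_prop
    apply ContinuousAt.div
    · exact ContinuousAt.comp (g := ext0 U g1.1) (f := fun x : ℂ × ℂ => p0 + x.1 • e + x.2 • d)
        (g1.2 _ hm).continuousAt hc
    · exact ContinuousAt.comp (g := ext0 U g0.1) (f := fun x : ℂ × ℂ => p0 + x.1 • e + x.2 • d)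
        (g0.2 _ hm).continuousAt hc
    · exact hn' s hs t ht) (by
    intro t ht s hs
    have hm := hU' s hs t (sphere_subset_closedBall ht)
    have hc : DifferentiableAt ℂ (fun x : ℂ => p0 + x • e + t • d) s := by fun_prop
    apply DifferentiableAt.div
    · exact DifferentiableAt.comp (g := ext0 U g1.1) (f := fun x : ℂ => p0 + x • e + t • d) s
        (g1.2 _ hm).differentiableAt hc
    · exact DifferentiableAt.comp (g := ext0 U g0.1) (f := fun x : ℂ => p0 + x • e + t • d) s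
        (g0.2 _ hm).differentiableAt hc
    · exact hn' s hs t ht)
    (fun s hs t ht => ((hQ s hs).1 t ht).differentiableAt)
    (fun s hs t ht => by
      rw [eq_div_iff (hn' s (ball_subset_closedBall hs) t ht)]
      exact (hQ s hs).2 t (sphere_subset_closedBall ht))
  set D := e.1 * d.2 - d.1 * e.2 with hD
  let L : ℂ × ℂ → ℂ × ℂ := fun p => (((p.1 - p0.1) * d.2 - (p.2 - p0.2) * d.1) / D,
    ((p.2 - p0.2) * e.1 - (p.1 - p0.1) * e.2) / D)
  have hL0 : L p0 = 0 := by simp [L]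
  have hLp : ∀ p, p0 + (L p).1 • e + (L p).2 • d = p := by
    intro p
    have h3 : ∀ a b c d e : ℂ, D ≠ 0 → (a / D) * b = a * b / D := fun a b _ _ _ _ => by ring
    apply Prod.ext
    · simp only [L, Prod.fst_add, Prod.smul_fst, smul_eq_mul]
      field_simp
      rw [hD]
      ring
    · simp only [L, Prod.snd_add, Prod.smul_snd, smul_eq_mul]
      field_simp
      rw [hD]
      ring
  have a1 : AnalyticAt ℂ (fun p : ℂ × ℂ => p.1) p0 := analyticAt_fst
  have a2 : AnalyticAt ℂ (fun p : ℂ × ℂ => p.2) p0 := analyticAt_snd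
  have hLan : AnalyticAt ℂ L p0 := by
    apply AnalyticAt.prod
    · exact (((a1.sub analyticAt_const).mul analyticAt_const).sub
        ((a2.sub analyticAt_const).mul analyticAt_const)).div analyticAt_const hed
    · exact (((a2.sub analyticAt_const).mul analyticAt_const).sub
        ((a1.sub analyticAt_const).mul analyticAt_const)).div analyticAt_const hed
  refine ⟨fun p => ξ (L p), ?_, ?_⟩
  · apply AnalyticAt.comp (g := ξ) (f := L) _ hLan
    rw [hL0]
    exact hξ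
  · have hc : Tendsto L (𝓝 p0) (𝓝 0) := by
      have := hLan.continuousAt.tendsto
      rwa [hL0] at this
    have hball : ∀ᶠ q : ℂ × ℂ in 𝓝 0, q.1 ∈ ball (0 : ℂ) ρ ∧ q.2 ∈ ball (0 : ℂ) r := by
      have e3 := (continuous_fst (X := ℂ) (Y := ℂ)).tendsto 0
      have e4 := (continuous_snd (X := ℂ) (Y := ℂ)).tendsto 0
      exact (e3.eventually (ball_mem_nhds _ hρ)).and (e4.eventually (ball_mem_nhds _ hr0))
    filter_upwards [hc.eventually hball] with p hp
    have h3 := hξQ _ hp.1 _ hp.2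
    have h4 := (hQ _ hp.1).2 _ (ball_subset_closedBall hp.2)
    rw [hLp p] at h4
    rw [← h4, ← h3]

end Pool.Agent.L7h90.GL
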