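import Pool.Agent.N155.Loc2
import Pool.Agent.L7h90.GL.Ext

/-! Graph charts of a surface, and Taylor expansions of rational functions. -/

set_option autoImplicit false

open Filter Topology Set Metric MvPolynomial FF

namespace Pool.Agent.L7h90.GL

open Pool.Agent.N155 Pool.Agent.Y190.OP Pool.Agent.W602.GT Pool.Agent.TH143.GT

variable {n : ℕ} {K : Type} [Field K] [Algebra ℂ K] {y : Fin (n + 1) → K}

/-- the field of fractions of the ring of power series -/
abbrev MM : Type := FractionRing PS2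

/-- a graph chart of the variety with generic point `y` -/
structure Ch (y : Fin (n + 1) → K) (i j k : Fin (n + 1)) (U : Set (ℂ × ℂ))
    (Ψ : ℂ × ℂ → Fin (n + 1) → ℂ) : Prop where
  op : IsOpen U
  an : AnalyticOnNhd ℂ Ψ U
  mem : ∀ z ∈ U, Ψ z ∈ VarPts ℂ y
  i1 : ∀ z ∈ U, Ψ z i = 1
  j1 : ∀ z ∈ U, Ψ z j = z.1
  k1 : ∀ z ∈ U, Ψ z k = z.2

variable {i j k : Fin (n + 1)} {U : Set (ℂ × ℂ)} {Ψ : ℂ × ℂ → Fin (n + 1) → ℂ}

theorem Ch.an' (h : Ch y i j k U Ψ) (l : Fin (n + 1)) : ∀ z ∈ U, AnalyticAt ℂ (fun z => Ψ z l) z :=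
  fun z hz => analyticAt_pi_iff.1 (h.an z hz) l

/-- the coordinate functions -/
noncomputable def Ch.psi (h : Ch y i j k U Ψ) (l : Fin (n + 1)) : AnU h.op :=
  toA h.op (fun z => Ψ z l) (h.an' l)

theorem Ch.psi_val (h : Ch y i j k U Ψ) (l : Fin (n + 1)) (z : U) : (h.psi l).1 z = Ψ z l := rfl

theorem Ch.aeval_val (h : Ch y i j k U Ψ) (G : MvPolynomial (Fin (n + 1)) ℂ) (z : U) :
    (aeval h.psi G : AnU h.op).1 z = eval (Ψ z) G := by
  have h1 := MvPolynomial.comp_aeval_apply (f := h.psi) (evA h.op z) G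
  rw [← evA_apply, h1]
  have h2 : (fun l => evA h.op z (h.psi l)) = Ψ z := by
    funext l
    rfl
  rw [h2, aeval_eq_eval]

theorem Ch.zero_of (h : Ch y i j k U Ψ) {g : AnU h.op} (hg : ∀ z : U, g.1 z = 0) : g = 0 := by
  apply Subtype.ext
  funext z
  exact hg z

theorem Ch.psii (h : Ch y i j k U Ψ) : h.psi i = 1 := by
  apply Subtype.ext
  funext z
  exact h.i1 z z.2

theorem Ch.dpsij (h : Ch y i j k U Ψ) (d : ℂ × ℂ) :
    dD h.op d (h.psi j) = algebraMap ℂ (AnU h.op) d.1 := by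
  apply Subtype.ext
  funext z
  rw [dD_apply]
  have h1 : ext0 U (h.psi j).1 =ᶠ[𝓝 (z : ℂ × ℂ)] Prod.fst := by
    apply ext0_eq h.op (G := Prod.fst) _ z.2
    intro w
    exact h.j1 w w.2
  rw [h1.fderiv_eq, fderiv_fst]
  rfl

theorem Ch.dpsik (h : Ch y i j k U Ψ) (d : ℂ × ℂ) :
    dD h.op d (h.psi k) = algebraMap ℂ (AnU h.op) d.2 := by
  apply Subtype.ext
  funext z
  rw [dD_apply]
  have h1 : ext0 U (h.psi k).1 =ᶠ[𝓝 (z : ℂ × ℂ)] Prod.snd := by
    apply ext0_eq h.op (G := Prod.snd) _ z.2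
    intro w
    exact h.k1 w w.2
  rw [h1.fderiv_eq, fderiv_snd]
  rfl

theorem Ch.Tj (h : Ch y i j k U Ψ) (p : U) (e d : ℂ × ℂ) :
    TT h.op p e d (h.psi j) = lin (p : ℂ × ℂ).1 e.1 d.1 := by
  rw [TT_lin h.op p e d (h.dpsij e) (h.dpsij d), h.psi_val, h.j1 p p.2]

theorem Ch.Tk (h : Ch y i j k U Ψ) (p : U) (e d : ℂ × ℂ) :
    TT h.op p e d (h.psi k) = lin (p : ℂ × ℂ).2 e.2 d.2 := by
  rw [TT_lin h.op p e d (h.dpsik e) (h.dpsik d), h.psi_val, h.k1 p p.2]

theorem Ch.Tjk (h : Ch y i j k U Ψ) (p : U) (e d : ℂ × ℂ) :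
    (fun b => TT h.op p e d (h.psi ((![j, k] : Fin 2 → Fin (n + 1)) b))) =
      fun b => lin ((![(p : ℂ × ℂ).1, (p : ℂ × ℂ).2] : Fin 2 → ℂ) b)
        ((![![e.1, d.1], ![e.2, d.2]] : Fin 2 → Fin 2 → ℂ) b 0)
        ((![![e.1, d.1], ![e.2, d.2]] : Fin 2 → Fin 2 → ℂ) b 1) := by
  funext b
  fin_cases b
  · exact h.Tj p e d
  · exact h.Tk p e d

theorem Ch.van (h : Ch y i j k U Ψ) {G : MvPolynomial (Fin (n + 1)) ℂ} (hG : IsForm G)
    (h0 : val y G = 0) : (aeval h.psi G : AnU h.op) = 0 := by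
  apply h.zero_of
  intro z
  rw [h.aeval_val]
  have h1 := (h.mem z z.2).2 G hG h0
  rwa [val_eval] at h1

theorem Ch.yi (h : Ch y i j k U Ψ) (p : U) : y i ≠ 0 := by
  intro h0
  have := (h.mem p p.2).2 (X i) ⟨1, isHomogeneous_X _ _⟩ (by rw [val_X', h0])
  rw [val_X', h.i1 p p.2] at this
  exact one_ne_zero this

theorem Ch.basis (h : Ch y i j k U Ψ) (hdim : Algebra.trdeg ℂ K = (2 : ℕ)) (p : U) :
    IsTranscendenceBasis ℂ (![y j / y i, y k / y i] : Fin 2 → K) := by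
  have hyi := h.yi p
  have hindK : AlgebraicIndependent ℂ (![y j / y i, y k / y i] : Fin 2 → K) := by
    rw [algebraicIndependent_iff]
    intro P hP
    have h1 : aeval (fun l => y l / y i) (rename (![j, k] : Fin 2 → Fin (n + 1)) P) = 0 := by
      rw [aeval_rename]
      have h2 : ((fun l => y l / y i) ∘ (![j, k] : Fin 2 → Fin (n + 1))) =
          (![y j / y i, y k / y i] : Fin 2 → K) := by
        funext b
        fin_cases b <;> rfl
      rw [h2]
      exact hP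
    have h2 : (aeval h.psi (rename (![j, k] : Fin 2 → Fin (n + 1)) P) : AnU h.op) = 0 := by
      apply h.zero_of
      intro z
      rw [h.aeval_val]
      have h3 := h.mem z z.2
      have h4 : Ψ z i ≠ 0 := by
        rw [h.i1 z z.2]
        exact one_ne_zero
      have h5 := dehom (y' := Ψ z) hyi h4 (fun G hG h0 => h3.2 G hG h0) _ h1
      have h6 : (fun l => Ψ z l / Ψ z i) = Ψ z := by
        funext l
        rw [h.i1 z z.2, div_one]
      rw [h6, aeval_eq_eval] at h5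
      exact h5
    have h3 := congrArg (TT h.op p (1, 0) (0, 1)) h2
    rw [map_zero, MvPolynomial.comp_aeval_apply, aeval_rename] at h3
    have h4 : ((fun l => TT h.op p (1, 0) (0, 1) (h.psi l)) ∘ (![j, k] : Fin 2 → Fin (n + 1)))
        = fun b => TT h.op p (1, 0) (0, 1) (h.psi ((![j, k] : Fin 2 → Fin (n + 1)) b)) := rfl
    rw [h4, h.Tjk] at h3
    exact lin_indep (by simp) P h3
  apply hindK.isTranscendenceBasis_of_trdeg_le_of_finite
  rw [hdim, Cardinal.mk_fin]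

theorem Ch.hvz (h : Ch y i j k U Ψ) (p : U) (e d : ℂ × ℂ) (G : MvPolynomial (Fin (n + 1)) ℂ) :
    val (fun l => algebraMap PS2 MM (TT h.op p e d (h.psi l))) G =
      algebraMap PS2 MM (TT h.op p e d (aeval h.psi G)) := by
  have h1 := MvPolynomial.comp_aeval_apply (f := h.psi)
    ((IsScalarTower.toAlgHom ℂ PS2 MM).comp (TT h.op p e d)) G
  exact h1.symm

theorem Ch.rel (h : Ch y i j k U Ψ) (hdim : Algebra.trdeg ℂ K = (2 : ℕ)) (p : U) {e d : ℂ × ℂ}
    (hed : e.1 * d.2 - d.1 * e.2 ≠ 0) {G : MvPolynomial (Fin (n + 1)) ℂ} (hG : IsForm G) :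
    val y G = 0 ↔ val (fun l => algebraMap PS2 MM (TT h.op p e d (h.psi l))) G = 0 := by
  have hinj : Function.Injective (algebraMap PS2 MM) := IsFractionRing.injective PS2 MM
  have hvan' : ∀ G : MvPolynomial (Fin (n + 1)) ℂ, IsForm G → val y G = 0 →
      val (fun l => algebraMap PS2 MM (TT h.op p e d (h.psi l))) G = 0 := by
    intro G hG h0
    rw [h.hvz, h.van hG h0, map_zero, map_zero]
  have hzi : algebraMap PS2 MM (TT h.op p e d (h.psi i)) = 1 := by
    rw [h.psii, map_one, map_one]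
  refine ⟨hvan' G hG, fun h0 => ?_⟩
  have hs : AlgebraicIndependent ℂ (fun b : Fin 2 =>
      (fun l => algebraMap PS2 MM (TT h.op p e d (h.psi l))) ((![j, k] : Fin 2 → Fin (n + 1)) b) /
      (fun l => algebraMap PS2 MM (TT h.op p e d (h.psi l))) i) := by
    rw [algebraicIndependent_iff]
    intro P hP
    simp only [hzi, div_one] at hP
    have h1 := MvPolynomial.comp_aeval_apply
      (f := fun b => TT h.op p e d (h.psi ((![j, k] : Fin 2 → Fin (n + 1)) b)))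
      (IsScalarTower.toAlgHom ℂ PS2 MM) P
    have h2 : algebraMap PS2 MM
        (aeval (fun b => TT h.op p e d (h.psi ((![j, k] : Fin 2 → Fin (n + 1)) b))) P) = 0 :=
      h1.trans hP
    have h3 := (map_eq_zero_iff _ hinj).1 h2
    rw [h.Tjk] at h3
    exact lin_indep (by simpa using hed) P h3
  exact spec_dense' (z := fun l => algebraMap PS2 MM (TT h.op p e d (h.psi l))) (i0 := i)
    (by rw [hzi]; exact one_ne_zero) hdim hs hvan' hG h0

theorem Ch.not_zero (h : Ch y i j k U Ψ) (hdim : Algebra.trdeg ℂ K = (2 : ℕ)) (p : U)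
    {G : MvPolynomial (Fin (n + 1)) ℂ} (hG : IsForm G) (hGy : val y G ≠ 0) :
    ¬ ∀ᶠ z in 𝓝 (p : ℂ × ℂ), ext0 U (aeval h.psi G : AnU h.op).1 z = 0 := by
  intro h0
  have h1 := TT_zero h.op p (1, 0) (0, 1) h0
  apply hGy
  rw [h.rel hdim p (e := (1, 0)) (d := (0, 1)) (by simp) hG, h.hvz, h1, map_zero]

/-- the constant coefficient -/
noncomputable def cc : PS2 →+* ℂ :=
  (PowerSeries.constantCoeff (R := ℂ)).comp (PowerSeries.constantCoeff (R := PowerSeries ℂ))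

theorem cc_apply (f : PS2) : cc f = PowerSeries.coeff 0 (PowerSeries.coeff 0 f) := by
  unfold cc
  rw [RingHom.comp_apply]
  simp

theorem cc_TT (hU : IsOpen U) (p : U) (e d : ℂ × ℂ) (g : AnU hU) :
    cc (TT hU p e d g) = g.1 p := by
  rw [cc_apply]
  unfold TT
  rw [coeff_Tay, dp_zero, coeff_Tay, dp_zero]
  rfl

theorem coeff_dfun {R : Type} [CommRing R] (f : PowerSeries R) :
    PowerSeries.coeff 0 (dfun f) = PowerSeries.coeff 1 f := by
  unfold dfun
  rw [PowerSeries.coeff_derivative]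
  simp

theorem cc_dS (hU : IsOpen U) (p : U) (e d : ℂ × ℂ) (g : AnU hU) :
    cc (dS (TT hU p e d g)) = fderiv ℂ (ext0 U g.1) p e := by
  rw [cc_apply, coeff_dS]
  unfold TT
  rw [coeff_Tay, dp_zero, coeff_dfun, coeff_Tay]
  have h1 : dp (dD hU e) 1 g = dD hU e g := by
    change (((0 : ℕ) : ℂ) + 1)⁻¹ • dD hU e g = _
    rw [Nat.cast_zero, zero_add, inv_one, one_smul]
  rw [h1]
  rfl

theorem cc_dT (hU : IsOpen U) (p : U) (e d : ℂ × ℂ) (g : AnU hU) :
    cc (dT (TT hU p e d g)) = fderiv ℂ (ext0 U g.1) p d := by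
  rw [cc_apply, dT_apply, coeff_dfun]
  unfold TT
  rw [coeff_Tay, coeff_Tay, dp_zero]
  have h1 : dp (dD hU d) 1 g = dD hU d g := by
    change (((0 : ℕ) : ℂ) + 1)⁻¹ • dD hU d g = _
    rw [Nat.cast_zero, zero_add, inv_one, one_smul]
  rw [h1]
  rfl

end Pool.Agent.L7h90.GL
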