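import Pool.Agent.L7h90.GL.Chart

/-! Comparison of pluricanonical forms in two systems of coordinates. -/

set_option autoImplicit false

open Filter Topology Set Metric MvPolynomial FF

namespace Pool.Agent.L7h90.GL

open Pool.Agent.N155 Pool.Agent.Y190.OP Pool.Agent.W602.GT Pool.Agent.TH143.GT

/-- the determinant of three vectors in the coordinates `a`, `b`, `c` -/
def det3 {m : ℕ} {R : Type} [CommRing R] (a b c : Fin m) (x v w : Fin m → R) : R :=
  x a * (v b * w c - v c * w b) - x b * (v a * w c - v c * w a) + x c * (v a * w b - v b * w a)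

theorem map_det3 {m : ℕ} {R S : Type} [CommRing R] [CommRing S] (f : R →+* S) (a b c : Fin m)
    (x v w : Fin m → R) :
    f (det3 a b c x v w) = det3 a b c (fun l => f (x l)) (fun l => f (v l)) fun l => f (w l) := by
  unfold det3
  simp only [map_add, map_sub, map_mul]

variable {n : ℕ} {K : Type} [Field K] [Algebra ℂ K] {y : Fin (n + 1) → K}
  {i j k : Fin (n + 1)} {U : Set (ℂ × ℂ)} {Ψ : ℂ × ℂ → Fin (n + 1) → ℂ}

/-- the expansion of rational functions at a point of a chart -/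
theorem Ch.exists_emb (h : Ch y i j k U Ψ) (hdim : Algebra.trdeg ℂ K = (2 : ℕ))
    (R : ∀ h : K, Frac y h) (p : U) {E : Fin 2 → Derivation ℂ K K}
    (hE : Dual ![y j / y i, y k / y i] E) :
    ∃ (emb : K →ₐ[ℂ] MM) (D : Fin 2 → Derivation ℂ MM MM),
      (∀ (d : ℕ) (H1 H0 : MvPolynomial (Fin (n + 1)) ℂ), H1.IsHomogeneous d →
        H0.IsHomogeneous d → val y H0 ≠ 0 →
        algebraMap PS2 MM (TT h.op p (1, 0) (0, 1) (aeval h.psi H0)) ≠ 0 ∧
        emb (val y H1 / val y H0) = algebraMap PS2 MM (TT h.op p (1, 0) (0, 1) (aeval h.psi H1)) /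
          algebraMap PS2 MM (TT h.op p (1, 0) (0, 1) (aeval h.psi H0))) ∧
      (∀ f, D 0 (algebraMap PS2 MM f) = algebraMap PS2 MM (dS f)) ∧
      (∀ f, D 1 (algebraMap PS2 MM f) = algebraMap PS2 MM (dT f)) ∧
      ∀ l f, D l (emb f) = emb (E l f) := by
  obtain ⟨emb, hemb⟩ := Pool.Agent.N155.exists_emb (z := fun l => algebraMap PS2 MM
    (TT h.op p (1, 0) (0, 1) (h.psi l))) R (fun G hG => h.rel hdim p (by simp) hG)
  obtain ⟨D0, hD0⟩ := exists_der_frac (M := MM) dS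
  obtain ⟨D1, hD1⟩ := exists_der_frac (M := MM) dT
  have hcl : ∀ (d : ℕ) (H1 H0 : MvPolynomial (Fin (n + 1)) ℂ), H1.IsHomogeneous d →
      H0.IsHomogeneous d → val y H0 ≠ 0 →
      algebraMap PS2 MM (TT h.op p (1, 0) (0, 1) (aeval h.psi H0)) ≠ 0 ∧
      emb (val y H1 / val y H0) = algebraMap PS2 MM (TT h.op p (1, 0) (0, 1) (aeval h.psi H1)) /
        algebraMap PS2 MM (TT h.op p (1, 0) (0, 1) (aeval h.psi H0)) := by
    intro d H1 H0 h1 h0 hn
    refine ⟨fun h3 => hn ((h.rel hdim p (e := (1, 0)) (d := (0, 1)) (by simp) ⟨d, h0⟩).2 (by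
      rw [h.hvz, h3])), ?_⟩
    have h3 := hemb d H1 H0 h1 h0 hn
    rw [h.hvz, h.hvz] at h3
    exact h3
  have hzi : algebraMap PS2 MM (TT h.op p (1, 0) (0, 1) (h.psi i)) = 1 := by
    rw [h.psii, map_one, map_one]
  have hembx : ∀ l, emb (y l / y i) = algebraMap PS2 MM (TT h.op p (1, 0) (0, 1) (h.psi l)) := by
    intro l
    obtain ⟨h1, h2⟩ := hcl 1 (X l) (X i) (isHomogeneous_X _ _) (isHomogeneous_X _ _)
      (by rw [val_X']; exact h.yi p)
    rw [val_X', val_X', aeval_X, aeval_X] at h2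
    rw [h2, hzi, div_one]
  refine ⟨emb, ![D0, D1], hcl, hD0, hD1, fun l f => ?_⟩
  have h1 : IsDer emb (fun f => (![D0, D1] : Fin 2 → Derivation ℂ MM MM) l (emb f)) := by
    constructor
    · intro a b
      simp only [map_add]
    · intro a b
      simp only [map_mul, Derivation.leibniz, smul_eq_mul]
    · intro c
      rw [emb.commutes, Derivation.map_algebraMap]
  have h2 := h1.chain hE f
  have e0 : emb ((![y j / y i, y k / y i] : Fin 2 → K) 0) = algebraMap PS2 MM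
      (lin (p : ℂ × ℂ).1 1 0) := by
    change emb (y j / y i) = _
    rw [hembx, h.Tj]
  have e1 : emb ((![y j / y i, y k / y i] : Fin 2 → K) 1) = algebraMap PS2 MM
      (lin (p : ℂ × ℂ).2 0 1) := by
    change emb (y k / y i) = _
    rw [hembx, h.Tk]
  rw [h2, Fin.sum_univ_two, e0, e1]
  fin_cases l
  · change D0 (algebraMap PS2 MM (lin (p : ℂ × ℂ).1 1 0)) * emb (E 0 f) +
      D0 (algebraMap PS2 MM (lin (p : ℂ × ℂ).2 0 1)) * emb (E 1 f) = emb (E 0 f)
    rw [hD0, hD0, dS_lin, dS_lin, map_one, map_one, map_zero, map_zero, one_mul, zero_mul, add_zero]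
  · change D1 (algebraMap PS2 MM (lin (p : ℂ × ℂ).1 1 0)) * emb (E 0 f) +
      D1 (algebraMap PS2 MM (lin (p : ℂ × ℂ).2 0 1)) * emb (E 1 f) = emb (E 1 f)
    rw [hD1, hD1, dT_lin, dT_lin, map_one, map_one, map_zero, map_zero, one_mul, zero_mul, zero_add]

/-- the partial derivatives of the chart -/
noncomputable def Ch.d1 (h : Ch y i j k U Ψ) (p : ℂ × ℂ) (l : Fin (n + 1)) : ℂ :=
  fderiv ℂ (ext0 U (h.psi l).1) p (1, 0)

noncomputable def Ch.d2 (h : Ch y i j k U Ψ) (p : ℂ × ℂ) (l : Fin (n + 1)) : ℂ :=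
  fderiv ℂ (ext0 U (h.psi l).1) p (0, 1)

/-- **Comparison.** -/
theorem Ch.compare (h : Ch y i j k U Ψ) (hdim : Algebra.trdeg ℂ K = (2 : ℕ))
    (R : ∀ h : K, Frac y h) (p : U) {E : Fin 2 → Derivation ℂ K K}
    (hE : Dual ![y j / y i, y k / y i] E) {N : ℕ} {A : (Fin 2 → Derivation ℂ K K) → K}
    (hA : IsPluri N A) {o : Fin (n + 1)} (ξ : AnU h.op) {d1 : ℕ}
    {Q1 Q0 : MvPolynomial (Fin (n + 1)) ℂ} (hQ1 : Q1.IsHomogeneous d1) (hQ0 : Q0.IsHomogeneous d1)
    (hQn : val y Q0 ≠ 0) (hQ : A E * (y i / y o) = val y Q1 / val y Q0)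
    (hξ : aeval h.psi Q1 = ξ * aeval h.psi Q0)
    {a b c : Fin (n + 1)} (ha : y a ≠ 0) {E2 : Fin 2 → Derivation ℂ K K}
    (hE2 : Dual ![y b / y a, y c / y a] E2) {d2 : ℕ} {G1 G0 : MvPolynomial (Fin (n + 1)) ℂ}
    (hG1 : G1.IsHomogeneous d2) (hG0 : G0.IsHomogeneous d2) (hGn : val y G0 ≠ 0)
    (hG : A E2 * (y a / y o) = val y G1 / val y G0) :
    ξ.1 p * Ψ p a ^ (3 * N + 1) * eval (Ψ p) G0 =
      det3 a b c (Ψ p) (h.d1 p) (h.d2 p) ^ N * eval (Ψ p) G1 := by
  obtain ⟨emb, D, h1, hD0, hD1, hDE⟩ := h.exists_emb hdim R p hE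
  have hinj : Function.Injective (algebraMap PS2 MM) := IsFractionRing.injective PS2 MM
  set T := TT h.op p (1, 0) (0, 1) with hT
  set t : Fin (n + 1) → MM := fun l => algebraMap PS2 MM (T (h.psi l)) with ht
  set s1 : Fin (n + 1) → MM := fun l => algebraMap PS2 MM (dS (T (h.psi l))) with hs1
  set s2 : Fin (n + 1) → MM := fun l => algebraMap PS2 MM (dT (T (h.psi l))) with hs2
  have hti : t i = 1 := by
    simp only [ht]
    rw [h.psii, map_one, map_one]
  have hta : t a ≠ 0 := by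
    have h2 := (h1 1 (X a) (X a) (isHomogeneous_X _ _) (isHomogeneous_X _ _)
      (by rw [val_X']; exact ha)).1
    rwa [aeval_X] at h2
  have hemba : ∀ l, emb (y l / y a) = t l / t a := by
    intro l
    have h2 := (h1 1 (X l) (X a) (isHomogeneous_X _ _) (isHomogeneous_X _ _)
      (by rw [val_X']; exact ha)).2
    rwa [val_X', val_X', aeval_X, aeval_X] at h2
  have hDt : ∀ (δ : Derivation ℂ MM MM) (u v : MM), v ≠ 0 → δ (u / v) = (δ u * v - u * δ v) / v ^ 2 := by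
    intro δ u v hv
    rw [div_eq_mul_inv, δ.leibniz, δ.leibniz_inv]
    simp only [smul_eq_mul]
    field_simp
    ring
  have hD0t : ∀ l, D 0 (t l) = s1 l := fun l => hD0 _
  have hD1t : ∀ l, D 1 (t l) = s2 l := fun l => hD1 _
  -- the Jacobian
  set x : Fin 2 → K := ![y b / y a, y c / y a] with hx
  have hJ : emb (E 0 (x 0) * E 1 (x 1) - E 0 (x 1) * E 1 (x 0)) * t a ^ 3 =
      det3 a b c t s1 s2 := by
    rw [map_sub, map_mul, map_mul, ← hDE, ← hDE, ← hDE, ← hDE]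
    change (D 0 (emb (y b / y a)) * D 1 (emb (y c / y a)) -
      D 0 (emb (y c / y a)) * D 1 (emb (y b / y a))) * t a ^ 3 = _
    rw [hemba, hemba, hDt _ _ _ hta, hDt _ _ _ hta, hDt _ _ _ hta, hDt _ _ _ hta, hD0t, hD0t, hD0t,
      hD1t, hD1t, hD1t]
    unfold det3
    field_simp
    ring
  have hAE := pluri_change (E := E) hA hE2
  have hsplit : A E * (y i / y o) = (E 0 (x 0) * E 1 (x 1) - E 0 (x 1) * E 1 (x 0)) ^ N *
      (A E2 * (y a / y o)) * (y i / y a) := by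
    rw [hAE]
    field_simp
  obtain ⟨hq0, hq⟩ := h1 d1 Q1 Q0 hQ1 hQ0 hQn
  obtain ⟨hg0, hg⟩ := h1 d2 G1 G0 hG1 hG0 hGn
  have hL : emb (A E * (y i / y o)) = algebraMap PS2 MM (T ξ) := by
    rw [hQ, hq, hξ, map_mul, map_mul, mul_div_assoc, div_self hq0, mul_one]
  have hR := congrArg emb hsplit
  rw [hL, map_mul, map_mul, map_pow, hG, hg, hemba, hti] at hR
  have hfin : algebraMap PS2 MM (T ξ) * t a ^ (3 * N + 1) *
      algebraMap PS2 MM (T (aeval h.psi G0)) = det3 a b c t s1 s2 ^ N *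
        algebraMap PS2 MM (T (aeval h.psi G1)) := by
    rw [hR, ← hJ, mul_pow, ← pow_mul]
    field_simp
    ring
  have hfin' : T ξ * T (h.psi a) ^ (3 * N + 1) * T (aeval h.psi G0) =
      det3 a b c (fun l => T (h.psi l)) (fun l => dS (T (h.psi l))) (fun l => dT (T (h.psi l))) ^ N *
        T (aeval h.psi G1) := by
    apply hinj
    rw [map_mul, map_mul, map_mul, map_pow, map_pow, map_det3]
    exact hfin
  have hcc := congrArg cc hfin'
  rw [map_mul, map_mul, map_mul, map_pow, map_pow, map_det3] at hcc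
  simp only [hT, cc_TT, cc_dS, cc_dT, h.aeval_val, h.psi_val] at hcc
  exact hcc

end Pool.Agent.L7h90.GL
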