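import Pool.Agent.L7h90.GL.Rep

/-! The local coefficients of a twisted pluricanonical form are compatible. -/

set_option autoImplicit false

open Filter Topology Set Metric MvPolynomial FF

namespace Pool.Agent.L7h90.GL

open Pool.Agent.N155 Pool.Agent.Y190.OP Pool.Agent.W602.GT Pool.Agent.TH143.GT

variable {n : ℕ} {K : Type} [Field K] [Algebra ℂ K] {y : Fin (n + 1) → K}
  {A : (Fin 2 → Derivation ℂ K K) → K} {o : Fin (n + 1)}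

theorem det3_tw {m : ℕ} (a b c : Fin m) (x v w : Fin m → ℂ) (t e f : ℂ) :
    det3 a b c (t • x) (t • (v + e • x)) (t • (w + f • x)) = t ^ 3 * det3 a b c x v w := by
  unfold det3
  simp only [Pi.smul_apply, Pi.add_apply, smul_eq_mul]
  ring

theorem det3_lin {m : ℕ} (a b c : Fin m) (x p q : Fin m → ℂ) (e f s : ℂ) (u u' : ℂ × ℂ) :
    det3 a b c x (e • x + s • (u.1 • p + u.2 • q)) (f • x + s • (u'.1 • p + u'.2 • q)) =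
      s ^ 2 * (u.1 * u'.2 - u.2 * u'.1) * det3 a b c x p q := by
  unfold det3
  simp only [Pi.smul_apply, Pi.add_apply, smul_eq_mul]
  ring

theorem det3_smul {m : ℕ} (a b c : Fin m) (x v w : Fin m → ℂ) (t : ℂ) :
    det3 a b c (t • x) v w = t * det3 a b c x v w := by
  unfold det3
  simp only [Pi.smul_apply, smul_eq_mul]
  ring

theorem pr_smul (i j k : Fin (n + 1)) (x : Fin (n + 1) → ℂ) {c : ℂ} (hc : c ≠ 0) :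
    pr i j k (c • x) = pr i j k x := by
  unfold pr
  simp only [Pi.smul_apply, smul_eq_mul]
  rw [mul_div_mul_left _ _ hc, mul_div_mul_left _ _ hc]

theorem pr_cont (i j k : Fin (n + 1)) {x : Fin (n + 1) → ℂ} (hx : x i ≠ 0) :
    ContinuousAt (pr i j k) x := by
  unfold pr
  exact ((continuous_apply j).continuousAt.div (continuous_apply i).continuousAt hx).prodMk
    ((continuous_apply k).continuousAt.div (continuous_apply i).continuousAt hx)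

theorem VarPts_smul {x : Fin (n + 1) → ℂ} (hx : x ∈ VarPts ℂ y) {c : ℂ} (hc : c ≠ 0) :
    c • x ∈ VarPts ℂ y := by
  refine ⟨smul_ne_zero hc hx.1, fun G hG h0 => ?_⟩
  obtain ⟨d, hd⟩ := hG
  rw [val_eval, eval_smul hd, ← val_eval, hx.2 G ⟨d, hd⟩ h0, mul_zero]

theorem Rp.At.ev {ρ : Rp y A o} {x : Fin (n + 1) → ℂ} (h : ρ.At x) : ∀ᶠ u in 𝓝 x, ρ.At u := by
  have h1 : ∀ᶠ u : Fin (n + 1) → ℂ in 𝓝 x, u ρ.i ≠ 0 :=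
    (continuous_apply ρ.i).continuousAt.eventually_ne h.ne
  have h2 := (pr_cont ρ.i ρ.j ρ.k h.ne).eventually (ρ.ch.op.mem_nhds h.mem)
  filter_upwards [h1, h2, h.near.eventually_nhds] with u e1 e2 e3
  exact ⟨e1, e2, e3⟩

theorem Rp.At.smul {ρ : Rp y A o} {x : Fin (n + 1) → ℂ} (h : ρ.At x) {c : ℂ} (hc : c ≠ 0) :
    ρ.At (c • x) := by
  refine ⟨mul_ne_zero hc h.ne, by rw [pr_smul _ _ _ _ hc]; exact h.mem, ?_⟩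
  have h1 : Tendsto (fun u : Fin (n + 1) → ℂ => c⁻¹ • u) (𝓝 (c • x)) (𝓝 x) := by
    have h2 : Continuous (fun u : Fin (n + 1) → ℂ => c⁻¹ • u) := by fun_prop
    have h3 := h2.tendsto (c • x)
    rwa [smul_smul, inv_mul_cancel₀ hc, one_smul] at h3
  filter_upwards [h1.eventually h.near] with u hu huV
  have h2 := hu (VarPts_smul huV (inv_ne_zero hc))
  rw [pr_smul _ _ _ _ (inv_ne_zero hc)] at h2
  have h3 := congrArg (fun v => c • v) h2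
  simp only [smul_smul, Pi.smul_apply, smul_eq_mul, mul_inv_cancel₀ hc, one_smul, ← mul_assoc,
    one_mul] at h3
  exact h3

theorem Rp.At.eq {ρ : Rp y A o} {x : Fin (n + 1) → ℂ} (h : ρ.At x) (hx : x ∈ VarPts ℂ y) :
    x = x ρ.i • ρ.Ψ (pr ρ.i ρ.j ρ.k x) := h.near.self_of_nhds hx

/-- the relation of the coefficient -/
theorem Rp.At.rel {ρ : Rp y A o} {x : Fin (n + 1) → ℂ} (h : ρ.At x) (hx : x ∈ VarPts ℂ y) :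
    eval x ρ.Q1 = ext0 ρ.U ρ.ξ.1 (pr ρ.i ρ.j ρ.k x) * eval x ρ.Q0 := by
  have h1 := h.eq hx
  set p : ρ.U := ⟨pr ρ.i ρ.j ρ.k x, h.mem⟩ with hp
  have h2 : (aeval ρ.ch.psi ρ.Q1 : AnU ρ.ch.op).1 p = (ρ.ξ * aeval ρ.ch.psi ρ.Q0 : AnU ρ.ch.op).1 p := by
    rw [ρ.rel]
  change (aeval ρ.ch.psi ρ.Q1 : AnU ρ.ch.op).1 p = ρ.ξ.1 p * (aeval ρ.ch.psi ρ.Q0 : AnU ρ.ch.op).1 p
    at h2
  rw [ρ.ch.aeval_val, ρ.ch.aeval_val] at h2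
  rw [ext0_apply _ h.mem]
  have h3 : ∀ (Q : MvPolynomial (Fin (n + 1)) ℂ), Q.IsHomogeneous ρ.d →
      eval x Q = x ρ.i ^ ρ.d * eval (ρ.Ψ p) Q := by
    intro Q hQ
    conv_lhs => rw [h1]
    rw [eval_smul hQ]
  rw [h3 _ ρ.hQ1, h3 _ ρ.hQ0, h2]
  ring

/-- cancellation of a function which is not identically zero -/
theorem cancel {U : Set (ℂ × ℂ)} (hU : IsOpen U) {p : ℂ × ℂ} (hp : p ∈ U) {b : AnU hU}
    (hb : ¬ ∀ᶠ z in 𝓝 p, ext0 U b.1 z = 0) {a : ℂ × ℂ → ℂ} (ha : ContinuousAt a p)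
    (hab : ∀ᶠ z in 𝓝 p, a z * ext0 U b.1 z = 0) : a p = 0 := by
  obtain ⟨d, hd⟩ := exists_dir hU hp hb
  have hp' : p + (0 : ℂ) • d ∈ U := by rwa [zero_smul, add_zero]
  have h1 := ((analyticAt_line hU d p b hp').eventually_eq_zero_or_eventually_ne_zero).resolve_left
    hd
  have hc : Tendsto (fun t : ℂ => p + t • d) (𝓝 0) (𝓝 p) := by
    have h3 : Continuous (fun t : ℂ => p + t • d) := by fun_prop
    have h4 := h3.tendsto 0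
    rwa [zero_smul, add_zero] at h4
  have h2 : Tendsto (fun t : ℂ => a (p + t • d)) (𝓝[≠] 0) (𝓝 (a p)) :=
    (ha.tendsto.comp hc).mono_left nhdsWithin_le_nhds
  refine tendsto_nhds_unique h2 ?_
  apply tendsto_const_nhds.congr'
  filter_upwards [h1, (hc.eventually hab).filter_mono nhdsWithin_le_nhds] with t h3 h4
  exact ((mul_eq_zero.1 h4).resolve_right h3).symm

variable {N : ℕ}

theorem Ch.d1_an {i j k : Fin (n + 1)} {U : Set (ℂ × ℂ)} {Ψ : ℂ × ℂ → Fin (n + 1) → ℂ}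
    (h : Ch y i j k U Ψ) {p : ℂ × ℂ} (hp : p ∈ U) (l : Fin (n + 1)) :
    AnalyticAt ℂ (fun z => h.d1 z l) p :=
  ((ContinuousLinearMap.apply ℂ ℂ ((1, 0) : ℂ × ℂ)).analyticAt _).comp ((h.psi l).2 p hp).fderiv

theorem Ch.d2_an {i j k : Fin (n + 1)} {U : Set (ℂ × ℂ)} {Ψ : ℂ × ℂ → Fin (n + 1) → ℂ}
    (h : Ch y i j k U Ψ) {p : ℂ × ℂ} (hp : p ∈ U) (l : Fin (n + 1)) :
    AnalyticAt ℂ (fun z => h.d2 z l) p :=
  ((ContinuousLinearMap.apply ℂ ℂ ((0, 1) : ℂ × ℂ)).analyticAt _).comp ((h.psi l).2 p hp).fderiv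

/-- **The comparison of two coefficients.** -/
theorem Rp.cons (hdim : Algebra.trdeg ℂ K = (2 : ℕ)) (R : ∀ h : K, Frac y h) (hA : IsPluri N A)
    {ρ ρ' : Rp y A o} {x : Fin (n + 1) → ℂ} (hx : x ∈ VarPts ℂ y) (h : ρ.At x) (h' : ρ'.At x) :
    ext0 ρ'.U ρ'.ξ.1 (pr ρ'.i ρ'.j ρ'.k x) * ρ'.Ψ (pr ρ'.i ρ'.j ρ'.k x) ρ.i ^ (3 * N + 1) =
      det3 ρ.i ρ.j ρ.k (ρ'.Ψ (pr ρ'.i ρ'.j ρ'.k x)) (ρ'.ch.d1 (pr ρ'.i ρ'.j ρ'.k x))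
        (ρ'.ch.d2 (pr ρ'.i ρ'.j ρ'.k x)) ^ N * ext0 ρ.U ρ.ξ.1 (pr ρ.i ρ.j ρ.k x) := by
  set p := pr ρ'.i ρ'.j ρ'.k x with hp
  have hpU : p ∈ ρ'.U := h'.mem
  have hxi' := h'.ne
  have hΦp : x ρ'.i • ρ'.Ψ p = x := (h'.eq hx).symm
  have hΨl : ∀ l, AnalyticAt ℂ (fun z => ρ'.Ψ z l) p := fun l => ρ'.ch.an' l p hpU
  have hΨc : ContinuousAt ρ'.Ψ p := (ρ'.ch.an p hpU).continuousAt
  have hΦc : Tendsto (fun z => x ρ'.i • ρ'.Ψ z) (𝓝 p) (𝓝 x) := by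
    have h1 : ContinuousAt (fun z => x ρ'.i • ρ'.Ψ z) p := hΨc.const_smul (x ρ'.i)
    have h2 := h1.tendsto
    rwa [hΦp] at h2
  -- the continuous function
  have hprc : ContinuousAt (fun z => ext0 ρ.U ρ.ξ.1 (pr ρ.i ρ.j ρ.k (x ρ'.i • ρ'.Ψ z))) p := by
    have h1 : ContinuousAt (fun z => x ρ'.i • ρ'.Ψ z) p := hΨc.const_smul (x ρ'.i)
    have h2 : ContinuousAt (fun z => pr ρ.i ρ.j ρ.k (x ρ'.i • ρ'.Ψ z)) p := by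
      apply ContinuousAt.comp (g := pr ρ.i ρ.j ρ.k) (f := fun z => x ρ'.i • ρ'.Ψ z) _ h1
      rw [hΦp]
      exact pr_cont _ _ _ h.ne
    apply ContinuousAt.comp (g := ext0 ρ.U ρ.ξ.1) (f := fun z => pr ρ.i ρ.j ρ.k (x ρ'.i • ρ'.Ψ z)) _ h2
    rw [hΦp]
    exact (ρ.ξ.2 _ h.mem).continuousAt
  have hdet : ContinuousAt (fun z => det3 ρ.i ρ.j ρ.k (ρ'.Ψ z) (ρ'.ch.d1 z) (ρ'.ch.d2 z)) p := by
    have a1 : ∀ l, ContinuousAt (fun z => ρ'.Ψ z l) p := fun l => (hΨl l).continuousAt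
    have a2 : ∀ l, ContinuousAt (fun z => ρ'.ch.d1 z l) p := fun l => (ρ'.ch.d1_an hpU l).continuousAt
    have a3 : ∀ l, ContinuousAt (fun z => ρ'.ch.d2 z l) p := fun l => (ρ'.ch.d2_an hpU l).continuousAt
    unfold det3
    exact (((a1 _).mul (((a2 _).mul (a3 _)).sub ((a2 _).mul (a3 _)))).sub
      ((a1 _).mul (((a2 _).mul (a3 _)).sub ((a2 _).mul (a3 _))))).add
      ((a1 _).mul (((a2 _).mul (a3 _)).sub ((a2 _).mul (a3 _))))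
  have hac : ContinuousAt (fun z => ext0 ρ'.U ρ'.ξ.1 z * ρ'.Ψ z ρ.i ^ (3 * N + 1) -
      det3 ρ.i ρ.j ρ.k (ρ'.Ψ z) (ρ'.ch.d1 z) (ρ'.ch.d2 z) ^ N *
        ext0 ρ.U ρ.ξ.1 (pr ρ.i ρ.j ρ.k (x ρ'.i • ρ'.Ψ z))) p :=
    ((ρ'.ξ.2 p hpU).continuousAt.mul ((hΨl ρ.i).continuousAt.pow _)).sub ((hdet.pow _).mul hprc)
  have hnz : ¬ ∀ᶠ z in 𝓝 p, ext0 ρ'.U (aeval ρ'.ch.psi ρ.Q0 : AnU ρ'.ch.op).1 z = 0 :=
    ρ'.ch.not_zero hdim ⟨p, hpU⟩ ⟨_, ρ.hQ0⟩ ρ.hn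
  have h1 := cancel ρ'.ch.op hpU hnz hac (by
    filter_upwards [hΦc.eventually h.ev, ρ'.ch.op.mem_nhds hpU] with z hz hzU
    have hzV : x ρ'.i • ρ'.Ψ z ∈ VarPts ℂ y := VarPts_smul (ρ'.ch.mem z hzU) hxi'
    have e1 := hz.rel hzV
    rw [eval_smul ρ.hQ1, eval_smul ρ.hQ0] at e1
    have e2 : eval (ρ'.Ψ z) ρ.Q1 = ext0 ρ.U ρ.ξ.1 (pr ρ.i ρ.j ρ.k (x ρ'.i • ρ'.Ψ z)) *
        eval (ρ'.Ψ z) ρ.Q0 := by
      have h3 : x ρ'.i ^ ρ.d ≠ 0 := pow_ne_zero _ hxi'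
      apply mul_left_cancel₀ h3
      rw [e1]
      ring
    have e3 := ρ'.ch.compare hdim R ⟨z, hzU⟩ ρ'.dual hA (o := o) ρ'.ξ ρ'.hQ1 ρ'.hQ0 ρ'.hn ρ'.eq
      ρ'.rel (ρ.ch.yi ⟨_, h.mem⟩) ρ.dual ρ.hQ1 ρ.hQ0 ρ.hn ρ.eq
    rw [ext0_apply _ hzU, ext0_apply _ hzU, ρ'.ch.aeval_val, sub_mul, e3, e2]
    ring)
  rw [hΦp] at h1
  exact sub_eq_zero.1 h1

/-- the value of the section -/
noncomputable def Rp.V (ρ : Rp y A o) (N : ℕ) (x v w : Fin (n + 1) → ℂ) : ℂ :=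
  ext0 ρ.U ρ.ξ.1 (pr ρ.i ρ.j ρ.k x) * (x ρ.i)⁻¹ * (det3 ρ.i ρ.j ρ.k x v w / x ρ.i ^ 3) ^ N

/-- tangent vectors -/
def Rp.Tan (ρ : Rp y A o) (x v : Fin (n + 1) → ℂ) (u : ℂ × ℂ) : Prop :=
  ∃ e : ℂ, v = e • x + x ρ.i • (u.1 • ρ.ch.d1 (pr ρ.i ρ.j ρ.k x) +
    u.2 • ρ.ch.d2 (pr ρ.i ρ.j ρ.k x))

theorem Ch.det_one {i j k : Fin (n + 1)} {U : Set (ℂ × ℂ)} {Ψ : ℂ × ℂ → Fin (n + 1) → ℂ}
    (h : Ch y i j k U Ψ) {p : ℂ × ℂ} (hp : p ∈ U) : det3 i j k (Ψ p) (h.d1 p) (h.d2 p) = 1 := by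
  have a1 : ∀ d : ℂ × ℂ, fderiv ℂ (ext0 U (h.psi i).1) p d = 0 := by
    intro d
    have h1 : ext0 U (h.psi i).1 =ᶠ[𝓝 p] fun _ => (1 : ℂ) := by
      apply ext0_eq h.op (G := fun _ => (1 : ℂ)) _ hp
      intro w
      exact h.i1 w w.2
    rw [h1.fderiv_eq]
    simp
  have a2 : ∀ d : ℂ × ℂ, fderiv ℂ (ext0 U (h.psi j).1) p d = d.1 := by
    intro d
    have h1 := congrArg (fun g : AnU h.op => g.1 ⟨p, hp⟩) (h.dpsij d)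
    exact h1
  have a3 : ∀ d : ℂ × ℂ, fderiv ℂ (ext0 U (h.psi k).1) p d = d.2 := by
    intro d
    have h1 := congrArg (fun g : AnU h.op => g.1 ⟨p, hp⟩) (h.dpsik d)
    exact h1
  unfold det3 Ch.d1 Ch.d2
  rw [a1, a1, a2, a2, a3, a3, h.i1 p hp]
  ring

/-- **The value of the section does not depend on the chart.** -/
theorem Rp.V_eq (hdim : Algebra.trdeg ℂ K = (2 : ℕ)) (R : ∀ h : K, Frac y h) (hA : IsPluri N A)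
    {ρ ρ' : Rp y A o} {x v w : Fin (n + 1) → ℂ} (hx : x ∈ VarPts ℂ y) (h : ρ.At x) (h' : ρ'.At x)
    {u u' : ℂ × ℂ} (hv : ρ'.Tan x v u) (hw : ρ'.Tan x w u') : ρ.V N x v w = ρ'.V N x v w := by
  have hc := Rp.cons hdim R hA hx h h'
  set p := pr ρ'.i ρ'.j ρ'.k x with hp
  obtain ⟨e, he⟩ := hv
  obtain ⟨f, hf⟩ := hw
  rw [← hp] at he hf
  have hx' : x = x ρ'.i • ρ'.Ψ p := h'.eq hx
  have hs := h'.ne
  set s := x ρ'.i with hsd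
  have hxi : x ρ.i = s * ρ'.Ψ p ρ.i := by
    conv_lhs => rw [hx']
    rfl
  have hΨi : ρ'.Ψ p ρ.i ≠ 0 := by
    intro h0
    apply h.ne
    rw [hxi, h0, mul_zero]
  have hdet : ∀ a b c : Fin (n + 1), det3 a b c x v w = s ^ 3 * (u.1 * u'.2 - u.2 * u'.1) *
      det3 a b c (ρ'.Ψ p) (ρ'.ch.d1 p) (ρ'.ch.d2 p) := by
    intro a b c
    rw [he, hf, det3_lin]
    have h1 : det3 a b c x (ρ'.ch.d1 p) (ρ'.ch.d2 p) =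
        s * det3 a b c (ρ'.Ψ p) (ρ'.ch.d1 p) (ρ'.ch.d2 p) := by
      conv_lhs => rw [hx']
      rw [det3_smul]
    rw [h1]
    ring
  unfold Rp.V
  rw [← hp, hdet, hdet, ρ'.ch.det_one h'.mem, hxi, ← hsd]
  have h2 : ext0 ρ.U ρ.ξ.1 (pr ρ.i ρ.j ρ.k x) * (s * ρ'.Ψ p ρ.i)⁻¹ *
      (s ^ 3 * (u.1 * u'.2 - u.2 * u'.1) * det3 ρ.i ρ.j ρ.k (ρ'.Ψ p) (ρ'.ch.d1 p) (ρ'.ch.d2 p) /
        (s * ρ'.Ψ p ρ.i) ^ 3) ^ N = (det3 ρ.i ρ.j ρ.k (ρ'.Ψ p) (ρ'.ch.d1 p) (ρ'.ch.d2 p) ^ N *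
          ext0 ρ.U ρ.ξ.1 (pr ρ.i ρ.j ρ.k x)) * s⁻¹ * (u.1 * u'.2 - u.2 * u'.1) ^ N *
            (ρ'.Ψ p ρ.i ^ (3 * N + 1))⁻¹ := by
    have h3 : s ^ 3 * (u.1 * u'.2 - u.2 * u'.1) * det3 ρ.i ρ.j ρ.k (ρ'.Ψ p) (ρ'.ch.d1 p)
        (ρ'.ch.d2 p) / (s * ρ'.Ψ p ρ.i) ^ 3 = (u.1 * u'.2 - u.2 * u'.1) *
          det3 ρ.i ρ.j ρ.k (ρ'.Ψ p) (ρ'.ch.d1 p) (ρ'.ch.d2 p) / ρ'.Ψ p ρ.i ^ 3 := by
      field_simp
    rw [h3, div_pow, mul_pow, ← pow_mul, pow_succ]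
    field_simp
  rw [h2, ← hc, mul_one]
  have h3 : s ^ 3 * (u.1 * u'.2 - u.2 * u'.1) / s ^ 3 = u.1 * u'.2 - u.2 * u'.1 := by
    field_simp
  rw [h3]
  have h4 : ρ'.Ψ p ρ.i ^ (3 * N + 1) ≠ 0 := pow_ne_zero _ hΨi
  field_simp

end Pool.Agent.L7h90.GL
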