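import Pool.Agent.L7h90.GL.Mor

/-! Unramified coverings: lifting of entire curves. -/

set_option autoImplicit false

open Filter Topology Set Metric MvPolynomial FF LinearAlgebra.Projectivization

namespace Pool.Agent.L7h90.GL

open Pool.Agent.Y190.OP Pool.Agent.W602.GT
open Pool.Agent.N154.GG (HolMap holP_of holMap_of projDist toProj toProj_Phi Phi_rep_mk
  Phi_rep_toProj proj_ext)
open Pool.Agent.N154.TB
open scoped LinearAlgebra.Projectivization

variable {n n' : ℕ} {ι ι' : Type} {F : ι → MvPolynomial (Fin (n + 1)) ℂ}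
  {F' : ι' → MvPolynomial (Fin (n' + 1)) ℂ}

/-- The forms `P` define an unramified covering of `X = {F = 0}` by `X' = {F' = 0}`: a surjective
morphism which is a local isomorphism. At every point `x` of `X'` there is a holomorphic map `s`,
defined near the image of `x`, which maps the points of `X` to points of `X'`, such that for the
points `u` of `X` near the image of `x` and the points `v` of `X'` near `x`, `v` lies over `u` if
and only if `v = s(u)`. -/
structure Covering (F' : ι' → MvPolynomial (Fin (n' + 1)) ℂ) (F : ι → MvPolynomial (Fin (n + 1)) ℂ)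
    (P : Fin (n + 1) → MvPolynomial (Fin (n' + 1)) ℂ) : Prop extends Morphism F' F P where
  surj : ∀ u ∈ Cone F, ∃ x ∈ Cone F', Over P u x
  iso : ∀ x ∈ Cone F', ∃ s : (Fin (n + 1) → ℂ) → Fin (n' + 1) → ℂ, AnalyticAt ℂ s (mor P x) ∧
    (∀ᶠ u in 𝓝 (mor P x), u ∈ Cone F → s u ∈ Cone F') ∧
    ∀ᶠ q : (Fin (n + 1) → ℂ) × (Fin (n' + 1) → ℂ) in 𝓝 (mor P x, x), q.1 ∈ Cone F →
      q.2 ∈ Cone F' → (Over P q.1 q.2 ↔ ∃ c : ℂ, q.2 = c • s q.1)

variable {P : Fin (n + 1) → MvPolynomial (Fin (n' + 1)) ℂ}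

/-- the points of the projective set, as a compact space -/
abbrev Pts (F : ι → MvPolynomial (Fin (n + 1)) ℂ) : Type := TS (Cone F)

theorem TS_diag {X : Set (Fin (n + 1) → ℂ)} {M : Mat (n + 1)} (hM : M ∈ TS X) (hX : Conic X) :
    ∃ i, M i i ≠ 0 := PM.exists_diag (TS_PM hX hM)

/-- the covering map -/
noncomputable def pmap (hF' : ∀ i, IsForm (F' i)) (hP : Morphism F' F P) (M : Pts F') : Pts F :=
  ⟨Phi (mor P (toProj M.1).rep), _, hP.mem _ (rep_toProj (cone_conic hF') M.2), rfl⟩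

theorem pmap_eq (hF' : ∀ i, IsForm (F' i)) (hP : Morphism F' F P) {M : Pts F'}
    {x : Fin (n' + 1) → ℂ} (hx : x ≠ 0) (hM : M.1 = Phi x) : (pmap hF' hP M).1 = Phi (mor P x) := by
  obtain ⟨e, he⟩ := hP.deg
  obtain ⟨c, hc, hcx⟩ := Phi_inj hx (toProj M.1).rep_nonzero (by
    rw [hM, Phi_rep_toProj ⟨x, hx, rfl⟩])
  change Phi (mor P (toProj M.1).rep) = _
  rw [hcx, Phi_mor he hc]

/-- a continuous choice of homogeneous coordinates near a point -/
theorem exists_coord {X : Set (Fin (n + 1) → ℂ)} (hX : Conic X) {x0 : Fin (n + 1) → ℂ}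
    (hx0 : x0 ∈ X) : ∃ r : Mat (n + 1) → Fin (n + 1) → ℂ, ContinuousAt r (Phi x0) ∧
      r (Phi x0) = x0 ∧ ∀ᶠ M in 𝓝 (Phi x0), M ∈ TS X → r M ∈ X ∧ M = Phi (r M) := by
  have h0 := (hX x0 hx0).1
  obtain ⟨i, hi⟩ := PM.exists_diag (M := Phi x0) ⟨x0, h0, rfl⟩
  have hi' := (Phi_diag_ne h0).1 hi
  have hc : ContinuousAt (fun M : Mat (n + 1) => x0 i • chart i M) (Phi x0) := by
    have h1 : ContinuousAt (fun M : Mat (n + 1) => chart i M) (Phi x0) := continuousAt_chart hi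
    fun_prop
  refine ⟨fun M => x0 i • chart i M, hc, ?_, ?_⟩
  · change x0 i • chart i (Phi x0) = x0
    rw [chart_Phi h0 hi', smul_smul, mul_inv_cancel₀ hi', one_smul]
  · have h3 : ContinuousAt (fun M : Mat (n + 1) => M i i) (Phi x0) :=
      ((continuous_apply i).comp (continuous_apply i)).continuousAt
    filter_upwards [h3.eventually_ne hi] with M hM hMX
    refine ⟨(hX _ (TS_chart hX hMX hM)).2 _ hi', ?_⟩
    rw [Phi_smul hi', PM.Phi_chart (TS_PM hX hMX) hM]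

theorem pmap_cont (hF' : ∀ i, IsForm (F' i)) (hP : Morphism F' F P) :
    Continuous (pmap hF' hP) := by
  apply continuous_induced_rng.2
  rw [continuous_iff_continuousAt]
  rintro ⟨M0, x0, hx0, rfl⟩
  obtain ⟨r, hr, hr0, hre⟩ := exists_coord (cone_conic hF') hx0
  have h1 : ContinuousAt (fun M : Pts F' => Phi (mor P (r M.1))) ⟨Phi x0, x0, hx0, rfl⟩ := by
    have h2 : ContinuousAt (fun M : Mat (n' + 1) => Phi (mor P (r M))) (Phi x0) := by
      apply ContinuousAt.comp (g := Phi) (f := fun M => mor P (r M))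
      · rw [hr0]
        exact continuousAt_Phi (hP.ne hx0)
      · exact (mor_cont P).continuousAt.comp hr
    exact ContinuousAt.comp (g := fun M : Mat (n' + 1) => Phi (mor P (r M))) h2
      continuousAt_subtype_val
  refine h1.congr ?_
  have h3 : ∀ᶠ M : Pts F' in 𝓝 ⟨Phi x0, x0, hx0, rfl⟩, M.1 ∈ TS (Cone F') →
      r M.1 ∈ Cone F' ∧ M.1 = Phi (r M.1) :=
    (continuousAt_subtype_val (x := (⟨Phi x0, x0, hx0, rfl⟩ : Pts F'))).eventually hre
  filter_upwards [h3] with M hM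
  obtain ⟨h4, h5⟩ := hM M.2
  exact (pmap_eq hF' hP h4.1 h5).symm

theorem Covering.base (hF' : ∀ i, IsForm (F' i)) (h : Covering F' F P) {x0 : Fin (n' + 1) → ℂ} (hx0 : x0 ∈ Cone F') :
    ∃ s : (Fin (n + 1) → ℂ) → Fin (n' + 1) → ℂ, AnalyticAt ℂ s (mor P x0) ∧ s (mor P x0) = x0 ∧
    (∀ᶠ u in 𝓝 (mor P x0), u ∈ Cone F → s u ∈ Cone F') ∧
    ∀ᶠ q : (Fin (n + 1) → ℂ) × (Fin (n' + 1) → ℂ) in 𝓝 (mor P x0, x0), q.1 ∈ Cone F →
      q.2 ∈ Cone F' → (Over P q.1 q.2 ↔ ∃ c : ℂ, q.2 = c • s q.1) := by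
  obtain ⟨s, hs, hs1, hs2⟩ := h.iso x0 hx0
  obtain ⟨c, hc⟩ := (hs2.self_of_nhds (h.mem x0 hx0) hx0).1 ⟨1, (one_smul _ _).symm⟩
  have hc' : x0 = c • s (mor P x0) := hc
  have hc0 : c ≠ 0 := by
    rintro rfl
    rw [zero_smul] at hc'
    exact hx0.1 hc'
  refine ⟨fun u => c • s u, analyticAt_const.fun_smul hs, hc'.symm, ?_, ?_⟩
  · filter_upwards [hs1] with u hu huF
    exact (cone_conic hF' _ (hu huF)).2 c hc0
  · filter_upwards [hs2] with q hq h1 h2
    rw [hq h1 h2]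
    constructor
    · rintro ⟨d, hd⟩
      refine ⟨d / c, ?_⟩
      rw [smul_smul, div_mul_cancel₀ _ hc0]
      exact hd
    · rintro ⟨d, hd⟩
      exact ⟨d * c, by rw [mul_smul]; exact hd⟩

theorem Covering.nhds_le (hF : ∀ i, IsForm (F i)) (hF' : ∀ i, IsForm (F' i))
    (h : Covering F' F P) (M0 : Pts F') :
    𝓝 (pmap hF' h.toMorphism M0) ≤ map (pmap hF' h.toMorphism) (𝓝 M0) := by
  obtain ⟨M0, x0, hx0, rfl⟩ := M0
  obtain ⟨s, hs, hs0, hs1, hs2⟩ := h.base hF' hx0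
  set u0 := mor P x0 with hu0
  have hu0F : u0 ∈ Cone F := h.mem x0 hx0
  obtain ⟨r, hr, hr0, hre⟩ := exists_coord (cone_conic hF) hu0F
  have hr' : Tendsto r (𝓝 (Phi u0)) (𝓝 u0) := by
    have := hr.tendsto
    rwa [hr0] at this
  have hsr : Tendsto (fun N => s (r N)) (𝓝 (Phi u0)) (𝓝 x0) := by
    have h1 := hs.continuousAt.tendsto
    rw [hs0] at h1
    exact h1.comp hr'
  have hpM0 : (pmap hF' h.toMorphism ⟨Phi x0, x0, hx0, rfl⟩).1 = Phi u0 :=
    pmap_eq hF' h.toMorphism hx0.1 rfl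
  have hval : Tendsto (fun N : Pts F => N.1) (𝓝 (pmap hF' h.toMorphism ⟨Phi x0, x0, hx0, rfl⟩))
      (𝓝 (Phi u0)) := by
    have h1 := (continuous_subtype_val (p := fun M => M ∈ TS (Cone F))).tendsto
      (pmap hF' h.toMorphism ⟨Phi x0, x0, hx0, rfl⟩)
    rwa [hpM0] at h1
  have hpair : Tendsto (fun N => (r N, s (r N))) (𝓝 (Phi u0)) (𝓝 (u0, x0)) := hr'.prodMk_nhds hsr
  have hev : ∀ᶠ N in 𝓝 (Phi u0), N ∈ TS (Cone F) → s (r N) ∈ Cone F' ∧
      N = Phi (mor P (s (r N))) := by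
    filter_upwards [hre, hr'.eventually hs1, hpair.eventually hs2] with N h1 h2 h3 hN
    obtain ⟨h4, h5⟩ := h1 hN
    have h6 := h2 h4
    obtain ⟨c, hc⟩ := (h3 h4 h6).2 ⟨1, (one_smul _ _).symm⟩
    refine ⟨h6, ?_⟩
    have hc' : r N = c • mor P (s (r N)) := hc
    have hc0 : c ≠ 0 := by
      rintro rfl
      rw [zero_smul] at hc'
      exact h4.1 hc'
    conv_lhs => rw [h5, hc', Phi_smul hc0]
  classical
  set σ : Pts F → Pts F' := fun N => if h : Phi (s (r N.1)) ∈ TS (Cone F') then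
    ⟨Phi (s (r N.1)), h⟩ else ⟨Phi x0, x0, hx0, rfl⟩ with hσ
  have hσe : ∀ᶠ N in 𝓝 (pmap hF' h.toMorphism ⟨Phi x0, x0, hx0, rfl⟩),
      (σ N).1 = Phi (s (r N.1)) ∧ pmap hF' h.toMorphism (σ N) = N := by
    filter_upwards [hval.eventually hev] with N hN
    obtain ⟨h1, h2⟩ := hN N.2
    have h3 : Phi (s (r N.1)) ∈ TS (Cone F') := ⟨_, h1, rfl⟩
    have h4 : (σ N).1 = Phi (s (r N.1)) := by
      rw [hσ]
      beta_reduce
      rw [dif_pos h3]
    refine ⟨h4, ?_⟩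
    apply Subtype.ext
    rw [pmap_eq hF' h.toMorphism h1.1 h4, ← h2]
  have hσt : Tendsto σ (𝓝 (pmap hF' h.toMorphism ⟨Phi x0, x0, hx0, rfl⟩))
      (𝓝 ⟨Phi x0, x0, hx0, rfl⟩) := by
    rw [tendsto_subtype_rng]
    have h1 : Tendsto (fun N : Pts F => Phi (s (r N.1)))
        (𝓝 (pmap hF' h.toMorphism ⟨Phi x0, x0, hx0, rfl⟩)) (𝓝 (Phi x0)) :=
      ((continuousAt_Phi hx0.1).tendsto.comp hsr).comp hval
    refine h1.congr' ?_
    filter_upwards [hσe] with N hN
    exact hN.1.symm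
  intro W hW
  have h1 := hσt hW
  filter_upwards [h1, hσe] with N h2 h3
  have h4 : pmap hF' h.toMorphism (σ N) ∈ W := h2
  rwa [h3.2] at h4

theorem Covering.inj (hF' : ∀ i, IsForm (F' i))
    (h : Covering F' F P) (M0 : Pts F') : ∃ U ∈ 𝓝 M0, InjOn (pmap hF' h.toMorphism) U := by
  obtain ⟨M0, x0, hx0, rfl⟩ := M0
  obtain ⟨s, hs, hs0, hs1, hs2⟩ := h.base hF' hx0
  obtain ⟨r, hr, hr0, hre⟩ := exists_coord (cone_conic hF') hx0
  set p0 : Pts F' := ⟨Phi x0, x0, hx0, rfl⟩ with hp0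
  have hval : Tendsto (fun N : Pts F' => N.1) (𝓝 p0) (𝓝 (Phi x0)) :=
    (continuous_subtype_val (p := fun M => M ∈ TS (Cone F'))).tendsto p0
  have hr' : Tendsto (fun N : Pts F' => r N.1) (𝓝 p0) (𝓝 x0) := by
    have := hr.tendsto
    rw [hr0] at this
    exact this.comp hval
  have h1 : Tendsto (fun z : Pts F' × Pts F' => (mor P (r z.1.1), r z.2.1)) (𝓝 (p0, p0))
      (𝓝 (mor P x0, x0)) := by
    refine Tendsto.prodMk_nhds ?_ ?_
    · exact ((mor_cont P).tendsto x0).comp (hr'.comp (continuous_fst.tendsto (p0, p0)))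
    · exact hr'.comp (continuous_snd.tendsto (p0, p0))
  have h1' : Tendsto (fun z : Pts F' × Pts F' => (mor P (r z.1.1), r z.1.1)) (𝓝 (p0, p0))
      (𝓝 (mor P x0, x0)) := by
    refine Tendsto.prodMk_nhds ?_ ?_
    · exact ((mor_cont P).tendsto x0).comp (hr'.comp (continuous_fst.tendsto (p0, p0)))
    · exact hr'.comp (continuous_fst.tendsto (p0, p0))
  have h2 : ∀ᶠ z : Pts F' × Pts F' in 𝓝 p0 ×ˢ 𝓝 p0,
      pmap hF' h.toMorphism z.1 = pmap hF' h.toMorphism z.2 → z.1 = z.2 := by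
    rw [← nhds_prod_eq]
    filter_upwards [h1.eventually hs2, h1'.eventually hs2,
      (continuous_fst.tendsto (p0, p0)).eventually (hval.eventually hre),
      (continuous_snd.tendsto (p0, p0)).eventually (hval.eventually hre)] with z k1 k2 k3 k4 hz
    obtain ⟨a1, a2⟩ := k3 z.1.2
    obtain ⟨b1, b2⟩ := k4 z.2.2
    have e1 : Phi (mor P (r z.1.1)) = Phi (mor P (r z.2.1)) := by
      rw [← pmap_eq hF' h.toMorphism a1.1 a2, ← pmap_eq hF' h.toMorphism b1.1 b2, hz]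
    obtain ⟨c, hc0, hc⟩ := Phi_inj (h.ne b1) (h.ne a1) e1.symm
    have hm := h.mem _ a1
    obtain ⟨d, hd⟩ := (k1 hm b1).1 ⟨c, hc⟩
    obtain ⟨d', hd'⟩ := (k2 hm a1).1 ⟨1, (one_smul _ _).symm⟩
    have hd2 : r z.2.1 = d • s (mor P (r z.1.1)) := hd
    have hd2' : r z.1.1 = d' • s (mor P (r z.1.1)) := hd'
    have hd0 : d ≠ 0 := by
      rintro rfl
      rw [zero_smul] at hd2
      exact b1.1 hd2
    have hd0' : d' ≠ 0 := by
      rintro rfl
      rw [zero_smul] at hd2'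
      exact a1.1 hd2'
    apply Subtype.ext
    rw [a2, b2]
    generalize s (mor P (r z.1.1)) = w at hd2 hd2'
    rw [hd2, hd2', Phi_smul hd0, Phi_smul hd0']
  obtain ⟨U, hU, h3⟩ := eventually_prod_self_iff'.1 h2
  exact ⟨U, hU, fun a ha b hb hab => h3 a ha b hb hab⟩

theorem Covering.localHomeo (hF : ∀ i, IsForm (F i)) (hF' : ∀ i, IsForm (F' i))
    (h : Covering F' F P) : IsLocalHomeomorph (pmap hF' h.toMorphism) := by
  rw [isLocalHomeomorph_iff_isOpenEmbedding_restrict]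
  intro M0
  obtain ⟨U, hU, hinj⟩ := h.inj hF' M0
  obtain ⟨V, hVU, hV, hMV⟩ := _root_.mem_nhds_iff.1 hU
  refine ⟨V, hV.mem_nhds hMV, ?_⟩
  apply IsOpenEmbedding.of_continuous_injective_isOpenMap
  · exact (pmap_cont hF' h.toMorphism).comp continuous_subtype_val
  · intro a b hab
    exact Subtype.ext (hinj (hVU a.2) (hVU b.2) hab)
  · have h1 : IsOpenMap (pmap hF' h.toMorphism) :=
      IsOpenMap.of_nhds_le fun a => h.nhds_le hF hF' a
    exact h1.domRestrict hV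

theorem Covering.covering (hF : ∀ i, IsForm (F i)) (hF' : ∀ i, IsForm (F' i))
    (h : Covering F' F P) : IsCoveringMap (pmap hF' h.toMorphism) := by
  have : CompactSpace (Pts F') := isCompact_iff_compactSpace.1 (isCompact_TF hF')
  rw [← isLocalHomeomorph_iff_isCoveringMap]
  exact h.localHomeo hF hF'

theorem Pmap_PM {X : Set (Fin (n + 1) → ℂ)} (hX : Conic X) (M : TS X) : M.1 ∈ PM := TS_PM hX M.2

/-- **Lifting of entire curves.** -/
theorem Covering.lift (hF : ∀ i, IsForm (F i)) (hF' : ∀ i, IsForm (F' i))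
    (h : Covering F' F P) {f : ℂ → ℙ ℂ (Fin (n + 1) → ℂ)} (hf : CurveIn (Cone F) f) :
    ∃ f', CurveIn (Cone F') f' ∧ ∀ z, f z = img P (f' z) := by
  obtain ⟨e, he⟩ := h.deg
  have hcov := h.covering hF hF'
  have hfP := holP_of hf.1
  have hfc : Continuous fun z => (⟨Phi (f z).rep, mem_TS (hf.2 z)⟩ : Pts F) := by
    apply continuous_induced_rng.2
    rw [continuous_iff_continuousAt]
    exact fun z => hfP.continuousAt (Set.mem_univ z)
  obtain ⟨x0, hx0, c0, hc0⟩ := h.surj _ (hf.2 0)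
  have hc00 : c0 ≠ 0 := by
    rintro rfl
    rw [zero_smul] at hc0
    exact (f 0).rep_nonzero hc0
  set e0 : Pts F' := ⟨Phi x0, x0, hx0, rfl⟩ with he0
  have hbase : pmap hF' h.toMorphism e0 = ⟨Phi (f 0).rep, mem_TS (hf.2 0)⟩ := by
    apply Subtype.ext
    rw [pmap_eq hF' h.toMorphism hx0.1 rfl]
    change Phi (mor P x0) = Phi (f 0).rep
    rw [hc0, Phi_smul hc00]
  obtain ⟨Fl, ⟨-, hFl⟩, -⟩ := hcov.existsUnique_continuousMap_lifts ⟨_, hfc⟩ (0 : ℂ) e0 hbase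
  have hlift : ∀ z, (pmap hF' h.toMorphism (Fl z)).1 = Phi (f z).rep := by
    intro z
    have h1 := congrFun hFl z
    exact congrArg Subtype.val h1
  have hol : HolP Set.univ fun z => (Fl z).1 := by
    intro z0 _
    obtain ⟨V, g, hV, hzV, hg, hfg⟩ := hf.1 z0
    obtain ⟨x1, hx1, hM⟩ := (Fl z0).2
    have hM' : (Fl z0).1 = Phi x1 := hM
    obtain ⟨s, hs, hs0, hs1, hs2⟩ := h.base hF' hx1
    have hgf : ∀ w ∈ V, g w ≠ 0 ∧ Phi (f w).rep = Phi (g w) := by
      intro w hw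
      obtain ⟨h0, h2⟩ := hfg w hw
      exact ⟨h0, by rw [h2, Phi_rep_mk]⟩
    obtain ⟨c, hc, hcg⟩ := Phi_inj (hgf z0 hzV).1 (h.ne hx1) (by
      rw [← (hgf z0 hzV).2, ← hlift z0, pmap_eq hF' h.toMorphism hx1.1 hM'])
    have hgd : DifferentiableOn ℂ (fun w => c • g w) V := hg.const_smul c
    have hgc : ContinuousAt (fun w => c • g w) z0 := (hgd.continuousOn).continuousAt
      (hV.mem_nhds hzV)
    have hgc' : Tendsto (fun w => c • g w) (𝓝 z0) (𝓝 (mor P x1)) := by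
      have := hgc.tendsto
      rwa [← hcg] at this
    obtain ⟨r, hr, hr0, hre⟩ := exists_coord (cone_conic hF') hx1
    have hFc : Tendsto (fun w => (Fl w).1) (𝓝 z0) (𝓝 (Phi x1)) := by
      have h1 := (continuous_subtype_val.comp Fl.continuous).tendsto z0
      change Tendsto (fun w => (Fl w).1) (𝓝 z0) (𝓝 (Fl z0).1) at h1
      rwa [hM'] at h1
    have hrF : Tendsto (fun w => r (Fl w).1) (𝓝 z0) (𝓝 x1) := by
      have h1 := hr.tendsto
      rw [hr0] at h1
      exact h1.comp hFc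
    have hpair : Tendsto (fun w => (c • g w, r (Fl w).1)) (𝓝 z0) (𝓝 (mor P x1, x1)) :=
      hgc'.prodMk_nhds hrF
    have hsan : ∀ᶠ w in 𝓝 z0, AnalyticAt ℂ s (c • g w) :=
      hgc'.eventually hs.eventually_analyticAt
    have hev : ∀ᶠ w in 𝓝 z0, w ∈ V ∧ AnalyticAt ℂ s (c • g w) ∧ s (c • g w) ≠ 0 ∧
        (Fl w).1 = Phi (s (c • g w)) := by
      filter_upwards [hV.mem_nhds hzV, hsan, hgc'.eventually hs1, hpair.eventually hs2,
        hFc.eventually hre] with w hw k1 k2 k3 k4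
      obtain ⟨a1, a2⟩ := k4 (Fl w).2
      have hfw : c • g w ∈ Cone F := by
        obtain ⟨d, hd, hdg⟩ := Phi_inj (f w).rep_nonzero (hgf w hw).1 (hgf w hw).2
        rw [hdg, smul_smul]
        exact (cone_conic hF _ (hf.2 w)).2 _ (mul_ne_zero hc hd)
      have h1 := hlift w
      rw [pmap_eq hF' h.toMorphism a1.1 a2, (hgf w hw).2] at h1
      obtain ⟨d, hd, hdg⟩ := Phi_inj (h.ne a1) (hgf w hw).1 h1
      obtain ⟨d', hd'⟩ := (k3 hfw a1).1 ⟨c * d, by
        rw [hdg, smul_smul]⟩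
      have hd2 : r (Fl w).1 = d' • s (c • g w) := hd'
      have hd0 : d' ≠ 0 := by
        rintro rfl
        rw [zero_smul] at hd2
        exact a1.1 hd2
      refine ⟨hw, k1, fun h0 => ?_, ?_⟩
      · rw [h0, smul_zero] at hd2
        exact a1.1 hd2
      · rw [a2, hd2, Phi_smul hd0]
    obtain ⟨W, hWs, hW, hzW⟩ := _root_.mem_nhds_iff.1 hev
    refine ⟨W, fun w => s (c • g w), hW, hzW, fun w hw => ?_, fun w hw => ?_⟩
    · obtain ⟨k1, k2, -, -⟩ := hWs hw
      have h1 : DifferentiableAt ℂ (fun w => c • g w) w :=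
        (hgd w k1).differentiableAt (hV.mem_nhds k1)
      exact (DifferentiableAt.comp (g := s) w k2.differentiableAt h1).differentiableWithinAt
    · obtain ⟨-, -, k3, k4⟩ := hWs hw
      exact ⟨k3, k4⟩
  refine ⟨fun z => toProj (Fl z).1, ⟨holMap_of hol, fun z => rep_toProj (cone_conic hF') (Fl z).2⟩,
    fun z => ?_⟩
  apply proj_ext
  rw [Phi_img (h.ne (rep_toProj (cone_conic hF') (Fl z).2)), ← hlift z]
  rfl

/-- the image of a nonconstant curve is not constant -/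
theorem Covering.nonconst (hF : ∀ i, IsForm (F i)) (hF' : ∀ i, IsForm (F' i))
    (h : Covering F' F P) {f : ℂ → ℙ ℂ (Fin (n' + 1) → ℂ)} (hf : CurveIn (Cone F') f)
    (hne : ¬ IsConst f) : ¬ IsConst fun z => img P (f z) := by
  intro hc
  apply hne
  have hcov := h.covering hF hF'
  have hfP := holP_of hf.1
  have hfc : Continuous fun z => (⟨Phi (f z).rep, mem_TS (hf.2 z)⟩ : Pts F') := by
    apply continuous_induced_rng.2
    rw [continuous_iff_continuousAt]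
    exact fun z => hfP.continuousAt (Set.mem_univ z)
  intro z w
  have h1 := hcov.const_of_comp hfc (fun a b => by
    apply Subtype.ext
    rw [pmap_eq hF' h.toMorphism (f a).rep_nonzero rfl, pmap_eq hF' h.toMorphism
      (f b).rep_nonzero rfl, ← Phi_img (h.ne (hf.2 a)), ← Phi_img (h.ne (hf.2 b))]
    exact congrArg (fun p : ℙ ℂ (Fin (n + 1) → ℂ) => Phi p.rep) (hc a b)) z w
  exact proj_ext (congrArg Subtype.val h1)

end Pool.Agent.L7h90.GL
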