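import Pool.Agent.N155.L.SDefs
import Pool.Agent.N155.Der
import Pool.Agent.N155.Crv

/-! Extensions of derivations, and products of exact differentials. -/

set_option autoImplicit false

open Pool.Agent.W602.GT Pool.Agent.TH143.GT

namespace Pool.Agent.L7h90.GL

open Pool.Agent.N155 (SymD)

section ext

variable {A B : Type} [Field A] [Algebra ℂ A] [Field B] [Algebra ℂ B] [Algebra A B]
  [IsScalarTower ℂ A B] [Algebra.IsAlgebraic A B]

/-- derivations extend to algebraic extensions -/
theorem exists_ext (D : Derivation ℂ A A) :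
    ∃ D' : Derivation ℂ B B, ∀ a, D' (algebraMap A B a) = algebraMap A B (D a) := by
  obtain ⟨s, hs⟩ := exists_isTranscendenceBasis ℂ A
  have h2 : IsTranscendenceBasis ℂ (fun i : s => algebraMap A B i) := hs.algebraMap_comp
  obtain ⟨D', hD'⟩ := exists_der _ h2 (fun i => algebraMap A B (D i))
  exact ⟨D', fun a => Pool.Agent.W619.TW.der_comp D D' _ hs hD' a⟩

/-- the constants of algebraic extensions -/
theorem const_ext {D : Derivation ℂ A A} (hD : ∀ a, D a = 0 → ∃ c : ℂ, a = algebraMap ℂ A c)
    {D' : Derivation ℂ B B} (h : ∀ a, D' (algebraMap A B a) = algebraMap A B (D a)) {b : B}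
    (hb : D' b = 0) : ∃ c : ℂ, b = algebraMap ℂ B c := by
  have hint : IsIntegral A b := (Algebra.IsAlgebraic.isAlgebraic b).isIntegral
  set p := minpoly A b with hp
  set q : Polynomial A := ∑ i ∈ Finset.range p.natDegree, Polynomial.monomial i (D (p.coeff i))
    with hq
  have hpow : ∀ i : ℕ, D' (b ^ i) = 0 := by
    intro i
    rw [Derivation.leibniz_pow, hb, smul_zero, smul_zero]
  have h1 : Polynomial.aeval b q = 0 := by
    have h2 : D' (Polynomial.aeval b p) = 0 := by rw [hp, minpoly.aeval, map_zero]
    rw [Polynomial.aeval_eq_sum_range, map_sum, Finset.sum_range_succ] at h2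
    have h3 : D' (p.coeff p.natDegree • b ^ p.natDegree) = 0 := by
      have h4 : p.coeff p.natDegree = 1 := (minpoly.monic hint).leadingCoeff
      rw [h4, one_smul, hpow]
    rw [h3, add_zero] at h2
    rw [hq, map_sum, ← h2]
    refine Finset.sum_congr rfl fun i _ => ?_
    rw [Polynomial.aeval_monomial, Algebra.smul_def, D'.leibniz, hpow, smul_zero, zero_add, h,
      smul_eq_mul, mul_comm]
  have hq0 : q = 0 := by
    by_contra hne
    have h2 := Polynomial.natDegree_le_natDegree (minpoly.degree_le_of_ne_zero A b hne h1)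
    rw [← hp] at h2
    have hpos : 0 < p.natDegree := minpoly.natDegree_pos hint
    have h3 : q.natDegree < p.natDegree := by
      refine lt_of_le_of_lt (Polynomial.natDegree_sum_le_of_forall_le _ _
        (n := p.natDegree - 1) fun i hi => ?_) (by omega)
      exact (Polynomial.natDegree_monomial_le _).trans (by
        have := Finset.mem_range.1 hi
        omega)
    omega
  have hcoef : ∀ i, ∃ c : ℂ, p.coeff i = algebraMap ℂ A c := by
    intro i
    rcases lt_trichotomy i p.natDegree with hi | hi | hi
    · apply hD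
      have h2 := congrArg (fun r : Polynomial A => r.coeff i) hq0
      simp only [hq, Polynomial.finsetSum_coeff, Polynomial.coeff_monomial, Polynomial.coeff_zero]
        at h2
      rw [Finset.sum_eq_single i] at h2
      · simpa using h2
      · intro j _ hj
        rw [if_neg hj]
      · intro hi'
        exact absurd (Finset.mem_range.2 hi) hi'
    · refine ⟨1, ?_⟩
      rw [hi, map_one]
      exact (minpoly.monic hint).leadingCoeff
    · refine ⟨0, ?_⟩
      rw [map_zero]
      exact Polynomial.coeff_eq_zero_of_natDegree_lt hi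
  have hlift : p ∈ Polynomial.lifts (algebraMap ℂ A) := by
    rw [Polynomial.lifts_iff_coeff_lifts]
    intro i
    obtain ⟨c, hc⟩ := hcoef i
    exact ⟨c, hc.symm⟩
  obtain ⟨p0, hp0⟩ := (Polynomial.mem_lifts _).1 hlift
  have halg : IsAlgebraic ℂ b := by
    refine ⟨p0, ?_, ?_⟩
    · rintro rfl
      rw [Polynomial.map_zero] at hp0
      exact minpoly.ne_zero hint hp0.symm
    · have h2 : Polynomial.aeval b p = 0 := minpoly.aeval A b
      rw [← hp0, Polynomial.aeval_map_algebraMap] at h2
      exact h2
  exact const_of_algebraic halg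

end ext

variable {K : Type} [Field K] [Algebra ℂ K]

/-- The symmetric differential `σ` of `K`, on the extension `M` of `K`. -/
def onExt (M : Type) [Field M] [Algebra K M] (σ : SymD K) : SymD M where
  d := σ.d
  r := σ.r
  h := fun j => algebraMap K M (σ.h j)
  f := fun j l => algebraMap K M (σ.f j l)

/-- The ideal which the regular symmetric differentials of positive degree of `K` generate in the
algebra of the symmetric differentials of some algebraic extension `M` of `K` contains a nonzero
product of exact differentials: `∑ i, ρ i * σ i = h * da 1 ⋯ da d` on `M`, with regular `σ i`,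
`h ≠ 0`, and nonconstant `a l`. -/
def ExactProduct (K : Type) [Field K] [Algebra ℂ K] : Prop :=
  ∃ (M : Type) (_ : Field M) (_ : Algebra ℂ M) (_ : Algebra K M) (_ : IsScalarTower ℂ K M)
    (r d : ℕ) (σ : Fin r → SymD K) (ρ : Fin r → SymD M) (h : M) (a : Fin d → M),
    Algebra.IsAlgebraic K M ∧ (∀ i, 0 < (σ i).d ∧ (σ i).Regular 2) ∧ h ≠ 0 ∧
    (∀ l, Transcendental ℂ (a l)) ∧
    ∀ D : Derivation ℂ M M, ∑ i, (ρ i).val D * (onExt M (σ i)).val D = h * ∏ l, D (a l)

section poly

variable {M : Type} [Field M] [Algebra ℂ M] {w : ℕ} (E : Fin w → Derivation ℂ M M)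

/-- the differential of `f` as a linear form -/
noncomputable def lin (f : M) : MvPolynomial (Fin w) M :=
  ∑ i, MvPolynomial.C (E i f) * MvPolynomial.X i

/-- the symmetric differential as a form -/
noncomputable def pol (ρ : SymD M) : MvPolynomial (Fin w) M :=
  ∑ j, MvPolynomial.C (ρ.h j) * ∏ l, lin E (ρ.f j l)

theorem eval_lin (c : Fin w → M) (f : M) :
    MvPolynomial.eval c (lin E f) = (∑ i, c i • E i) f := by
  rw [der_sum]
  unfold lin
  rw [map_sum]
  refine Finset.sum_congr rfl fun i _ => ?_
  rw [map_mul, MvPolynomial.eval_C, MvPolynomial.eval_X, smul_eq_mul, mul_comm]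

theorem eval_pol (c : Fin w → M) (ρ : SymD M) :
    MvPolynomial.eval c (pol E ρ) = ρ.val (∑ i, c i • E i) := by
  unfold pol SymD.val
  rw [map_sum]
  refine Finset.sum_congr rfl fun j _ => ?_
  rw [map_mul, MvPolynomial.eval_C, map_prod]
  simp only [eval_lin]

variable {E} {B : Type} [Field B] [Algebra ℂ B] [Algebra M B] [IsScalarTower ℂ M B]

theorem aeval_lin {x : Fin w → M} (hx : Dual x E) (D : Derivation ℂ B B) (f : M) :
    MvPolynomial.aeval (fun i => D (algebraMap M B (x i))) (lin E f) =
      D (algebraMap M B f) := by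
  rw [hx.chain D f]
  unfold lin
  rw [map_sum]
  refine Finset.sum_congr rfl fun i _ => ?_
  rw [map_mul, MvPolynomial.aeval_C, MvPolynomial.aeval_X, mul_comm]

theorem aeval_pol {x : Fin w → M} (hx : Dual x E) (D : Derivation ℂ B B) (ρ : SymD M) :
    MvPolynomial.aeval (fun i => D (algebraMap M B (x i))) (pol E ρ) =
      ρ.app (D.compAlgebraMap M) := by
  unfold pol SymD.app
  rw [map_sum]
  refine Finset.sum_congr rfl fun j _ => ?_
  rw [map_mul, MvPolynomial.aeval_C, map_prod]
  congr 1
  refine Finset.prod_congr rfl fun l _ => ?_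
  exact aeval_lin hx D _

/-- identities of symmetric differentials hold for derivations with values in extensions -/
theorem id_transfer (htr : Algebra.trdeg ℂ M = w) {r d : ℕ} {ρ τ : Fin r → SymD M} {h : M}
    {a : Fin d → M}
    (hid : ∀ D : Derivation ℂ M M, ∑ i, (ρ i).val D * (τ i).val D = h * ∏ l, D (a l))
    (D : Derivation ℂ B B) :
    ∑ i, (ρ i).app (D.compAlgebraMap M) * (τ i).app (D.compAlgebraMap M) =
      algebraMap M B h * ∏ l, D (algebraMap M B (a l)) := by
  obtain ⟨x, hx⟩ := basis_of_trdeg htr
  obtain ⟨E, hE⟩ := exists_dual hx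
  have hdual : Dual x E := by
    refine ⟨hx, fun i j => ?_⟩
    have := congrFun (congrFun hE i) j
    rw [Matrix.of_apply, Matrix.one_apply] at this
    exact this
  have : CharZero M := charZero_of_injective_algebraMap (algebraMap ℂ M).injective
  have key : ∑ i, pol E (ρ i) * pol E (τ i) = MvPolynomial.C h * ∏ l, lin E (a l) := by
    apply MvPolynomial.funext
    intro c
    simp only [map_sum, map_mul, map_prod, MvPolynomial.eval_C, eval_pol, eval_lin]
    exact hid _
  have h2 := congrArg (MvPolynomial.aeval fun i => D (algebraMap M B (x i))) key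
  simp only [map_sum, map_mul, map_prod, MvPolynomial.aeval_C, aeval_pol hdual,
    aeval_lin hdual] at h2
  exact h2

end poly

/-- products of exact differentials do not vanish on differential fields -/
theorem exact_web {w : ℕ} (htr : Algebra.trdeg ℂ K = w) (hK : ExactProduct K) {A : Type} [Field A]
    [Algebra ℂ A] [Algebra K A] [IsScalarTower ℂ K A] (D : Derivation ℂ A A)
    (hD : ∀ a, D a = 0 → ∃ c : ℂ, a = algebraMap ℂ A c) :
    ∃ σ : SymD K, 0 < σ.d ∧ σ.Regular 2 ∧ σ.app (D.compAlgebraMap K) ≠ 0 := by
  by_contra hcon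
  push Not at hcon
  obtain ⟨M, _, _, _, _, r, d, σ, ρ, h, a, halg, hσ, hh, ha, hid⟩ := hK
  let B := AlgebraicClosure A
  let j : M →ₐ[K] B := IsAlgClosed.lift
  let _ : Algebra M B := j.toRingHom.toAlgebra
  have hjK : ∀ k : K, algebraMap M B (algebraMap K M k) = algebraMap A B (algebraMap K A k) := by
    intro k
    have h1 : j (algebraMap K M k) = algebraMap K B k := j.commutes k
    rw [← IsScalarTower.algebraMap_apply K A B]
    exact h1
  have : IsScalarTower ℂ M B := IsScalarTower.of_algebraMap_eq fun c => by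
    rw [IsScalarTower.algebraMap_apply ℂ K M, hjK, ← IsScalarTower.algebraMap_apply ℂ K A,
      ← IsScalarTower.algebraMap_apply ℂ A B]
  obtain ⟨D', hD'⟩ := exists_ext (A := A) (B := B) D
  have htrM : Algebra.trdeg ℂ M = w := by
    have h0 : Algebra.trdeg ℂ K + Algebra.trdeg K M = Algebra.trdeg ℂ M := _root_.trdeg_add_eq ℂ K
    rw [_root_.trdeg_eq_zero (R := K) (A := M), add_zero, htr] at h0
    exact h0.symm
  have h1 := id_transfer (B := B) htrM hid D'
  have h2 : ∀ i, (onExt M (σ i)).app (D'.compAlgebraMap M) = 0 := by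
    intro i
    have h3 := hcon (σ i) (hσ i).1 (hσ i).2
    have h4 : (onExt M (σ i)).app (D'.compAlgebraMap M) =
        algebraMap A B ((σ i).app (D.compAlgebraMap K)) := by
      unfold SymD.app
      rw [map_sum]
      refine Finset.sum_congr rfl fun l _ => ?_
      rw [map_mul, map_prod]
      refine congrArg₂ (· * ·) (hjK _) (Finset.prod_congr rfl fun t _ => ?_)
      change D' (algebraMap M B (algebraMap K M ((σ i).f l t))) = _
      rw [hjK, hD']
      rfl
    rw [h4, h3, map_zero]
  simp only [h2, mul_zero, Finset.sum_const_zero] at h1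
  rcases mul_eq_zero.1 h1.symm with h3 | h3
  · exact hh ((map_eq_zero _).1 h3)
  · obtain ⟨l, -, hl⟩ := Finset.prod_eq_zero_iff.1 h3
    obtain ⟨c, hc⟩ := const_ext hD hD' hl
    apply ha l
    have h4 : a l = algebraMap ℂ M c := by
      apply (algebraMap M B).injective
      rw [hc, ← IsScalarTower.algebraMap_apply]
    rw [h4]
    exact isAlgebraic_algebraMap _

end Pool.Agent.L7h90.GL
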