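import Pool.Agent.Q111.SF.Cls
import Pool.Agent.TH466.QG.Equiv
import Pool.Agent.Q96.OS.Gen
import Pool.Agent.Q103.SF.Disc

/-!
# Surfaces without elliptic curves

The elliptic part is that of `Pool/Agent/Q103/SF/Ell.lean`, with fewer imports.
-/

set_option autoImplicit false
set_option linter.overlappingInstances false
set_option linter.unusedSectionVars false

namespace Pool.Agent.L7h90.GL

open FF IntermediateField
open Pool.Agent.W602.GT
open Pool.Agent.W603.LV (canDeg)
open Pool.Agent.Q271.RC (IsGeneric IsPoint)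

/-- `E` is the function field of an elliptic curve, given by a Weierstrass equation. -/
def IsElliptic (E : Type) [Field E] [Algebra ℂ E] : Prop :=
  ∃ (a b : ℂ) (x y : E), 4 * a ^ 3 + 27 * b ^ 2 ≠ 0 ∧ Transcendental ℂ x ∧
    y ^ 2 = x ^ 3 + algebraMap ℂ E a * x + algebraMap ℂ E b ∧ IntermediateField.adjoin ℂ {x, y} = ⊤

theorem top_of {E : Type} [Field E] [Algebra ℂ E] {x y : E} (F : IntermediateField ℂ E) (hx : x ∈ F)
    (hgen : adjoin ℂ ({x, y} : Set E) = ⊤) : adjoin F ({y} : Set E) = ⊤ := by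
  rw [eq_top_iff]
  intro z _
  have hz : z ∈ adjoin ℂ ({x, y} : Set E) := by rw [hgen]; exact mem_top
  have hle : adjoin ℂ ({x, y} : Set E) ≤ (adjoin F ({y} : Set E)).restrictScalars ℂ := by
    rw [adjoin_le_iff]
    intro w hw
    rw [SetLike.mem_coe, mem_restrictScalars]
    rcases hw with rfl | hw
    · have h1 := (adjoin F ({y} : Set E)).algebraMap_mem ⟨w, hx⟩
      exact h1
    · rw [Set.mem_singleton_iff] at hw
      rw [hw]
      exact subset_adjoin _ _ rfl
  exact hle hz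

theorem isFF_of_sq {E : Type} [Field E] [Algebra ℂ E] {x y : E} (hx : Transcendental ℂ x) {a b : ℂ}
    (hy : y ^ 2 = x ^ 3 + algebraMap ℂ E a * x + algebraMap ℂ E b)
    (hgen : adjoin ℂ ({x, y} : Set E) = ⊤) : IsFF ℂ E := by
  refine IsFF.of_finite hx ?_
  obtain ⟨F, hF⟩ : ∃ F, F = adjoin ℂ ({x} : Set E) := ⟨_, rfl⟩
  rw [← hF]
  have hxF : x ∈ F := by rw [hF]; exact subset_adjoin ℂ _ rfl
  have hint : IsIntegral F y := by
    have h2 : y ^ 2 ∈ F := by
      rw [hy]
      exact add_mem (add_mem (pow_mem hxF 3) (mul_mem (IntermediateField.algebraMap_mem _ a) hxF))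
        (IntermediateField.algebraMap_mem _ b)
    have h1 : IsIntegral F (y ^ 2) := isIntegral_algebraMap (R := F) (A := E) (x := ⟨y ^ 2, h2⟩)
    exact IsIntegral.of_pow two_pos h1
  have hfin := adjoin.finiteDimensional hint
  rw [top_of F hxF hgen] at hfin
  exact (topEquiv (F := F) (E := E)).toLinearEquiv.finiteDimensional

theorem adjoin_self_top {Ω : Type} [Field Ω] [Algebra ℂ Ω] {x y : Ω} (E : IntermediateField ℂ Ω)
    (hE : E = adjoin ℂ {x, y}) (hx : x ∈ E) (hy : y ∈ E) :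
    adjoin ℂ ({⟨x, hx⟩, ⟨y, hy⟩} : Set E) = ⊤ := by
  have h1 : (adjoin ℂ ({⟨x, hx⟩, ⟨y, hy⟩} : Set E)).map E.val =
      (⊤ : IntermediateField ℂ E).map E.val := by
    rw [adjoin_map]
    have h2 : (E.val '' {⟨x, hx⟩, ⟨y, hy⟩} : Set Ω) = {x, y} := by
      rw [Set.image_pair]
      rfl
    rw [h2, ← hE]
    apply le_antisymm
    · intro z hz
      exact ⟨⟨z, hz⟩, trivial, rfl⟩
    · rintro z ⟨w, -, rfl⟩
      exact w.2
  exact map_injective E.val h1

/-- a field generated by a point of an elliptic curve -/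
theorem ell_of_gen {Ω : Type} [Field Ω] [Algebra ℂ Ω] {τ y : Ω} (ht : Transcendental ℂ τ) {a b : ℂ}
    (hab : 4 * a ^ 3 + 27 * b ^ 2 ≠ 0)
    (hy : y ^ 2 = τ ^ 3 + algebraMap ℂ Ω a * τ + algebraMap ℂ Ω b)
    (E : IntermediateField ℂ Ω) (hE : E = adjoin ℂ {τ, y}) : IsFF ℂ E ∧ IsElliptic E := by
  have hτ : τ ∈ E := by rw [hE]; exact subset_adjoin ℂ _ (by simp)
  have hyE : y ∈ E := by rw [hE]; exact subset_adjoin ℂ _ (by simp)
  have hgen := adjoin_self_top E hE hτ hyE
  have hy' : (⟨y, hyE⟩ : E) ^ 2 = (⟨τ, hτ⟩ : E) ^ 3 + algebraMap ℂ E a * (⟨τ, hτ⟩ : E) +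
      algebraMap ℂ E b := by
    apply E.val.injective
    simp only [map_pow, map_add, map_mul]
    exact hy
  have ht' : Transcendental ℂ (⟨τ, hτ⟩ : E) := by
    intro h
    exact ht (IsAlgebraic.algHom E.val h)
  exact ⟨isFF_of_sq ht' hy' hgen, a, b, _, _, hab, ht', hy', hgen⟩

/-- **Curves of genus `≤ 1` are images of elliptic curves.** -/
theorem exists_ell {L : Type} [Field L] [Algebra ℂ L] [IsFF ℂ L] (h : canDeg ℂ L ≤ 0) :
    ∃ (E : Type) (_ : Field E) (_ : Algebra ℂ E) (_ : IsFF ℂ E) (_ : L →ₐ[ℂ] E),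
      IsElliptic E := by
  rcases Pool.Agent.Q111.SF.cls L h with ⟨t, ht⟩ | ⟨a, b, x, y, hab, hy, hgen⟩
  · have htt : Transcendental ℂ t := by
      intro halg
      obtain ⟨f, hf⟩ := IsFF.exists_transcendental (k := ℂ) (K := L)
      have hfm : f ∈ adjoin ℂ ({t} : Set L) := by rw [ht]; exact mem_top
      have h0 := isAlgebraic_adjoin_simple (K := ℂ) halg.isIntegral
      exact hf (IsAlgebraic.algHom (adjoin ℂ ({t} : Set L)).val (h0.isAlgebraic ⟨f, hfm⟩))
    let Ω := AlgebraicClosure L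
    let τ : Ω := algebraMap L Ω t
    have hτ : Transcendental ℂ τ := by
      intro h1
      exact htt ((isAlgebraic_algebraMap_iff (algebraMap L Ω).injective).1 h1)
    obtain ⟨y, hy⟩ := IsAlgClosed.exists_pow_nat_eq (τ ^ 3 + algebraMap ℂ Ω 0 * τ + algebraMap ℂ Ω 1)
      two_pos
    obtain ⟨h1, h2⟩ := ell_of_gen (a := 0) (b := 1) hτ (by norm_num) hy _ rfl
    have hle : ∀ l : L, algebraMap L Ω l ∈ (adjoin ℂ {τ, y} : IntermediateField ℂ Ω) := by
      intro l
      have hl : l ∈ adjoin ℂ ({t} : Set L) := by rw [ht]; exact mem_top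
      have h3 : algebraMap L Ω l ∈ (adjoin ℂ ({t} : Set L)).map (IsScalarTower.toAlgHom ℂ L Ω) :=
        ⟨l, hl, rfl⟩
      rw [adjoin_map, Set.image_singleton] at h3
      exact adjoin.mono ℂ _ _ (by
        intro z hz
        left
        exact hz) h3
    exact ⟨(adjoin ℂ {τ, y} : IntermediateField ℂ Ω), inferInstance, inferInstance, h1,
      (IsScalarTower.toAlgHom ℂ L Ω).codRestrict
        (adjoin ℂ {τ, y} : IntermediateField ℂ Ω).toSubalgebra hle, h2⟩
  · refine ⟨L, inferInstance, inferInstance, inferInstance, AlgHom.id ℂ L, a, b, x, y, hab, ?_, hy,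
      hgen⟩
    intro halg
    have hy2 : IsAlgebraic ℂ (y ^ 2) := by
      rw [hy]
      exact ((halg.pow 3).add ((isAlgebraic_algebraMap a).mul halg)).add (isAlgebraic_algebraMap b)
    have hya : IsAlgebraic ℂ y := hy2.of_pow two_pos
    obtain ⟨f, hf⟩ := IsFF.exists_transcendental (k := ℂ) (K := L)
    have h1 : Algebra.IsAlgebraic ℂ (adjoin ℂ ({x, y} : Set L)) := by
      refine isAlgebraic_adjoin ?_
      rintro z (rfl | hz)
      · exact halg.isIntegral
      · rw [Set.mem_singleton_iff] at hz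
        rw [hz]
        exact hya.isIntegral
    have hfm : f ∈ adjoin ℂ ({x, y} : Set L) := by rw [hgen]; exact mem_top
    exact hf (IsAlgebraic.algHom (adjoin ℂ ({x, y} : Set L)).val (h1.isAlgebraic ⟨f, hfm⟩))


end Pool.Agent.L7h90.GL
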