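import Pool.Agent.L7h90.GL.Cons

/-! The section given by a twisted pluricanonical form. -/

set_option autoImplicit false

open Filter Topology Set Metric MvPolynomial FF

namespace Pool.Agent.L7h90.GL

open Pool.Agent.N155 Pool.Agent.Y190.OP Pool.Agent.W602.GT Pool.Agent.TH143.GT

variable {n : ℕ} {K : Type} [Field K] [Algebra ℂ K] {y : Fin (n + 1) → K}
  {A : (Fin 2 → Derivation ℂ K K) → K} {o : Fin (n + 1)} {N : ℕ}

/-- the section -/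
theorem exists_eta (N : ℕ) (hex : ∀ x ∈ VarPts ℂ y, ∃ ρ : Rp y A o, ρ.At x) :
    ∃ η : (Fin (n + 1) → ℂ) → (Fin (n + 1) → ℂ) → (Fin (n + 1) → ℂ) → ℂ,
      (∀ x ∈ VarPts ℂ y, ∃ ρ : Rp y A o, ρ.At x ∧ ∀ v w, η x v w = ρ.V N x v w) ∧
      ∀ x ∈ VarPts ℂ y, ∀ (v w : Fin (n + 1) → ℂ) (c e f : ℂ), c ≠ 0 →
        η (c • x) (c • (v + e • x)) (c • (w + f • x)) = c⁻¹ * η x v w := by
  classical
  have h1 : ∀ M : Mat (n + 1), ∃ ρ : (∃ x ∈ VarPts ℂ y, Phi x = M) → Rp y A o,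
      ∀ (h : ∃ x ∈ VarPts ℂ y, Phi x = M), ∀ x ∈ VarPts ℂ y, Phi x = M → (ρ h).At x := by
    intro M
    by_cases h : ∃ x ∈ VarPts ℂ y, Phi x = M
    · obtain ⟨x0, hx0, hM⟩ := h
      obtain ⟨ρ, hρ⟩ := hex x0 hx0
      refine ⟨fun _ => ρ, fun _ x hx hxM => ?_⟩
      obtain ⟨c, hc, hc'⟩ := Phi_inj hx0.1 hx.1 (hM.trans hxM.symm)
      rw [hc']
      exact hρ.smul hc
    · exact ⟨fun h' => absurd h' h, fun h' => absurd h' h⟩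
  choose rp hrp using h1
  refine ⟨fun x v w => if h : x ∈ VarPts ℂ y then (rp (Phi x) ⟨x, h, rfl⟩).V N x v w else 0,
    fun x hx => ⟨rp (Phi x) ⟨x, hx, rfl⟩, hrp _ _ x hx rfl, fun v w => dif_pos hx⟩,
    fun x hx v w c e f hc => ?_⟩
  have hcx := VarPts_smul hx hc
  beta_reduce
  rw [dif_pos hx, dif_pos hcx]
  have h2 : ∀ (M : Mat (n + 1)) (hM : M = Phi x) (h : ∃ u ∈ VarPts ℂ y, Phi u = M),
      rp M h = rp (Phi x) ⟨x, hx, rfl⟩ := by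
    rintro _ rfl _
    rfl
  rw [h2 _ (Phi_smul hc x)]
  set ρ := rp (Phi x) ⟨x, hx, rfl⟩
  unfold Rp.V
  rw [pr_smul _ _ _ _ hc, det3_tw]
  have h3 : (c • x) ρ.i = c * x ρ.i := rfl
  rw [h3]
  have h4 : c ^ 3 * det3 ρ.i ρ.j ρ.k x v w / (c * x ρ.i) ^ 3 = det3 ρ.i ρ.j ρ.k x v w / x ρ.i ^ 3 := by
    rw [mul_pow, mul_div_mul_left _ _ (pow_ne_zero _ hc)]
  rw [h4, mul_inv]
  ring

/-- tangent vectors of parametrisations -/
theorem Rp.At.tan {ρ : Rp y A o} {E' : Type} [NormedAddCommGroup E'] [NormedSpace ℂ E']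
    {Φ : E' → Fin (n + 1) → ℂ} {z : E'} (hΦ : DifferentiableAt ℂ Φ z)
    (hm : ∀ᶠ z' in 𝓝 z, Φ z' ∈ VarPts ℂ y) (h : ρ.At (Φ z)) (a : E') :
    ∃ u, ρ.Tan (Φ z) (fderiv ℂ Φ z a) u := by
  set g : ℂ → Fin (n + 1) → ℂ := fun t => Φ (z + t • a) with hg
  have hg0 : g 0 = Φ z := by
    simp only [hg, zero_smul, add_zero]
  have hl : HasDerivAt (fun t : ℂ => z + t • a) a 0 := by
    have := ((hasDerivAt_id (0 : ℂ)).smul_const a).const_add z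
    simpa using this
  have hgd : HasDerivAt g (fderiv ℂ Φ z a) 0 := by
    have h1 : HasFDerivAt Φ (fderiv ℂ Φ z) (z + (0 : ℂ) • a) := by
      rw [zero_smul, add_zero]
      exact hΦ.hasFDerivAt
    exact h1.comp_hasDerivAt (0 : ℂ) hl
  set V := fderiv ℂ Φ z a with hV
  have hgl : ∀ l, HasDerivAt (fun t => g t l) (V l) 0 := fun l => (hasDerivAt_pi.1 hgd) l
  have hi : g 0 ρ.i ≠ 0 := by rw [hg0]; exact h.ne
  set p := pr ρ.i ρ.j ρ.k (Φ z) with hp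
  have hpU : p ∈ ρ.U := h.mem
  have hp0 : pr ρ.i ρ.j ρ.k (g 0) = p := by rw [hg0]
  have hpd : HasDerivAt (fun t => pr ρ.i ρ.j ρ.k (g t))
      ((V ρ.j * g 0 ρ.i - g 0 ρ.j * V ρ.i) / g 0 ρ.i ^ 2,
        (V ρ.k * g 0 ρ.i - g 0 ρ.k * V ρ.i) / g 0 ρ.i ^ 2) 0 :=
    ((hgl ρ.j).div (hgl ρ.i) hi).prodMk ((hgl ρ.k).div (hgl ρ.i) hi)
  set u : ℂ × ℂ := ((V ρ.j * g 0 ρ.i - g 0 ρ.j * V ρ.i) / g 0 ρ.i ^ 2,
        (V ρ.k * g 0 ρ.i - g 0 ρ.k * V ρ.i) / g 0 ρ.i ^ 2) with hu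
  have hev : ∀ᶠ t in 𝓝 (0 : ℂ), g t ∈ VarPts ℂ y ∧ ρ.At (g t) := by
    have hc : Tendsto (fun t : ℂ => z + t • a) (𝓝 0) (𝓝 z) := by
      have := hl.continuousAt.tendsto
      rwa [zero_smul, add_zero] at this
    have hc' : Tendsto g (𝓝 0) (𝓝 (Φ z)) := by
      have := hgd.continuousAt.tendsto
      rwa [hg0] at this
    exact (hc.eventually hm).and (hc'.eventually h.ev)
  -- the components
  have hcomp : ∀ l, V l = V ρ.i * ρ.Ψ p l + Φ z ρ.i * (u.1 * ρ.ch.d1 p l + u.2 * ρ.ch.d2 p l) := by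
    intro l
    have e1 : (fun t => g t l) =ᶠ[𝓝 0] fun t => g t ρ.i * ext0 ρ.U (ρ.ch.psi l).1
        (pr ρ.i ρ.j ρ.k (g t)) := by
      filter_upwards [hev] with t ht
      have e2 := congrFun (ht.2.eq ht.1) l
      rw [ext0_apply _ ht.2.mem]
      exact e2
    have e3 : HasFDerivAt (ext0 ρ.U (ρ.ch.psi l).1) (fderiv ℂ (ext0 ρ.U (ρ.ch.psi l).1) p)
        (pr ρ.i ρ.j ρ.k (g 0)) := by
      rw [hp0]
      exact ((ρ.ch.psi l).2 p hpU).differentiableAt.hasFDerivAt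
    have e4 := (hgl ρ.i).mul (e3.comp_hasDerivAt (0 : ℂ) hpd)
    have e5 := (hgl l).unique (e4.congr_of_eventuallyEq e1)
    have e6 : fderiv ℂ (ext0 ρ.U (ρ.ch.psi l).1) p u = u.1 * ρ.ch.d1 p l + u.2 * ρ.ch.d2 p l := by
      have e7 : u = u.1 • ((1, 0) : ℂ × ℂ) + u.2 • ((0, 1) : ℂ × ℂ) := by
        apply Prod.ext <;> simp
      conv_lhs => rw [e7]
      rw [map_add, map_smul, map_smul, smul_eq_mul, smul_eq_mul]
      rfl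
    rw [e5]
    change V ρ.i * ext0 ρ.U (ρ.ch.psi l).1 (pr ρ.i ρ.j ρ.k (g 0)) + g 0 ρ.i *
      fderiv ℂ (ext0 ρ.U (ρ.ch.psi l).1) p u = _
    rw [hp0, e6, hg0, ext0_apply _ hpU]
    rfl
  refine ⟨u, V ρ.i / Φ z ρ.i, ?_⟩
  have hx := h.eq hm.self_of_nhds
  rw [← hp] at hx ⊢
  funext l
  have h2 : Φ z l = Φ z ρ.i * ρ.Ψ p l := by
    conv_lhs => rw [hx]
    rfl
  rw [hcomp l]
  simp only [Pi.add_apply, Pi.smul_apply, smul_eq_mul]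
  rw [h2]
  have h3 := h.ne
  field_simp

end Pool.Agent.L7h90.GL
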