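import Pool.Agent.L7h90.GL.Low
import Pool.Agent.N155.Defs

/-!
# Surfaces of general type without elliptic curves
-/

set_option autoImplicit false
set_option linter.overlappingInstances false
set_option linter.unusedSectionVars false

namespace Pool.Agent.L7h90.GL

open MvPolynomial FF Pool.Agent.W602.GT Pool.Agent.N155
open Pool.Agent.Q271.RC (IsPoint IsGeneric Nonconst)
open Pool.Agent.W603.LV (canDeg)

variable {n : ℕ} {ι : Type} {F : ι → MvPolynomial (Fin (n + 1)) ℂ} {K : Type} [Field K]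
  [Algebra ℂ K] {y : Fin (n + 1) → K}

/-- The equations of the generic point hold at all points of `X` (Nullstellensatz). -/
theorem isPoint_of_irred (hirr : Cone F ⊆ VarPts ℂ y) {L : Type} [Field L] [Algebra ℂ L]
    {v : Fin (n + 1) → L} (hv : ∀ i, val v (F i) = 0) (hv0 : v ≠ 0) : IsPoint y v := by
  intro G D hG hGy
  obtain ⟨j, hj⟩ := Function.ne_iff.1 hv0
  have h1 : G * X j ∈ (Ideal.span (Set.range F)).radical := by
    rw [← vanishingIdeal_zeroLocus_eq_radical (K := ℂ)]
    intro u hu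
    rw [map_mul, aeval_X]
    by_cases h0 : u j = 0
    · rw [h0, mul_zero]
    · have hu' : u ∈ Cone F := ⟨fun h => h0 (by rw [h]; rfl), fun i =>
        hu _ (Ideal.subset_span ⟨i, rfl⟩)⟩
      have h2 : aeval u G = 0 := (hirr hu').2 G ⟨D, hG⟩ hGy
      rw [h2, zero_mul]
  obtain ⟨m, hm⟩ := h1
  have h2 : aeval v ((G * X j) ^ m) = 0 := by
    have h3 : Ideal.span (Set.range F) ≤
        RingHom.ker (aeval v : MvPolynomial (Fin (n + 1)) ℂ →ₐ[ℂ] L) := by
      rw [Ideal.span_le]
      rintro _ ⟨i, rfl⟩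
      exact hv i
    exact h3 hm
  rw [map_pow, map_mul, aeval_X] at h2
  exact (mul_eq_zero.1 (eq_zero_of_pow_eq_zero h2)).resolve_right hj

/-- the closed subvarieties of a surface -/
theorem sub_cases (hy : SubVar F K 2 y) (hirr : Cone F ⊆ VarPts ℂ y) {L : Type} [Field L]
    [Algebra ℂ L] {w : ℕ} {v : Fin (n + 1) → L} (hw : 1 ≤ w) (hv : SubVar F L w v) :
    w = 1 ∨ w = 2 ∧ Nonempty (K ≃ₐ[ℂ] L) := by
  have hp : IsPoint y v := isPoint_of_irred hirr hv.mem hv.ne
  have hgy : IsGeneric y := ⟨Function.ne_iff.1 hy.ne, hy.gen⟩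
  have hgv : IsGeneric v := ⟨Function.ne_iff.1 hv.ne, hv.gen⟩
  obtain ⟨hle, hsur⟩ := Pool.Agent.Q96.OS.gen_point' hgy hy.dim L v w hp hgv hv.dim
  interval_cases w
  · exact Or.inl rfl
  · right
    obtain ⟨σ, l, hl, hvl, hs⟩ := hsur rfl
    exact ⟨rfl, ⟨AlgEquiv.ofBijective σ ⟨σ.toRingHom.injective, hs⟩⟩⟩

/-- **Surfaces of general type without elliptic curves: all subvarieties are of general type.** -/
theorem allSub (hy : SubVar F K 2 y) (hirr : Cone F ⊆ VarPts ℂ y) (hgt : GeneralType ℂ K 2)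
    (hell : NoElliptic F) : AllSubGeneral F := by
  intro L _ _ w v hw hv
  rcases sub_cases hy hirr hw hv with rfl | ⟨rfl, ⟨e⟩⟩
  · have hess : Algebra.EssFiniteType ℂ L := Pool.Agent.Q72.NA.ess_of_adjoin hv.gen
    have hd : Algebra.trdeg ℂ L = 1 := by
      rw [hv.dim]
      simp
    have hFF : IsFF ℂ L := ⟨hess, hd⟩
    rcases le_or_gt (canDeg ℂ L) 0 with h | h
    · exfalso
      obtain ⟨E, j1, j2, j3, τ, hE⟩ := exists_ell h
      refine hell E hE (fun i => τ (v i)) (fun i => ?_) ?_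
      · have h2 : val (fun i => τ (v i)) (F i) = τ (val v (F i)) := by
          unfold val
          rw [MvPolynomial.comp_aeval_apply]
        rw [h2, hv.mem i, map_zero]
      · obtain ⟨i, j, hj, ht⟩ := nonconst_of_trdeg hv.gen (by
          rw [hd]
          exact one_ne_zero)
        refine ⟨i, j, (map_ne_zero τ).2 hj, ?_⟩
        rw [← map_div₀]
        intro halg
        exact ht ((isAlgebraic_algHom_iff τ τ.toRingHom.injective).1 halg)
    · exact Pool.Agent.Q103.SF.gt_of_canDeg h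
  · exact Pool.Agent.TH466.QG.general_of_equiv e hgt

end Pool.Agent.L7h90.GL
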