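import Pool.Agent.L7h90.GL.Pos
import Pool.Agent.L7h90.GL.Srf
import Pool.Agent.N154.TB.VGeo

/-! Entire curves in surfaces of general type with a map to an abelian variety. -/

set_option autoImplicit false

open Filter Topology Set Metric FF LinearAlgebra.Projectivization

namespace Pool.Agent.L7h90.GL

open Pool.Agent.Y190.OP Pool.Agent.W602.GT
open Pool.Agent.N154.GG (SmoothVariety HolMap holP_of projDist)
open Pool.Agent.N154.TT (HolToTorus RiemannForm)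
open Pool.Agent.N154.TB

variable {n m : ℕ} {ι : Type} {F : ι → MvPolynomial (Fin (n + 1)) ℂ} {K : Type} [Field K]
  [Algebra ℂ K] {y : Fin (n + 1) → K}

/-- No fibre of `α` is Zariski dense: for every point `a` there is a form which vanishes on the fibre
over `a` and which is not zero at the generic point `y`. -/
def ThinFibres (F : ι → MvPolynomial (Fin (n + 1)) ℂ) (y : Fin (n + 1) → K) {B : Type}
    (α : (Fin (n + 1) → ℂ) → B) : Prop :=
  ∀ a, ∃ P : MvPolynomial (Fin (n + 1)) ℂ, IsForm P ∧ val y P ≠ 0 ∧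
    ∀ x ∈ Cone F, α x = a → val x P = 0

/-- `V` is closed in projective space, for the classical topology. -/
def IsClosedProj (V : Set (ℙ ℂ (Fin (n + 1) → ℂ))) : Prop :=
  ∀ p, (∀ ε > 0, ∃ q ∈ V, projDist p q < ε) → p ∈ V

theorem nonconst_pair {h : ℂ → ℙ ℂ (Fin (n + 1) → ℂ)} (hh : ¬ IsConst h) : ∃ z w, h z ≠ h w := by
  unfold IsConst at hh
  push Not at hh
  exact hh

theorem irregular_curve (hX : SmoothVariety F 2 y) (hgt : GeneralType ℂ K 2)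
    {Λ : Submodule ℤ (Fin m → ℂ)} [DiscreteTopology Λ] [IsZLattice ℝ Λ]
    {H : (Fin m → ℂ) → (Fin m → ℂ) → ℂ} (hH : RiemannForm Λ H)
    {α : (Fin (n + 1) → ℂ) → (Fin m → ℂ) ⧸ Λ} (hα : HolToTorus (Cone F) Λ α)
    (hfib : ThinFibres F y α)
    {f : ℂ → ℙ ℂ (Fin (n + 1) → ℂ)} (hf : CurveIn (Cone F) f) (hne : ¬ IsConst f) :
    ∃ h, CurveIn (Cone F) h ∧ ¬ IsConst h ∧
      (∀ z, ∀ ε > 0, ∃ w, projDist (h z) (f w) < ε) ∧ EllipticClosure h := by
  obtain ⟨G, η, hG, hGy, hη⟩ := exists_twoForms (m := m) hX hgt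
  rcases ent_geoS hX.form (fun _ : Unit => hG) (hη Λ α) hH hα hf with h1 | ⟨g, hg, -, -, ⟨s, hs, hfs⟩,
    hQ⟩ | ⟨h, hh, hhn, hor, -, hcl⟩
  · exact absurd h1 hne
  · obtain ⟨Q, hQ1, hQ2, hQ3⟩ := hQ K 2 y le_rfl hX.sub hX.irred
    refine ⟨f, hf, hne, fun z ε hε => ⟨z, ?_⟩, elliptic_of_degenerate hX.sub hX.irred (holP_of hf.1)
      hf.2 (nonconst_pair hne) hQ1 hQ2 fun z => ?_⟩
    · change ‖Phi (f z).rep - Phi (f z).rep‖ < ε
      rwa [sub_self, norm_zero]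
    · rw [hfs z]
      exact hQ3 _
  · refine ⟨h, hh, hhn, hcl, ?_⟩
    rcases hor with hor | hor
    · obtain ⟨P, hP1, hP2, hP3⟩ := hfib (α (h 0).rep)
      exact elliptic_of_degenerate hX.sub hX.irred (holP_of hh.1) hh.2 (nonconst_pair hhn) hP1 hP2
        fun z => hP3 _ (hh.2 z) (hor z 0)
    · exact elliptic_of_degenerate hX.sub hX.irred (holP_of hh.1) hh.2 (nonconst_pair hhn) hG hGy
        fun z => hor z ()

theorem irregular_closed (hX : SmoothVariety F 2 y) (hgt : GeneralType ℂ K 2) (m : ℕ) :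
    ∃ G : MvPolynomial (Fin (n + 1)) ℂ, IsForm G ∧ val y G ≠ 0 ∧
      ∀ (Λ : Submodule ℤ (Fin m → ℂ)) [DiscreteTopology Λ] [IsZLattice ℝ Λ]
        (H : (Fin m → ℂ) → (Fin m → ℂ) → ℂ) (_ : RiemannForm Λ H)
        (α : (Fin (n + 1) → ℂ) → (Fin m → ℂ) ⧸ Λ) (_ : HolToTorus (Cone F) Λ α)
        (_ : ThinFibres F y α) (V : Set (ℙ ℂ (Fin (n + 1) → ℂ))), (∀ p ∈ V, p.rep ∈ Cone F) →
        IsClosedProj V →
        (∃ h, CurveIn (Cone F) h ∧ ¬ IsConst h ∧ (∀ z, h z ∈ V) ∧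
          ((∀ z w, α (h z).rep = α (h w).rep) ∨ ∀ z, val (h z).rep G = 0) ∧ EllipticClosure h) ∨
        ∃ T : Set (ℂ → ℙ ℂ (Fin (n + 1) → ℂ)), T.Finite ∧
          (∀ g ∈ T, CurveIn (Cone F) g ∧ (∀ z, g z ∈ V) ∧ Elliptic g ∧ OverLine α g ∧
            EllipticClosure g) ∧
          ∀ f, CurveIn (Cone F) f → (∀ z, f z ∈ V) → IsConst f ∨ Factors T f := by
  obtain ⟨G, η, hG, hGy, hη⟩ := exists_twoForms (m := m) hX hgt
  refine ⟨G, hG, hGy, fun Λ _ _ H hH α hα hfib V hVX hVc => ?_⟩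
  rcases closed_geo hX.form (fun _ : Unit => hG) (hη Λ α) hH hα hVX hVc with
    ⟨h, hh, hhn, hhV, hor, -⟩ | ⟨T, h1, h2, h3, h4⟩
  · left
    rcases hor with hor | hor
    · obtain ⟨P, hP1, hP2, hP3⟩ := hfib (α (h 0).rep)
      exact ⟨h, hh, hhn, hhV, Or.inl hor, elliptic_of_degenerate hX.sub hX.irred (holP_of hh.1) hh.2
        (nonconst_pair hhn) hP1 hP2 fun z => hP3 _ (hh.2 z) (hor z 0)⟩
    · exact ⟨h, hh, hhn, hhV, Or.inr fun z => hor z (), elliptic_of_degenerate hX.sub hX.irred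
        (holP_of hh.1) hh.2 (nonconst_pair hhn) hG hGy fun z => hor z ()⟩
  · right
    obtain ⟨Q, hQ1, hQ2, hQ3⟩ := h4 K 2 y le_rfl hX.sub hX.irred
    refine ⟨T, h1, fun g hg => ?_, h3⟩
    obtain ⟨g1, g2, g3, g4⟩ := h2 g hg
    have hgn : ¬ IsConst g := by
      intro hc
      obtain ⟨v, w, hv, hvw⟩ := g4
      have h5 : ∀ z : ℂ, (Submodule.Quotient.mk (z • v + w) : (Fin m → ℂ) ⧸ Λ) =
          Submodule.Quotient.mk ((0 : ℂ) • v + w) := by
        intro z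
        rw [← hvw z, hc z 0, hvw 0]
      exact mk_line_ne hv h5
    exact ⟨g1, g2, g3, g4, elliptic_of_degenerate hX.sub hX.irred (holP_of g1.1) g1.2
      (nonconst_pair hgn) hQ1 hQ2 (hQ3 g hg)⟩

end Pool.Agent.L7h90.GL
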