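import Pool.Agent.TH143.GT.Pull
import Pool.Agent.Helper386.D5V.Helper386_FF_Fund

/-! Kodaira's lemma for pluricanonical forms. -/

set_option autoImplicit false

open FF

namespace Pool.Agent.L7h90.GL

open Pool.Agent.W602.GT Pool.Agent.TH143.GT

variable {k K : Type} [Field k] [Field K] [Algebra k K]

theorem reg_pow {P : Place k K} {f : K} (hf : P.Reg f) (m : ℕ) : P.Reg (f ^ m) := by
  induction m with
  | zero => rw [pow_zero]; exact P.reg_one
  | succ m ih => rw [pow_succ]; exact P.reg_mul ih hf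

/-- roots of polynomials with regular coefficients -/
theorem reg_lead (P : Place k K) {p : Polynomial K} (hp : ∀ i, P.Reg (p.coeff i)) (hp0 : p ≠ 0)
    {g : K} (hg : Polynomial.aeval g p = 0) : P.Reg (p.leadingCoeff * g) := by
  have hs : (↑p.coeffs : Set K) ⊆ P.O.toSubring := by
    intro c hc
    obtain ⟨i, -, rfl⟩ := Polynomial.mem_coeffs_iff.1 hc
    exact hp i
  set q := p.toSubring P.O.toSubring hs with hq
  have hqp : q.map (algebraMap P.O.toSubring K) = p := by
    ext i
    rw [Polynomial.coeff_map]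
    exact Polynomial.coeff_toSubring p P.O.toSubring hs
  have hinj : Function.Injective (algebraMap P.O.toSubring K) := Subtype.val_injective
  have hq0 : q ≠ 0 := by
    intro h0
    apply hp0
    rw [← hqp, h0, Polynomial.map_zero]
  have hl : algebraMap P.O.toSubring K q.leadingCoeff = p.leadingCoeff := by
    rw [← hqp, Polynomial.leadingCoeff_map_of_injective hinj]
  have hz : Polynomial.aeval g q = 0 := by
    rw [← hg, ← hqp, Polynomial.aeval_map_algebraMap]
  have h1 := Polynomial.integralNormalization_aeval_eq_zero hz (fun x hx =>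
    (map_eq_zero_iff _ hinj).1 hx)
  rw [hl] at h1
  have h2 : IsIntegral P.O.toSubring (p.leadingCoeff * g) :=
    ⟨q.integralNormalization, Polynomial.monic_integralNormalization hq0, h1⟩
  exact P.reg_of_isIntegral (A := P.O.toSubring) (fun a => a.2) h2

/-- `f * ω₀ ^ m` is a regular pluricanonical form -/
def Sec (w : ℕ) (ω : (Fin w → Derivation k K K) → K) (m : ℕ) (f : K) : Prop :=
  ∀ v : Place k K, Divisorial w v → ∀ D : Fin w → Derivation k K K, (∀ i, DerReg v (D i)) →
    v.Reg (ω D ^ m * f)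

variable {w : ℕ} {ω : (Fin w → Derivation k K K) → K}

theorem Sec.mul {m m' : ℕ} {f g : K} (hf : Sec w ω m f) (hg : Sec w ω m' g) :
    Sec w ω (m + m') (f * g) := by
  intro v hv D hD
  have h1 := v.reg_mul (hf v hv D hD) (hg v hv D hD)
  have h2 : ω D ^ (m + m') * (f * g) = ω D ^ m * f * (ω D ^ m' * g) := by
    rw [pow_add]
    ring
  rwa [h2]

theorem Sec.add {m : ℕ} {f g : K} (hf : Sec w ω m f) (hg : Sec w ω m g) : Sec w ω m (f + g) := by
  intro v hv D hD
  rw [mul_add]
  exact v.reg_add (hf v hv D hD) (hg v hv D hD)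

theorem Sec.up (hω : ∀ v : Place k K, Divisorial w v → RegAt v ω) {m : ℕ} {f : K}
    (hf : Sec w ω m f) {m' : ℕ} (h : m ≤ m') : Sec w ω m' f := by
  intro v hv D hD
  obtain ⟨e, rfl⟩ := Nat.exists_eq_add_of_le h
  have h2 : ω D ^ (m + e) * f = ω D ^ e * (ω D ^ m * f) := by
    rw [pow_add]
    ring
  rw [h2]
  exact v.reg_mul (reg_pow (hω v hv D hD) e) (hf v hv D hD)

theorem Sec.const (c : k) : Sec w ω 0 (algebraMap k K c) := by
  intro v hv D hD
  rw [pow_zero, one_mul]
  exact v.reg_const c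

/-- **Kodaira's lemma**, for one function -/
theorem kodaira_one (hω : ∀ v : Place k K, Divisorial w v → RegAt v ω) {t : Fin w → K}
    (ht : ∀ i, Sec w ω 1 (t i)) (hb : IsTranscendenceBasis k t) (g : K) :
    ∃ f : K, f ≠ 0 ∧ ∃ m0 : ℕ, ∀ m, m0 ≤ m → Sec w ω m f ∧ Sec w ω m (f * g) := by
  classical
  have hadj : ∀ f ∈ Algebra.adjoin k (Set.range t), ∃ m, Sec w ω m f := by
    intro f hf
    induction hf using Algebra.adjoin_induction with
    | mem x hx =>
      obtain ⟨i, rfl⟩ := hx
      exact ⟨1, ht i⟩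
    | algebraMap c => exact ⟨0, Sec.const c⟩
    | add x y hx hy ihx ihy =>
      obtain ⟨m, hm⟩ := ihx
      obtain ⟨m', hm'⟩ := ihy
      exact ⟨m + m', (hm.up hω (by omega)).add (hm'.up hω (by omega))⟩
    | mul x y hx hy ihx ihy =>
      obtain ⟨m, hm⟩ := ihx
      obtain ⟨m', hm'⟩ := ihy
      exact ⟨m + m', hm.mul hm'⟩
  have halg := hb.isAlgebraic
  obtain ⟨p, hp0, hpg⟩ := halg.isAlgebraic g
  set q : Polynomial K := p.map (algebraMap (Algebra.adjoin k (Set.range t)) K) with hq
  have hinj : Function.Injective (algebraMap (Algebra.adjoin k (Set.range t)) K) :=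
    Subtype.val_injective
  have hq0 : q ≠ 0 := (Polynomial.map_ne_zero_iff hinj).2 hp0
  have hqg : Polynomial.aeval g q = 0 := by
    rw [hq, Polynomial.aeval_map_algebraMap]
    exact hpg
  have hc : ∀ i, ∃ m, Sec w ω m (q.coeff i) := by
    intro i
    rw [hq, Polynomial.coeff_map]
    exact hadj _ (p.coeff i).2
  choose M hM using hc
  have hall : ∀ m, (Finset.range (q.natDegree + 1)).sup M ≤ m → ∀ i, Sec w ω m (q.coeff i) := by
    intro m hm i
    by_cases hi : i ≤ q.natDegree
    · exact (hM i).up hω ((Finset.le_sup (Finset.mem_range.2 (by omega))).trans hm)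
    · rw [Polynomial.coeff_eq_zero_of_natDegree_lt (by omega)]
      intro v hv D hD
      rw [mul_zero]
      exact v.reg_zero
  refine ⟨q.leadingCoeff, Polynomial.leadingCoeff_ne_zero.2 hq0, (Finset.range (q.natDegree + 1)).sup M,
    fun m hm => ⟨hall m hm _, fun v hv D hD => ?_⟩⟩
  by_cases hz : ω D ^ m = 0
  · rw [hz, zero_mul]
    exact v.reg_zero
  have h1 := reg_lead v (p := Polynomial.C (ω D ^ m) * q) (fun i => by
    rw [Polynomial.coeff_C_mul]
    exact hall m hm i v hv D hD) (mul_ne_zero (Polynomial.C_ne_zero.2 hz) hq0) (g := g) (by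
    rw [map_mul, hqg, mul_zero])
  rw [Polynomial.leadingCoeff_mul, Polynomial.leadingCoeff_C, mul_assoc] at h1
  exact h1

/-- **Kodaira's lemma**, for finitely many functions -/
theorem kodaira_fin (hω : ∀ v : Place k K, Divisorial w v → RegAt v ω) {t : Fin w → K}
    (ht : ∀ i, Sec w ω 1 (t i)) (hb : IsTranscendenceBasis k t) {ι : Type} (s : Finset ι)
    (g : ι → K) : ∃ f : K, f ≠ 0 ∧ ∃ m0 : ℕ, ∀ m, m0 ≤ m → Sec w ω m f ∧
      ∀ i ∈ s, Sec w ω m (f * g i) := by
  classical
  induction s using Finset.induction_on with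
  | empty =>
    refine ⟨1, one_ne_zero, 0, fun m _ => ⟨?_, fun i hi => absurd hi (Finset.notMem_empty i)⟩⟩
    have h1 := (Sec.const (w := w) (ω := ω) (1 : k)).up hω (Nat.zero_le m)
    rwa [map_one] at h1
  | insert a s ha ih =>
    obtain ⟨f, hf, m0, h1⟩ := ih
    obtain ⟨f', hf', m1, h2⟩ := kodaira_one hω ht hb (g a)
    refine ⟨f * f', mul_ne_zero hf hf', m0 + m1, fun m hm => ⟨?_, fun i hi => ?_⟩⟩
    · have h3 := (h1 m0 le_rfl).1.mul (h2 (m - m0) (by omega)).1
      rwa [Nat.add_sub_cancel' (by omega)] at h3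
    · rcases Finset.mem_insert.1 hi with rfl | hi
      · have h3 := (h1 m0 le_rfl).1.mul (h2 (m - m0) (by omega)).2
        rw [Nat.add_sub_cancel' (by omega)] at h3
        have e : f * (f' * g i) = f * f' * g i := by ring
        rwa [e] at h3
      · have h3 := ((h1 m0 le_rfl).2 i hi).mul (h2 (m - m0) (by omega)).1
        rw [Nat.add_sub_cancel' (by omega)] at h3
        have e : f * g i * f' = f * f' * g i := by ring
        rwa [e] at h3

/-- **Kodaira's lemma**: on varieties of general type there are pluricanonical forms which vanish on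
a hyperplane section. -/
theorem kodaira [CharZero k] (h : GeneralType k K w) {n : ℕ} (y : Fin (n + 1) → K) (o : Fin (n + 1)) :
    ∃ (N : ℕ) (A : (Fin w → Derivation k K K) → K), 0 < N ∧ IsPluri N A ∧ (∃ D, A D ≠ 0) ∧
      (∀ v : Place k K, Divisorial w v → RegAt v A) ∧
      ∀ l, ∀ v : Place k K, Divisorial w v → RegAt v (fun D => A D * (y l / y o)) := by
  obtain ⟨htr, N, hN, ω, hω, hreg, D, hD0, hDi⟩ := h
  set t : Fin w → K := fun i => ω i.succ D / ω 0 D with ht
  have hb : IsTranscendenceBasis k t := by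
    apply hDi.isTranscendenceBasis_of_trdeg_le_of_finite
    rw [htr, Cardinal.mk_fin]
  have hmul : ∀ i D', ω (Fin.succ i) D' = ω 0 D' * t i := by
    intro i D'
    choose E hE using fun a : Fin w => exists_der _ hb (fun b => if a = b then (1 : K) else 0)
    have hdual : Dual t E := ⟨hb, hE⟩
    have h1 : ∀ j (D' : Fin w → Derivation k K K), ω j D' =
        (Matrix.of fun i l => D' i (t l)).det ^ N * ω j E := by
      intro j D'
      have h2 := hω j (Matrix.of fun i l => D' i (t l)) E
      have h3 : (fun i => ∑ l, (Matrix.of fun i l => D' i (t l)) i l • E l) = D' := by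
        funext i
        exact (hdual.expand (D' i)).symm
      rwa [h3] at h2
    have hd : (Matrix.of fun i l => D i (t l)).det ^ N ≠ 0 := by
      intro h0
      apply hD0
      rw [h1 0 D, h0, zero_mul]
    have hE0 : ω 0 E ≠ 0 := by
      intro h0
      apply hD0
      rw [h1 0 D, h0, mul_zero]
    have ht' : t i = ω i.succ E / ω 0 E := by
      rw [ht]
      change ω i.succ D / ω 0 D = _
      rw [h1 i.succ D, h1 0 D, mul_div_mul_left _ _ hd]
    rw [h1 i.succ D', h1 0 D', ht']
    field_simp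
  obtain ⟨f, hf, m0, hm⟩ := kodaira_fin (ω := ω 0) (fun v hv => hreg v hv 0) (t := t) (fun i v hv D' hD' => by
    rw [pow_one, ← hmul]
    exact hreg v hv i.succ D' hD') hb Finset.univ (fun l => y l / y o)
  refine ⟨(m0 + 1) * N, fun D => ω 0 D ^ (m0 + 1) * f, by positivity, fun A D' => ?_,
    ⟨D, mul_ne_zero (pow_ne_zero _ hD0) hf⟩, fun v hv D' hD' => (hm (m0 + 1) (by omega)).1 v hv D' hD',
    fun l v hv D' hD' => ?_⟩
  · change ω 0 (fun i => ∑ j, A i j • D' j) ^ (m0 + 1) * f =
      A.det ^ ((m0 + 1) * N) * (ω 0 D' ^ (m0 + 1) * f)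
    rw [hω 0 A D', mul_pow, ← pow_mul, mul_comm N]
    ring
  · have h1 := (hm (m0 + 1) (by omega)).2 l (Finset.mem_univ l) v hv D' hD'
    rwa [← mul_assoc] at h1

end Pool.Agent.L7h90.GL
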