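import Pool.Agent.Q103.SF.Disc
import Pool.Agent.Q285.SFG.Gpc
import Pool.Agent.Y190.OP.Zf
import Pool.Agent.L7h90.GL.Ell

/-!
# Algebraically degenerate entire curves in surfaces

`disc_of_entire` and `entire_low` are those of `Pool/Agent/Q103/SF/Ent.lean`, with fewer imports.
-/

set_option autoImplicit false
set_option maxHeartbeats 400000
set_option linter.overlappingInstances false
set_option linter.unusedSectionVars false

namespace Pool.Agent.L7h90.GL

open FF Filter
open Pool.Agent.W602.GT Metric Topology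
open Pool.Agent.Y221.PD
open Pool.Agent.Y221.BD (EntireCurve)
open Pool.Agent.W603.BP (Extends sin_curve sin_point)
open Pool.Agent.Q103.SF (S_gpc vanOn van lowCurves disc_low)
open Pool.Agent.Q271.RC (Nonconst)
open Pool.Agent.Y190.OP
open scoped LinearAlgebra.Projectivization

variable {M : ℕ} {K : Type} [Field K] [Algebra ℂ K] {x : Fin (M + 1) → K}

/-- entire curves give punctured discs with an essential singularity -/
theorem disc_of_entire {f : Fin (M + 1) → ℂ → ℂ} (hf : EntireCurve x f) :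
    EssentialDisc x (fun w i => f i (Complex.sin w⁻¹)) := by
  obtain ⟨f', hf'⟩ : ∃ f' : ℂ → Fin (M + 1) → ℂ, ∀ t i, f' t i = f i t := ⟨fun t i => f i t,
    fun _ _ => rfl⟩
  have hfe : ∀ t, f' t = fun i => f i t := fun t => funext (hf' t)
  have hne : ∀ t, f' t ≠ 0 := by
    intro t h0
    obtain ⟨i, hi⟩ := hf.ne t
    apply hi
    rw [← hf', h0]
    rfl
  have hE : Pool.Agent.H159R3.GGLLog.EntireCurve (ι := Empty) ∅ (fun e => e.elim) f' := by
    refine ⟨?_, fun z => ⟨hne z, fun j hj => absurd hj (Set.notMem_empty j), fun e => e.elim⟩, ?_⟩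
    · rw [differentiable_pi]
      intro i
      have : (fun t => f' t i) = f i := funext fun t => hf' t i
      rw [this]
      exact hf.hol i
    · obtain ⟨i, j, a, b, hab⟩ := hf.nonconst
      refine ⟨a, b, fun c hc => hab ?_⟩
      have h1 : ∀ l, f l a = c * f l b := by
        intro l
        have := congrFun hc l
        rw [hf', Pi.smul_apply, hf', smul_eq_mul] at this
        exact this
      rw [h1 i, h1 j]
      ring
  obtain ⟨⟨h1, h2⟩, h3⟩ := sin_curve hE
  have hD : EssentialDisc x (fun w => f' (Complex.sin w⁻¹)) := by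
    refine ⟨fun i => ?_, fun t _ => hne _, fun G hG hxG t _ => ?_, h3⟩
    · exact fun t ht => (differentiableWithinAt_pi.mp (h1 t ht)) i
    · show MvPolynomial.eval (f' (Complex.sin t⁻¹)) G = 0
      rw [hfe]
      exact hf.mem G hG hxG _
  have h4 : (fun w => f' (Complex.sin w⁻¹)) = fun w i => f i (Complex.sin w⁻¹) := by
    funext w i
    exact hf' _ _
  rwa [h4] at hD

/-- **Entire curves in surfaces.** -/
theorem entire_low (hG1 : S_gpc) (htr : Algebra.trdeg ℂ K = (2 : ℕ)) (hx : x ≠ 0)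
    (hgen : coords ℂ x = ⊤) {R : MvPolynomial (Fin (M + 1)) ℂ} (hR : IsForm R)
    (hxR : val x R ≠ 0) {f : Fin (M + 1) → ℂ → ℂ} (hf : EntireCurve x f)
    (hfR : ∀ t, MvPolynomial.eval (fun i => f i t) R = 0) :
    vanOn Set.univ (fun t i => f i t) ∈ lowCurves x := by
  have h1 := disc_low hG1 htr hx hgen hR hxR (disc_of_entire hf) fun t _ => hfR _
  have h2 : vanOn (ball (0 : ℂ) 1 \ {0}) (fun w i => f i (Complex.sin w⁻¹)) =
      vanOn Set.univ (fun t i => f i t) := by
    ext G
    constructor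
    · rintro ⟨hG, h⟩
      refine ⟨hG, fun t _ => ?_⟩
      obtain ⟨w, hw, hws⟩ := sin_point t
      have h3 := h w hw
      simp only [hws] at h3
      exact h3
    · rintro ⟨hG, h⟩
      exact ⟨hG, fun t _ => h _ (Set.mem_univ _)⟩
  rwa [h2] at h1

/-- The Zariski closure of the image of `h` is the image of a nonconstant morphism from an elliptic
curve. -/
def EllipticClosure (h : ℂ → ℙ ℂ (Fin (M + 1) → ℂ)) : Prop :=
  ∃ (E : Type) (_ : Field E) (_ : Algebra ℂ E) (v : Fin (M + 1) → E), IsElliptic E ∧ Nonconst v ∧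
    ∀ G : MvPolynomial (Fin (M + 1)) ℂ, IsForm G → (val v G = 0 ↔ ∀ z, val (h z).rep G = 0)

/-- There is no nonconstant morphism from an elliptic curve to `X = {F = 0}`. -/
def NoElliptic {ι : Type} (F : ι → MvPolynomial (Fin (M + 1)) ℂ) : Prop :=
  ∀ (E : Type) [Field E] [Algebra ℂ E], IsElliptic E → ∀ v : Fin (M + 1) → E,
    (∀ i, val v (F i) = 0) → ¬ Nonconst v

theorem NoElliptic.of_closure {ι : Type} {F : ι → MvPolynomial (Fin (M + 1)) ℂ}
    (hF : ∀ i, IsForm (F i)) (h : NoElliptic F) {g : ℂ → ℙ ℂ (Fin (M + 1) → ℂ)}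
    (hg : ∀ z, (g z).rep ∈ Cone F) : ¬ EllipticClosure g := by
  rintro ⟨E, i1, i2, v, hE, hv, hiff⟩
  exact h E hE v (fun i => (hiff _ (hF i)).2 fun z => (hg z).2 i) hv

/-- nonconstant points of curves -/
theorem nonconst_of_trdeg {L : Type} [Field L] [Algebra ℂ L] {v : Fin (M + 1) → L}
    (hgen : coords ℂ v = ⊤) (htr : Algebra.trdeg ℂ L ≠ 0) : Nonconst v := by
  by_contra hn
  have h1 : ∀ i j, v j ≠ 0 → IsAlgebraic ℂ (v i / v j) := by
    intro i j hj
    by_contra h
    exact hn ⟨i, j, hj, h⟩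
  apply htr
  have h2 : Algebra.IsAlgebraic ℂ (coords ℂ v) := by
    refine IntermediateField.isAlgebraic_adjoin ?_
    rintro z ⟨i, j, hj, rfl⟩
    exact (h1 i j hj).isIntegral
  rw [hgen] at h2
  have h3 : Algebra.IsAlgebraic ℂ L := by
    refine ⟨fun z => ?_⟩
    have := h2.isAlgebraic ⟨z, IntermediateField.mem_top⟩
    exact IsAlgebraic.algHom (⊤ : IntermediateField ℂ L).val this
  exact _root_.trdeg_eq_zero_iff.2 h3

/-- **Algebraically degenerate entire curves in surfaces.** -/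
theorem elliptic_of_degenerate {ι : Type} {F : ι → MvPolynomial (Fin (M + 1)) ℂ}
    (hy : SubVar F K 2 x) (hirr : Cone F ⊆ VarPts ℂ x) {h : ℂ → ℙ ℂ (Fin (M + 1) → ℂ)}
    (hh : HolP Set.univ fun z => Phi (h z).rep) (hX : ∀ z, (h z).rep ∈ Cone F)
    (hne : ∃ z w, h z ≠ h w) {P : MvPolynomial (Fin (M + 1)) ℂ} (hP : IsForm P)
    (hPy : val x P ≠ 0) (hPh : ∀ z, val (h z).rep P = 0) : EllipticClosure h := by
  obtain ⟨f, hf, hf0, hfφ⟩ := zero_free hh
  have hc : ∀ z, ∃ c : ℂ, c ≠ 0 ∧ f z = c • (h z).rep := fun z =>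
    Phi_inj (Projectivization.rep_nonzero _) (hf0 z) (hfφ z)
  have hev : ∀ (G : MvPolynomial (Fin (M + 1)) ℂ), IsForm G → ∀ z,
      (MvPolynomial.eval (fun i => f z i) G = 0 ↔ val (h z).rep G = 0) := by
    rintro G ⟨d, hG⟩ z
    obtain ⟨c, hc0, hcf⟩ := hc z
    have h1 : MvPolynomial.eval (fun i => f z i) G = c ^ d * val (h z).rep G := by
      have h2 : (fun i => f z i) = fun i => c * (h z).rep i := by
        funext i
        rw [hcf]
        rfl
      have h3 : ∀ u : Fin (M + 1) → ℂ, MvPolynomial.eval u G = val u G := by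
        intro u
        unfold val
        rw [MvPolynomial.aeval_eq_eval]
      rw [h3, h2, val_smul hG]
    rw [h1, mul_eq_zero, or_iff_right (pow_ne_zero _ hc0)]
  have hE : EntireCurve x (fun i t => f t i) := by
    refine ⟨fun i => (differentiable_pi.1 hf) i, fun t => ?_, fun G hG hGx t => ?_, ?_⟩
    · obtain ⟨i, hi⟩ := Function.ne_iff.1 (hf0 t)
      exact ⟨i, hi⟩
    · exact (hev G hG t).2 ((hirr (hX t)).2 G hG hGx)
    · by_contra hn
      push Not at hn
      obtain ⟨z, w, hzw⟩ := hne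
      apply hzw
      obtain ⟨c, hc0, hcf⟩ := hc z
      obtain ⟨e, he0, hef⟩ := hc w
      obtain ⟨i, hi⟩ := Function.ne_iff.1 (hf0 w)
      have hi' : f w i ≠ 0 := hi
      have h1 : f z = (f z i / f w i) • f w := by
        funext j
        rw [Pi.smul_apply, smul_eq_mul]
        have := hn i j z w
        field_simp
        linear_combination -this
      obtain ⟨a, ha⟩ : ∃ a : ℂ, f z = a • f w := ⟨_, h1⟩
      rw [← (h z).mk_rep, ← (h w).mk_rep, Projectivization.mk_eq_mk_iff']
      refine ⟨c⁻¹ * a * e, ?_⟩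
      have h2 : (h z).rep = c⁻¹ • f z := by rw [hcf, smul_smul, inv_mul_cancel₀ hc0, one_smul]
      rw [h2, ha, hef, smul_smul, smul_smul, mul_assoc]
  have h1 := entire_low Pool.Agent.Q285.SFG.t_gpc hy.dim hy.ne hy.gen hP hPy hE
    (fun t => (hev P hP t).2 (hPh t))
  obtain ⟨L, i1, i2, i3, v, hv, hgen, hdeg, hvan⟩ := h1
  obtain ⟨E, j1, j2, j3, τ, hE'⟩ := exists_ell hdeg
  refine ⟨E, j1, j2, fun i => τ (v i), hE', ?_, fun G hG => ?_⟩
  · obtain ⟨i, j, hj, ht⟩ := nonconst_of_trdeg hgen (by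
      rw [IsFF.trdeg (k := ℂ) (K := L)]
      simp)
    refine ⟨i, j, (map_ne_zero τ).2 hj, ?_⟩
    rw [← map_div₀]
    intro halg
    exact ht ((isAlgebraic_algHom_iff τ τ.toRingHom.injective).1 halg)
  · have h2 : val (fun i => τ (v i)) G = τ (val v G) := by
      unfold val
      rw [MvPolynomial.comp_aeval_apply]
    rw [h2, map_eq_zero]
    have h3 : G ∈ vanOn Set.univ (fun t i => f t i) ↔ G ∈ van v := by rw [hvan]
    constructor
    · intro h4 z
      have h5 : G ∈ van v := ⟨hG, h4⟩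
      exact (hev G hG z).1 ((h3.2 h5).2 z (Set.mem_univ z))
    · intro h4
      exact (h3.1 ⟨hG, fun t _ => (hev G hG t).2 (h4 t)⟩).2

end Pool.Agent.L7h90.GL
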