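import Pool.Agent.L7h90.GL.Low
import Pool.Agent.N154.TB.Geo
import Pool.Agent.N154.DD.KDefs

/-! Morphisms given by forms, and entire curves. -/

set_option autoImplicit false

open Filter Topology Set Metric MvPolynomial FF LinearAlgebra.Projectivization

namespace Pool.Agent.L7h90.GL

open Pool.Agent.Y190.OP Pool.Agent.W602.GT
open Pool.Agent.N154.GG (HolMap holP_of holMap_of projDist toProj toProj_Phi Phi_rep_mk
  Phi_rep_toProj proj_ext)
open Pool.Agent.N154.TB
open Pool.Agent.N155 (eval_smul)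
open Pool.Agent.Q271.RC (Nonconst)
open scoped LinearAlgebra.Projectivization

variable {n n' : ℕ} {ι ι' : Type} {F : ι → MvPolynomial (Fin (n + 1)) ℂ}
  {F' : ι' → MvPolynomial (Fin (n' + 1)) ℂ}

/-- the values of the polynomials `P j` at the point `x` -/
noncomputable def mor (P : Fin (n + 1) → MvPolynomial (Fin (n' + 1)) ℂ) (x : Fin (n' + 1) → ℂ) :
    Fin (n + 1) → ℂ := fun j => val x (P j)

/-- `u` and `mor P x` are the same point of projective space, if they are not zero -/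
def Over (P : Fin (n + 1) → MvPolynomial (Fin (n' + 1)) ℂ) (u : Fin (n + 1) → ℂ)
    (x : Fin (n' + 1) → ℂ) : Prop := ∃ c : ℂ, u = c • mor P x

/-- The `P j` are forms of the same degree, without common zeros on `X' = {F' = 0}`, which define a
morphism from `X'` to `X = {F = 0}`. -/
structure Morphism (F' : ι' → MvPolynomial (Fin (n' + 1)) ℂ) (F : ι → MvPolynomial (Fin (n + 1)) ℂ)
    (P : Fin (n + 1) → MvPolynomial (Fin (n' + 1)) ℂ) : Prop where
  deg : ∃ e, ∀ j, (P j).IsHomogeneous e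
  mem : ∀ x ∈ Cone F', mor P x ∈ Cone F

variable {P : Fin (n + 1) → MvPolynomial (Fin (n' + 1)) ℂ}

theorem mor_smul {e : ℕ} (hP : ∀ j, (P j).IsHomogeneous e) (c : ℂ) (x : Fin (n' + 1) → ℂ) :
    mor P (c • x) = c ^ e • mor P x := by
  funext j
  change val (c • x) (P j) = c ^ e * val x (P j)
  rw [val_eval, eval_smul (hP j), ← val_eval]

theorem mor_cont (P : Fin (n + 1) → MvPolynomial (Fin (n' + 1)) ℂ) : Continuous (mor P) := by
  apply continuous_pi
  intro j
  change Continuous fun x : Fin (n' + 1) → ℂ => val x (P j)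
  simp only [val_eval]
  exact MvPolynomial.continuous_eval _

theorem val_bind {E : Type} [Field E] [Algebra ℂ E] (v : Fin (n' + 1) → E)
    (P : Fin (n + 1) → MvPolynomial (Fin (n' + 1)) ℂ) (G : MvPolynomial (Fin (n + 1)) ℂ) :
    val v (bind₁ P G) = val (fun j => val v (P j)) G := by
  unfold val
  rw [aeval_bind₁]

theorem isForm_bind {e : ℕ} (hP : ∀ j, (P j).IsHomogeneous e) {G : MvPolynomial (Fin (n + 1)) ℂ}
    (hG : IsForm G) : IsForm (bind₁ P G) := by
  obtain ⟨d, hG⟩ := hG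
  refine ⟨e * d, ?_⟩
  have h1 := hG.aeval (n := e) P hP
  exact h1

/-- the image of a point, or of a curve -/
noncomputable def img (P : Fin (n + 1) → MvPolynomial (Fin (n' + 1)) ℂ)
    (q : ℙ ℂ (Fin (n' + 1) → ℂ)) : ℙ ℂ (Fin (n + 1) → ℂ) := toProj (Phi (mor P q.rep))

theorem Phi_img {q : ℙ ℂ (Fin (n' + 1) → ℂ)} (h : mor P q.rep ≠ 0) :
    Phi (img P q).rep = Phi (mor P q.rep) := Phi_rep_toProj ⟨_, h, rfl⟩

theorem img_rep {q : ℙ ℂ (Fin (n' + 1) → ℂ)} (h : mor P q.rep ≠ 0) :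
    ∃ c : ℂ, c ≠ 0 ∧ (img P q).rep = c • mor P q.rep :=
  Phi_inj h (Projectivization.rep_nonzero _) (Phi_img h).symm

theorem Morphism.ne (hP : Morphism F' F P) {x : Fin (n' + 1) → ℂ} (hx : x ∈ Cone F') :
    mor P x ≠ 0 := (hP.mem x hx).1

theorem Phi_mor {e : ℕ} (hP : ∀ j, (P j).IsHomogeneous e) {c : ℂ} (hc : c ≠ 0)
    (x : Fin (n' + 1) → ℂ) : Phi (mor P (c • x)) = Phi (mor P x) := by
  rw [mor_smul hP, Phi_smul (pow_ne_zero _ hc)]

theorem Morphism.img_mem (hF : ∀ i, IsForm (F i)) (hP : Morphism F' F P)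
    {q : ℙ ℂ (Fin (n' + 1) → ℂ)} (hq : q.rep ∈ Cone F') : (img P q).rep ∈ Cone F := by
  obtain ⟨c, hc, he⟩ := img_rep (hP.ne hq)
  rw [he]
  exact (cone_conic hF _ (hP.mem _ hq)).2 c hc

/-- images of holomorphic maps -/
theorem Morphism.hol (hP : Morphism F' F P) {f : ℂ → ℙ ℂ (Fin (n' + 1) → ℂ)}
    (hf : CurveIn (Cone F') f) : HolMap fun z => img P (f z) := by
  obtain ⟨e, he⟩ := hP.deg
  apply holMap_of
  intro z _
  obtain ⟨V, g, hV, hzV, hg, hfg⟩ := hf.1 z
  have h1 : ∀ w ∈ V, ∃ c : ℂ, c ≠ 0 ∧ (f w).rep = c • g w := by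
    intro w hw
    obtain ⟨h0, h2⟩ := hfg w hw
    refine Phi_inj h0 (Projectivization.rep_nonzero _) ?_
    rw [h2, Phi_rep_mk]
  refine ⟨V, fun w => mor P (g w), hV, hzV, ?_, fun w hw => ?_⟩
  · have h2 : Differentiable ℂ (mor P) := by
      rw [differentiable_pi]
      intro j
      change Differentiable ℂ fun x : Fin (n' + 1) → ℂ => val x (P j)
      simp only [val_eval]
      intro x
      have := (AnalyticOnNhd.eval_mvPolynomial (𝕜 := ℂ) (P j)) x (Set.mem_univ x)
      exact this.differentiableAt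
    exact h2.comp_differentiableOn hg
  · obtain ⟨c, hc, h2⟩ := h1 w hw
    have h3 : mor P (f w).rep = c ^ e • mor P (g w) := by rw [h2, mor_smul he]
    have h4 : Phi (mor P (f w).rep) = Phi (mor P (g w)) := by
      rw [h3, Phi_smul (pow_ne_zero _ hc)]
    have h5 := hP.ne (hf.2 w)
    refine ⟨fun h0 => h5 ?_, h4⟩
    have h6 : mor P (g w) = 0 := h0
    rw [h3, h6, smul_zero]

theorem Morphism.curve (hF : ∀ i, IsForm (F i)) (hP : Morphism F' F P)
    {f : ℂ → ℙ ℂ (Fin (n' + 1) → ℂ)} (hf : CurveIn (Cone F') f) :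
    CurveIn (Cone F) fun z => img P (f z) :=
  ⟨hP.hol hf, fun z => hP.img_mem hF (hf.2 z)⟩

/-- images of points depend continuously on the points -/
theorem Morphism.cont (hP : Morphism F' F P) {q : ℙ ℂ (Fin (n' + 1) → ℂ)}
    (hq : q.rep ∈ Cone F') {ε : ℝ} (hε : 0 < ε) :
    ∃ δ > 0, ∀ p : ℙ ℂ (Fin (n' + 1) → ℂ), p.rep ∈ Cone F' → projDist q p < δ →
      projDist (img P q) (img P p) < ε := by
  obtain ⟨e, he⟩ := hP.deg
  have hM : Phi q.rep ∈ PM := ⟨_, q.rep_nonzero, rfl⟩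
  obtain ⟨i, hi⟩ := PM.exists_diag hM
  have hch : ∀ p : ℙ ℂ (Fin (n' + 1) → ℂ), p.rep ∈ Cone F' → Phi p.rep i i ≠ 0 →
      Phi (mor P (chart i (Phi p.rep))) = Phi (img P p).rep := by
    intro p hp h0
    have h1 := (Phi_diag_ne p.rep_nonzero).1 h0
    rw [chart_Phi p.rep_nonzero h1, Phi_mor he (inv_ne_zero h1), Phi_img (hP.ne hp)]
  have h1 : ContinuousAt (fun M : Mat (n' + 1) => Phi (mor P (chart i M))) (Phi q.rep) := by
    have h2 : ContinuousAt (fun M : Mat (n' + 1) => mor P (chart i M)) (Phi q.rep) :=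
      (mor_cont P).continuousAt.comp (continuousAt_chart hi)
    have h3 : mor P (chart i (Phi q.rep)) ≠ 0 := by
      have h4 := (Phi_diag_ne q.rep_nonzero).1 hi
      rw [chart_Phi q.rep_nonzero h4, mor_smul he]
      exact smul_ne_zero (pow_ne_zero _ (inv_ne_zero h4)) (hP.ne hq)
    exact ContinuousAt.comp (g := Phi) (continuousAt_Phi h3) h2
  have h2 : ∀ᶠ M in 𝓝 (Phi q.rep), M i i ≠ 0 ∧
      dist (Phi (mor P (chart i M))) (Phi (mor P (chart i (Phi q.rep)))) < ε := by
    have h3 : ContinuousAt (fun M : Mat (n' + 1) => M i i) (Phi q.rep) :=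
      ((continuous_apply i).comp (continuous_apply i)).continuousAt
    exact (h3.eventually_ne hi).and (h1.eventually (ball_mem_nhds _ hε))
  obtain ⟨δ, hδ, h3⟩ := Metric.eventually_nhds_iff.1 h2
  refine ⟨δ, hδ, fun p hp hpq => ?_⟩
  have h4 := h3 (y := Phi p.rep) (by rw [dist_comm, dist_eq_norm]; exact hpq)
  rw [hch p hp h4.1, hch q hq hi, dist_comm, dist_eq_norm] at h4
  exact h4.2

/-- **The image of an elliptic closure.** -/
theorem EllipticClosure.img (hP : Morphism F' F P) {h : ℂ → ℙ ℂ (Fin (n' + 1) → ℂ)}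
    (hh : ∀ z, (h z).rep ∈ Cone F') (hc : EllipticClosure h)
    (hne : ¬ IsConst fun z => GL.img P (h z)) : EllipticClosure fun z => GL.img P (h z) := by
  obtain ⟨e, he⟩ := hP.deg
  obtain ⟨E, i1, i2, v, hE, hv, hiff⟩ := hc
  have key : ∀ G : MvPolynomial (Fin (n + 1)) ℂ, IsForm G →
      (val (fun j => val v (P j)) G = 0 ↔ ∀ z, val (GL.img P (h z)).rep G = 0) := by
    intro G hG
    rw [← val_bind, hiff _ (isForm_bind he hG)]
    refine forall_congr' fun z => ?_
    obtain ⟨c, hc0, hcr⟩ := img_rep (hP.ne (hh z))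
    obtain ⟨d, hd⟩ := hG
    rw [hcr, val_eval (c • _), eval_smul hd, ← val_eval, mul_eq_zero,
      or_iff_right (pow_ne_zero _ hc0), val_bind]
    rfl
  refine ⟨E, i1, i2, fun j => val v (P j), hE, ?_, key⟩
  by_contra hn
  apply hne
  have h1 : ∀ i j, val v (P j) ≠ 0 → ∃ c : ℂ, val v (P i) = algebraMap ℂ E c * val v (P j) := by
    intro i j hj
    by_contra h0
    apply hn
    refine ⟨i, j, hj, fun halg => h0 ?_⟩
    have h2 := halg.isIntegral
    obtain ⟨c, hc⟩ := minpoly.mem_range_of_degree_eq_one ℂ _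
      (IsAlgClosed.degree_eq_one_of_irreducible ℂ (minpoly.irreducible h2))
    exact ⟨c, by rw [hc, div_mul_cancel₀ _ hj]⟩
  have h2 : ∃ j, val v (P j) ≠ 0 := by
    by_contra h0
    push Not at h0
    apply (GL.img P (h 0)).rep_nonzero
    funext j
    have h3 := (key (X j) ⟨1, isHomogeneous_X _ _⟩).1 (by
      unfold val
      rw [aeval_X]
      exact h0 j) 0
    unfold val at h3
    rw [aeval_X] at h3
    exact h3
  obtain ⟨j, hj⟩ := h2
  choose c hc using fun i => h1 i j hj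
  have h3 : ∀ z i, (GL.img P (h z)).rep i = c i * (GL.img P (h z)).rep j := by
    intro z i
    have h4 := (key (X i - C (c i) * X j) ⟨1, (isHomogeneous_X _ _).sub (by
      have := (isHomogeneous_C (Fin (n + 1)) (c i)).mul (isHomogeneous_X ℂ j)
      rwa [zero_add] at this)⟩).1 (by
        unfold val
        rw [map_sub, map_mul, aeval_X, aeval_X, aeval_C]
        exact sub_eq_zero.2 (hc i)) z
    unfold val at h4
    rw [map_sub, map_mul, aeval_X, aeval_X, aeval_C] at h4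
    exact sub_eq_zero.1 h4
  intro z w
  apply proj_ext
  have h5 : ∀ z, (GL.img P (h z)).rep = (GL.img P (h z)).rep j • c := by
    intro z
    funext i
    rw [h3 z i, Pi.smul_apply, smul_eq_mul, mul_comm]
  have h6 : ∀ z, (GL.img P (h z)).rep j ≠ 0 := by
    intro z h0
    apply (GL.img P (h z)).rep_nonzero
    rw [h5 z, h0, zero_smul]
  rw [h5 z, h5 w, Phi_smul (h6 z), Phi_smul (h6 w)]

end Pool.Agent.L7h90.GL
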