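import Pool.Agent.L7h90.GL.Dif
import Pool.Agent.N155.L.Ell1

/-! Pencils with multiple fibres give symmetric differentials. -/

set_option autoImplicit false

open FF Pool.Agent.W602.GT Pool.Agent.W603.LV

namespace Pool.Agent.L7h90.GL

open Pool.Agent.N155 (SymD ge_logder)

variable {K : Type} [Field K] [Algebra ℂ K]

/-- The surfaces with function field `K` have a pencil, given by the rational function `a`, all the
components of the fibre over `s` having multiplicity at least `r s`, for the points `s` of a finite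
set `S`, such that the degree `-2 + ∑ (1 - 1 / r s)` of the orbifold canonical divisor of the base
is not negative. -/
def MultiplePencil (K : Type) [Field K] [Algebra ℂ K] : Prop :=
  ∃ (a : K) (S : Finset ℂ) (r : ℂ → ℕ), Transcendental ℂ a ∧ (∀ s ∈ S, 1 ≤ r s) ∧
    (∀ v : Place ℂ K, Divisorial 2 v → ∀ s ∈ S, 0 < v.ord (a - algebraMap ℂ K s) →
      (r s : ℤ) ≤ v.ord (a - algebraMap ℂ K s)) ∧
    2 ≤ ∑ s ∈ S, (1 - 1 / (r s : ℚ))

theorem ord_der_ge (v : Place ℂ K) {D : Derivation ℂ K K} (hD : DerReg v D) {x : K} (hx : x ≠ 0)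
    (hDx : D x ≠ 0) : v.ord x - 1 ≤ v.ord (D x) := by
  rcases ge_logder v hD hx with h | h
  · exact absurd (by
      rw [div_eq_zero_iff] at h
      exact h.resolve_right hx) hDx
  · rw [v.ord_div hDx hx] at h
    omega

theorem ord_sub_const (v : Place ℂ K) {a : K} (ha : Transcendental ℂ a) (s : ℂ)
    (h : v.ord a < 0) : v.ord (a - algebraMap ℂ K s) = v.ord a := by
  have ha0 : a ≠ 0 := by
    rintro rfl
    exact ha (isAlgebraic_zero)
  by_cases hs : s = 0
  · rw [hs, map_zero, sub_zero]
  · have h1 := v.ord_const (c := -s) (neg_ne_zero.2 hs)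
    have h2 := (v.ord_add_eq (f := a) (g := algebraMap ℂ K (-s)) ha0
      (by rw [Ne, map_eq_zero]; exact neg_ne_zero.2 hs) (by omega)).2
    rw [map_neg, ← sub_eq_add_neg] at h2
    exact h2

theorem exact_of_pencil (h : MultiplePencil K) : ExactProduct K := by
  classical
  obtain ⟨a, S, r, ha, hr, hmult, hsum⟩ := h
  have ha0 : a ≠ 0 := by
    rintro rfl
    exact ha (isAlgebraic_zero)
  have hne : ∀ s : ℂ, a - algebraMap ℂ K s ≠ 0 := by
    intro s h0
    apply ha
    rw [sub_eq_zero.1 h0]
    exact isAlgebraic_algebraMap s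
  set N : ℕ := ∏ s ∈ S, r s with hN
  have hNpos : 0 < N := Finset.prod_pos fun s hs => hr s hs
  have hdvd : ∀ s ∈ S, r s ∣ N := fun s hs => Finset.dvd_prod_of_mem _ hs
  set e : ℂ → ℤ := fun s => (N : ℤ) - ((N / r s : ℕ) : ℤ) with he
  have hmul : ∀ s ∈ S, ((N / r s : ℕ) : ℤ) * (r s : ℤ) = N := by
    intro s hs
    exact_mod_cast Nat.div_mul_cancel (hdvd s hs)
  have he0 : ∀ s ∈ S, 0 ≤ e s := by
    intro s hs
    have h1 : N / r s ≤ N := Nat.div_le_self _ _
    rw [he]
    beta_reduce
    omega
  have hesum : 2 * (N : ℤ) ≤ ∑ s ∈ S, e s := by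
    have h1 : ∑ s ∈ S, (e s : ℚ) = N * ∑ s ∈ S, (1 - 1 / (r s : ℚ)) := by
      rw [Finset.mul_sum]
      refine Finset.sum_congr rfl fun s hs => ?_
      have hrs : (r s : ℚ) ≠ 0 := by
        have := hr s hs
        positivity
      have h2 : (((N / r s : ℕ) : ℤ) : ℚ) * (r s : ℚ) = N := by exact_mod_cast hmul s hs
      rw [he]
      beta_reduce
      push_cast
      push_cast at h2
      field_simp
      linear_combination -h2
    have h2 : 2 * (N : ℚ) ≤ ∑ s ∈ S, (e s : ℚ) := by
      rw [h1]
      have : (0 : ℚ) ≤ N := by positivity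
      nlinarith
    exact_mod_cast h2
  set h : K := ∏ s ∈ S, (a - algebraMap ℂ K s) ^ (-(e s)) with hh
  have hh0 : h ≠ 0 := Finset.prod_ne_zero_iff.2 fun s _ => zpow_ne_zero _ (hne s)
  have hord : ∀ v : Place ℂ K, v.ord h = - ∑ s ∈ S, e s * v.ord (a - algebraMap ℂ K s) := by
    intro v
    have h1 : ∀ T : Finset ℂ, v.ord (∏ s ∈ T, (a - algebraMap ℂ K s) ^ (-(e s))) =
        - ∑ s ∈ T, e s * v.ord (a - algebraMap ℂ K s) := by
      intro T
      induction T using Finset.induction_on with
      | empty => simp [v.ord_one]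
      | insert s T hs ih =>
        rw [Finset.prod_insert hs, Finset.sum_insert hs, v.ord_mul (zpow_ne_zero _ (hne s))
          (Finset.prod_ne_zero_iff.2 fun t _ => zpow_ne_zero _ (hne t)), ih, v.ord_zpow]
        ring
    exact h1 S
  refine ⟨K, inferInstance, inferInstance, inferInstance, inferInstance, 1, N,
    fun _ => ⟨N, 1, fun _ => h, fun _ _ => a⟩, fun _ => ⟨0, 1, fun _ => 1, fun _ l => l.elim0⟩, h,
    fun _ => a, inferInstance, fun _ => ⟨hNpos, ?_⟩, hh0, fun _ => ha, fun D => ?_⟩
  · intro v hv D hD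
    have h1 : (⟨N, 1, fun _ => h, fun _ _ => a⟩ : SymD K).app D = h * D a ^ N := by
      unfold SymD.app
      rw [Fin.sum_univ_one]
      change h * ∏ _l : Fin N, D a = _
      rw [Finset.prod_const, Finset.card_univ, Fintype.card_fin]
    rw [h1]
    by_cases hDa : D a = 0
    · rw [hDa, zero_pow hNpos.ne', mul_zero]
      exact v.reg_zero
    right
    rw [v.ord_mul hh0 (pow_ne_zero _ hDa), v.ord_pow, hord]
    have hDs : ∀ s : ℂ, D (a - algebraMap ℂ K s) = D a := by
      intro s
      rw [map_sub, D.map_algebraMap, sub_zero]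
    rcases lt_or_ge (v.ord a) 0 with hneg | hpos
    · have h2 : ∑ s ∈ S, e s * v.ord (a - algebraMap ℂ K s) = (∑ s ∈ S, e s) * v.ord a := by
        rw [Finset.sum_mul]
        refine Finset.sum_congr rfl fun s _ => ?_
        rw [ord_sub_const v ha s hneg]
      rw [h2]
      have h3 := ord_der_ge v hD ha0 hDa
      have hN0 : (0 : ℤ) < N := by exact_mod_cast hNpos
      nlinarith
    · by_cases hs : ∃ s ∈ S, 0 < v.ord (a - algebraMap ℂ K s)
      · obtain ⟨s, hsS, hs0⟩ := hs
        have h2 : ∀ t ∈ S, t ≠ s → e t * v.ord (a - algebraMap ℂ K t) = 0 := by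
          intro t _ hts
          have h3 := v.ord_const (c := s - t) (sub_ne_zero.2 (Ne.symm hts))
          have h4 := (v.ord_add_eq (f := algebraMap ℂ K (s - t)) (g := a - algebraMap ℂ K s)
            (by rw [Ne, map_eq_zero]; exact sub_ne_zero.2 (Ne.symm hts)) (hne s) (by omega)).2
          have h5 : algebraMap ℂ K (s - t) + (a - algebraMap ℂ K s) = a - algebraMap ℂ K t := by
            rw [map_sub]
            ring
          rw [h5, h3] at h4
          rw [h4, mul_zero]
        rw [Finset.sum_eq_single_of_mem s hsS h2]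
        have h3 := ord_der_ge v hD (hne s) (by rw [hDs]; exact hDa)
        rw [hDs] at h3
        have h4 := hmult v hv s hsS hs0
        have h5 := hmul s hsS
        have hN0 : (0 : ℤ) < N := by exact_mod_cast hNpos
        have h6 : (0 : ℤ) ≤ ((N / r s : ℕ) : ℤ) := by positivity
        have h7 : e s = (N : ℤ) - ((N / r s : ℕ) : ℤ) := rfl
        rw [h7]
        set m := v.ord (a - algebraMap ℂ K s)
        set q : ℤ := ((N / r s : ℕ) : ℤ)
        have h8 : (N : ℤ) * (m - 1) ≤ N * v.ord (D a) := mul_le_mul_of_nonneg_left h3 hN0.le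
        have h9 : (N : ℤ) ≤ q * m := by
          rw [← h5]
          exact mul_le_mul_of_nonneg_left h4 h6
        nlinarith
      · push Not at hs
        have h2 : ∀ s ∈ S, e s * v.ord (a - algebraMap ℂ K s) ≤ 0 := fun s hsS =>
          mul_nonpos_of_nonneg_of_nonpos (he0 s hsS) (hs s hsS)
        have h3 := Finset.sum_nonpos h2
        have h4 : v.Reg (D a) := hD a (Or.inr hpos)
        have h5 := (v.reg_iff hDa).1 h4
        have h6 : (0 : ℤ) ≤ N * v.ord (D a) := mul_nonneg (by positivity) h5
        linarith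
  · rw [Fin.sum_univ_one]
    unfold SymD.val onExt
    simp

end Pool.Agent.L7h90.GL
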