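import Pool.Agent.L7h90.GL.Two

/-! Positivity of the 2-forms of a smooth surface of general type. -/

set_option autoImplicit false

open Filter Topology Set Metric MvPolynomial FF

namespace Pool.Agent.L7h90.GL

open Pool.Agent.N155 (Frac fr ext0)
open Pool.Agent.Y190.OP Pool.Agent.W602.GT Pool.Agent.TH143.GT
open Pool.Agent.N154.GG (SmoothVariety)
open Pool.Agent.N154.TB

variable {n m : ℕ} {ι : Type} {F : ι → MvPolynomial (Fin (n + 1)) ℂ} {K : Type} [Field K]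
  [Algebra ℂ K] {y : Fin (n + 1) → K}

/-- graphs of functions of two variables -/
theorem graph_two {X : Set (Fin (n + 1) → ℂ)} {x : Fin (n + 1) → ℂ}
    (h : Pool.Agent.N154.GG.GraphAt X 2 x) : Pool.Agent.N155.GraphAt X x := by
  obtain ⟨i, J, U, Ψ, hx, hU, hxU, hΨ, hΨX, hnear⟩ := h
  have hv : ∀ a : Fin 2 → ℂ, ![a 0, a 1] = a := by
    intro a
    funext l
    fin_cases l <;> rfl
  have hc : Continuous (fun z : ℂ × ℂ => (![z.1, z.2] : Fin 2 → ℂ)) := by fun_prop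
  refine ⟨i, J 0, J 1, (fun z : ℂ × ℂ => (![z.1, z.2] : Fin 2 → ℂ)) ⁻¹' U, fun z => Ψ ![z.1, z.2],
    hx, hU.preimage hc, ?_, ?_, ?_, ?_⟩
  · change (![x (J 0) / x i, x (J 1) / x i] : Fin 2 → ℂ) ∈ U
    have h1 := hv (fun k => x (J k) / x i)
    beta_reduce at h1
    rw [h1]
    exact hxU
  · intro z hz
    have h1 : AnalyticAt ℂ (fun z : ℂ × ℂ => (![z.1, z.2] : Fin 2 → ℂ)) z := by
      rw [analyticAt_pi_iff]
      intro l
      fin_cases l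
      · exact analyticAt_fst
      · exact analyticAt_snd
    exact AnalyticAt.comp (g := Ψ) (f := fun z : ℂ × ℂ => (![z.1, z.2] : Fin 2 → ℂ)) (hΨ _ hz) h1
  · intro z hz
    obtain ⟨h1, h2, h3⟩ := hΨX _ hz
    exact ⟨h1, h2, h3 0, h3 1⟩
  · filter_upwards [hnear] with u hu huX
    have h1 := hu huX
    have h2 := hv (fun k => u (J k) / u i)
    beta_reduce at h2
    rw [← h2] at h1
    exact h1

/-- **The 2-forms of a smooth surface of general type.** -/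
theorem exists_twoForms (hX : SmoothVariety F 2 y) (hgt : GeneralType ℂ K 2) :
    ∃ (G : MvPolynomial (Fin (n + 1)) ℂ)
      (η : (Fin (n + 1) → ℂ) → (Fin (n + 1) → ℂ) → (Fin (n + 1) → ℂ) → ℂ), IsForm G ∧
      val y G ≠ 0 ∧ ∀ (L : Submodule ℤ (Fin m → ℂ)) (α : (Fin (n + 1) → ℂ) → (Fin m → ℂ) ⧸ L),
        TwoForms (Cone F) (Zeros fun _ : Unit => G) 2 α (fun _ : Unit => 1) (fun _ : Unit => η) := by
  classical
  let R : ∀ h : K, Frac y h := fr hX.sub.gen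
  have hVC : ∀ x, x ∈ VarPts ℂ y → x ∈ Cone F := fun x hx =>
    ⟨hx.1, fun a => hx.2 _ (hX.form a) (hX.sub.mem a)⟩
  have hCV : ∀ x, x ∈ Cone F → x ∈ VarPts ℂ y := fun x hx => hX.irred hx
  obtain ⟨o, ho⟩ := Function.ne_iff.1 hX.sub.ne
  have ho' : y o ≠ 0 := ho
  obtain ⟨N, A, hN, hA, ⟨D0, hD0⟩, -, hreg⟩ := kodaira hgt y o
  have hdim := hX.sub.dim
  have hex : ∀ x ∈ VarPts ℂ y, ∃ ρ : Rp y A o, ρ.At x := fun x hx =>
    exists_rp hX.sub hX.form hX.irred (fun x hx => graph_two (hX.smooth x hx)) R hreg hx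
  obtain ⟨η, hη, htw⟩ := exists_eta N hex
  by_cases hne : (Cone F).Nonempty
  swap
  · rw [Set.not_nonempty_iff_eq_empty] at hne
    refine ⟨X o, η, ⟨1, isHomogeneous_X _ _⟩, by rw [Pool.Agent.N155.val_X']; exact ho',
      fun L α => ⟨?_, ⟨?_, fun _ => le_rfl, ?_⟩, ⟨?_, ?_⟩, ?_⟩⟩
    · intro x hx
      rw [hne] at hx
      exact absurd hx (Set.notMem_empty x)
    · intro q x hx
      rw [hne] at hx
      exact absurd hx (Set.notMem_empty x)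
    · intro q hq
      exact absurd hq one_ne_zero
    · intro q U Ψ hU hΨ hΨX p hp
      have := hΨX p.1 hp.1
      rw [hne] at this
      exact absurd this (Set.notMem_empty _)
    · intro x hx
      rw [hne] at hx
      exact absurd hx (Set.notMem_empty x)
    · intro U Ψ W hU hΨ hW hΨX z hz
      have := (hΨX z hz).1
      rw [hne] at this
      exact absurd this (Set.notMem_empty _)
  obtain ⟨x1, hx1⟩ := hne
  obtain ⟨ρ1, hρ1⟩ := hex x1 (hCV x1 hx1)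
  have ha := ρ1.ch.yi ⟨_, hρ1.mem⟩
  have hA1 : A ρ1.E ≠ 0 := Pool.Agent.N155.pluri_ne hA ρ1.dual hD0
  refine ⟨zform R A o ρ1.i ρ1.E, η, zform_form R _ _, zform_ne R ha ho' hA1, fun L α =>
    ⟨fun x hx _ => hX.smooth x hx, ⟨?_, fun _ => le_rfl, fun q hq => absurd hq one_ne_zero⟩,
      ⟨?_, fun x hx hg => absurd (hX.smooth x hx) hg⟩, ?_⟩⟩
  · intro q x hx v w c e f hc
    rw [pow_one]
    exact htw x (hCV x hx) v w c e f hc
  · intro q U Ψ hU hΨ hΨX p hp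
    set x0 := Ψ p.1 with hx0
    have hp1 : p.1 ∈ U := hp.1
    obtain ⟨ρ, hρ⟩ := hex x0 (hCV _ (hΨX p.1 hp1))
    have hΨan := hΨ p.1 hp1
    have hΨ1 : AnalyticAt ℂ (fun q : (Fin 2 → ℂ) × (Fin 2 → ℂ) × (Fin 2 → ℂ) => Ψ q.1) p :=
      AnalyticAt.fun_comp (g := Ψ) hΨan analyticAt_fst
    have hev : ∀ᶠ q : (Fin 2 → ℂ) × (Fin 2 → ℂ) × (Fin 2 → ℂ) in 𝓝 p, q.1 ∈ U ∧ ρ.At (Ψ q.1) := by
      have h1 : ∀ᶠ q : (Fin 2 → ℂ) × (Fin 2 → ℂ) × (Fin 2 → ℂ) in 𝓝 p, q.1 ∈ U :=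
        continuous_fst.continuousAt.eventually (hU.mem_nhds hp1)
      exact h1.and (hΨ1.continuousAt.eventually hρ.ev)
    have heq : (fun q : (Fin 2 → ℂ) × (Fin 2 → ℂ) × (Fin 2 → ℂ) =>
        η (Ψ q.1) (fderiv ℂ Ψ q.1 q.2.1) (fderiv ℂ Ψ q.1 q.2.2)) =ᶠ[𝓝 p] fun q =>
        ρ.V N (Ψ q.1) (fderiv ℂ Ψ q.1 q.2.1) (fderiv ℂ Ψ q.1 q.2.2) := by
      filter_upwards [hev] with q hq
      have hqV := hCV _ (hΨX q.1 hq.1)
      obtain ⟨ρ', hρ', hv⟩ := hη _ hqV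
      rw [hv]
      have hm : ∀ᶠ z in 𝓝 q.1, Ψ z ∈ VarPts ℂ y := by
        filter_upwards [hU.mem_nhds hq.1] with z hz
        exact hCV _ (hΨX z hz)
      have hd := (hΨ q.1 hq.1).differentiableAt
      obtain ⟨u, hu⟩ := hq.2.tan hd hm q.2.1
      obtain ⟨u', hu'⟩ := hq.2.tan hd hm q.2.2
      exact Rp.V_eq hdim R hA hqV hρ' hq.2 hu hu'
    refine AnalyticAt.congr ?_ heq.symm
    have h3 : AnalyticAt ℂ (fun q : (Fin 2 → ℂ) × (Fin 2 → ℂ) × (Fin 2 → ℂ) =>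
        fderiv ℂ Ψ q.1) p := AnalyticAt.fun_comp (g := fderiv ℂ Ψ) hΨan.fderiv analyticAt_fst
    have h4 : ∀ g : (Fin 2 → ℂ) × (Fin 2 → ℂ) × (Fin 2 → ℂ) → (Fin 2 → ℂ), AnalyticAt ℂ g p →
        AnalyticAt ℂ (fun q => fderiv ℂ Ψ q.1 (g q)) p := fun g hg =>
      AnalyticAt.fun_comp (g := fun q : ((Fin 2 → ℂ) →L[ℂ] (Fin (n + 1) → ℂ)) ×
        (Fin 2 → ℂ) => (ContinuousLinearMap.id ℂ _ q.1) q.2)
        ((ContinuousLinearMap.id ℂ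
          ((Fin 2 → ℂ) →L[ℂ] (Fin (n + 1) → ℂ))).analyticAt_bilinear _) (h3.prod hg)
    have h5 := h4 (fun q => q.2.1) (AnalyticAt.fun_comp (g := Prod.fst) analyticAt_fst analyticAt_snd)
    have h6 := h4 (fun q => q.2.2) (AnalyticAt.fun_comp (g := Prod.snd) analyticAt_snd analyticAt_snd)
    have c1 : ∀ l, AnalyticAt ℂ (fun q : (Fin 2 → ℂ) × (Fin 2 → ℂ) × (Fin 2 → ℂ) => Ψ q.1 l) p :=
      analyticAt_pi_iff.1 hΨ1
    have c2 : ∀ l, AnalyticAt ℂ (fun q : (Fin 2 → ℂ) × (Fin 2 → ℂ) × (Fin 2 → ℂ) =>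
        fderiv ℂ Ψ q.1 q.2.1 l) p := analyticAt_pi_iff.1 h5
    have c3 : ∀ l, AnalyticAt ℂ (fun q : (Fin 2 → ℂ) × (Fin 2 → ℂ) × (Fin 2 → ℂ) =>
        fderiv ℂ Ψ q.1 q.2.2 l) p := analyticAt_pi_iff.1 h6
    have hxi : Ψ p.1 ρ.i ≠ 0 := hρ.ne
    unfold Rp.V det3
    refine ((?_ : AnalyticAt ℂ _ p).mul ((c1 ρ.i).inv hxi)).mul (AnalyticAt.pow (AnalyticAt.div
      ?_ ((c1 ρ.i).pow 3) (pow_ne_zero _ hxi)) N)
    · have c4 : AnalyticAt ℂ (fun q : (Fin 2 → ℂ) × (Fin 2 → ℂ) × (Fin 2 → ℂ) =>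
          pr ρ.i ρ.j ρ.k (Ψ q.1)) p :=
        ((c1 ρ.j).div (c1 ρ.i) hxi).prod ((c1 ρ.k).div (c1 ρ.i) hxi)
      exact AnalyticAt.comp (g := ext0 ρ.U ρ.ξ.1) (f := fun q : (Fin 2 → ℂ) × (Fin 2 → ℂ) ×
        (Fin 2 → ℂ) => pr ρ.i ρ.j ρ.k (Ψ q.1)) (ρ.ξ.2 _ hρ.mem) c4
    · exact (((c1 _).mul (((c2 _).mul (c3 _)).sub ((c2 _).mul (c3 _)))).sub
        ((c1 _).mul (((c2 _).mul (c3 _)).sub ((c2 _).mul (c3 _))))).add
        ((c1 _).mul (((c2 _).mul (c3 _)).sub ((c2 _).mul (c3 _))))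
  · intro U Ψ W hU hΨ hW hΨX z hz hzS a b hli _
    have hzV := hCV _ (hΨX z hz).1
    obtain ⟨ρ, hρ, hv⟩ := hη _ hzV
    refine ⟨(), ?_⟩
    beta_reduce
    rw [hv]
    have hm : ∀ᶠ z' in 𝓝 z, Ψ z' ∈ VarPts ℂ y := by
      filter_upwards [hU.mem_nhds hz] with z' hz'
      exact hCV _ (hΨX z' hz').1
    have hd := (hΨ z hz).differentiableAt
    obtain ⟨u, hu⟩ := hρ.tan hd hm a
    obtain ⟨u', hu'⟩ := hρ.tan hd hm b
    refine hρ.V_ne hdim R hA hzV ha ρ1.dual (fun h0 => hzS fun _ => ?_) hu hu' hli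
    rw [Pool.Agent.N155.val_eval]
    exact h0

end Pool.Agent.L7h90.GL
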