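import Pool.Agent.L7h90.GL.Chart2

/-! Local holomorphic coefficients of twisted pluricanonical forms. -/

set_option autoImplicit false

open Filter Topology Set Metric MvPolynomial FF

namespace Pool.Agent.L7h90.GL

open Pool.Agent.N155 Pool.Agent.Y190.OP Pool.Agent.W602.GT Pool.Agent.TH143.GT

variable {n : ℕ} {K : Type} [Field K] [Algebra ℂ K] {y : Fin (n + 1) → K}
  {A : (Fin 2 → Derivation ℂ K K) → K} {o : Fin (n + 1)}

/-- a local holomorphic coefficient of the section `A / y o` -/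
structure Rp (y : Fin (n + 1) → K) (A : (Fin 2 → Derivation ℂ K K) → K) (o : Fin (n + 1)) where
  i : Fin (n + 1)
  j : Fin (n + 1)
  k : Fin (n + 1)
  U : Set (ℂ × ℂ)
  Ψ : ℂ × ℂ → Fin (n + 1) → ℂ
  ch : Ch y i j k U Ψ
  E : Fin 2 → Derivation ℂ K K
  dual : Dual ![y j / y i, y k / y i] E
  ξ : AnU ch.op
  d : ℕ
  Q1 : MvPolynomial (Fin (n + 1)) ℂ
  Q0 : MvPolynomial (Fin (n + 1)) ℂ
  hQ1 : Q1.IsHomogeneous d
  hQ0 : Q0.IsHomogeneous d
  hn : val y Q0 ≠ 0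
  eq : A E * (y i / y o) = val y Q1 / val y Q0
  rel : aeval ch.psi Q1 = ξ * aeval ch.psi Q0

/-- the affine coordinates of a point -/
noncomputable def pr (i j k : Fin (n + 1)) (x : Fin (n + 1) → ℂ) : ℂ × ℂ := (x j / x i, x k / x i)

/-- the chart contains the point -/
structure Rp.At (ρ : Rp y A o) (x : Fin (n + 1) → ℂ) : Prop where
  ne : x ρ.i ≠ 0
  mem : pr ρ.i ρ.j ρ.k x ∈ ρ.U
  near : ∀ᶠ u in 𝓝 x, u ∈ VarPts ℂ y → u = u ρ.i • ρ.Ψ (pr ρ.i ρ.j ρ.k u)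

variable {ι : Type} {F : ι → MvPolynomial (Fin (n + 1)) ℂ}

theorem Ch.mono {i j k : Fin (n + 1)} {U : Set (ℂ × ℂ)} {Ψ : ℂ × ℂ → Fin (n + 1) → ℂ}
    (h : Ch y i j k U Ψ) {U' : Set (ℂ × ℂ)} (hU' : IsOpen U') (hs : U' ⊆ U) : Ch y i j k U' Ψ :=
  ⟨hU', fun z hz => h.an z (hs hz), fun z hz => h.mem z (hs hz), fun z hz => h.i1 z (hs hz),
    fun z hz => h.j1 z (hs hz), fun z hz => h.k1 z (hs hz)⟩

/-- **Local coefficients exist.** -/
theorem exists_rp (hy : SubVar F K 2 y) (hF : ∀ i, IsForm (F i))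
    (hirr : Cone F ⊆ VarPts ℂ y) (hs : ∀ x ∈ Cone F, GraphAt (Cone F) x) (R : ∀ h : K, Frac y h)
    (hreg : ∀ l, ∀ v : Place ℂ K, Divisorial 2 v → RegAt v (fun D => A D * (y l / y o)))
    {x0 : Fin (n + 1) → ℂ} (hx0 : x0 ∈ VarPts ℂ y) : ∃ ρ : Rp y A o, ρ.At x0 := by
  classical
  have hVC : ∀ x, x ∈ VarPts ℂ y → x ∈ Cone F := fun x hx => ⟨hx.1, fun a => hx.2 _ (hF a) (hy.mem a)⟩
  obtain ⟨i, j, k, U, Ψ, hx0i, hU, hp0U, hΨ, hΨX, hnear⟩ := hs x0 (hVC x0 hx0)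
  have h : Ch y i j k U Ψ := ⟨hU, hΨ, fun z hz => hirr (hΨX z hz).1, fun z hz => (hΨX z hz).2.1,
    fun z hz => (hΨX z hz).2.2.1, fun z hz => (hΨX z hz).2.2.2⟩
  set p0 : ℂ × ℂ := (x0 j / x0 i, x0 k / x0 i) with hp0
  have hyi := h.yi ⟨p0, hp0U⟩
  have hbas := h.basis hy.dim ⟨p0, hp0U⟩
  choose E hE using fun a : Fin 2 => exists_der _ hbas (fun b => if a = b then (1 : K) else 0)
  have hdual : Dual ![y j / y i, y k / y i] E := ⟨hbas, hE⟩
  set q := A E * (y i / y o) with hqd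
  have hq : ∀ v : Place ℂ K, Divisorial 2 v → (∀ l, DerReg v (E l)) → v.Reg q :=
    fun v hv hE' => hreg i v hv E hE'
  set g1 : AnU h.op := aeval h.psi (R q).G1 with hg1
  set g0 : AnU h.op := aeval h.psi (R q).G0 with hg0
  have hinj : Function.Injective (algebraMap PS2 MM) := IsFractionRing.injective PS2 MM
  have hg0n : ¬ ∀ᶠ p in 𝓝 p0, ext0 U g0.1 p = 0 := h.not_zero hy.dim ⟨p0, hp0U⟩ ⟨_, (R q).h0⟩ (R q).hn
  obtain ⟨e, d, hed, hline⟩ := exists_dir' h.op hp0U hg0n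
  have hdvd : ∀ p : U, TT h.op p e d g0 ∣ TT h.op p e d g1 := by
    intro p
    obtain ⟨emb, hemb⟩ := Pool.Agent.N155.exists_emb
      (z := fun l => algebraMap PS2 MM (TT h.op p e d (h.psi l))) R
      (fun G hG => h.rel hy.dim p hed hG)
    have hzi : algebraMap PS2 MM (TT h.op p e d (h.psi i)) = 1 := by
      rw [h.psii, map_one, map_one]
    have hembx : ∀ l, emb (y l / y i) = algebraMap PS2 MM (TT h.op p e d (h.psi l)) := by
      intro l
      have h1 := hemb 1 (X l) (X i) (isHomogeneous_X _ _) (isHomogeneous_X _ _)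
        (by rw [val_X']; exact hyi)
      rw [val_X', val_X', val_X', val_X'] at h1
      rw [h1, hzi, div_one]
    obtain ⟨α, hα⟩ := formal_mem (M := MM) emb hdual
      (a := ![(p : ℂ × ℂ).1, (p : ℂ × ℂ).2]) (m := ![![e.1, d.1], ![e.2, d.2]])
      (by simpa using hed) (by
        intro l
        fin_cases l
        · change emb (y j / y i) = algebraMap PS2 MM (lin (p : ℂ × ℂ).1 e.1 d.1)
          rw [hembx, h.Tj]
        · change emb (y k / y i) = algebraMap PS2 MM (lin (p : ℂ × ℂ).2 e.2 d.2)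
          rw [hembx, h.Tk]) hq
    have h1 := hemb _ (R q).G1 (R q).G0 (R q).h1 (R q).h0 (R q).hn
    rw [← (R q).eq, hα, h.hvz, h.hvz] at h1
    have h2 : algebraMap PS2 MM (TT h.op p e d (aeval h.psi (R q).G0)) ≠ 0 := by
      intro h3
      apply (R q).hn
      exact (h.rel hy.dim p hed ⟨_, (R q).h0⟩).2 (by rw [h.hvz, h3])
    rw [eq_div_iff h2, ← map_mul] at h1
    exact ⟨α, by rw [mul_comm]; exact (hinj h1).symm⟩
  obtain ⟨ξ, hξ, hξe⟩ := quot_an h.op hp0U hed hline (g1 := g1) (fun p hp =>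
    order_of_dvd h.op ⟨p, hp⟩ e d (hdvd ⟨p, hp⟩))
  obtain ⟨U', hU's, hU'o, hpU'⟩ := _root_.eventually_nhds_iff.1
    ((hξ.eventually_analyticAt.and hξe).and (h.op.mem_nhds hp0U))
  have h' : Ch y i j k U' Ψ := h.mono hU'o fun z hz => (hU's z hz).2
  refine ⟨⟨i, j, k, U', Ψ, h', E, hdual, toA h'.op ξ (fun z hz => (hU's z hz).1.1), (R q).d,
    (R q).G1, (R q).G0, (R q).h1, (R q).h0, (R q).hn, (R q).eq, ?_⟩, hx0i, hpU', ?_⟩
  · apply Subtype.ext
    funext z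
    have h1 := (hU's z z.2).1.2
    have hzU : (z : ℂ × ℂ) ∈ U := (hU's z z.2).2
    rw [ext0_apply _ hzU, ext0_apply _ hzU] at h1
    have e1 : g1.1 ⟨z, hzU⟩ = eval (Ψ z) (R q).G1 := h.aeval_val _ ⟨z, hzU⟩
    have e0 : g0.1 ⟨z, hzU⟩ = eval (Ψ z) (R q).G0 := h.aeval_val _ ⟨z, hzU⟩
    change (aeval h'.psi (R q).G1 : AnU h'.op).1 z = ξ z * (aeval h'.psi (R q).G0 : AnU h'.op).1 z
    rw [h'.aeval_val, h'.aeval_val, ← e1, ← e0]
    exact h1
  · filter_upwards [hnear] with u hu huV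
    exact hu (hVC u huV)

end Pool.Agent.L7h90.GL
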