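import Pool.Agent.L7h90.GL.Irr
import Pool.Agent.L7h90.GL.Cov
import Pool.Agent.L7h90.GL.Bir

/-! Entire curves in surfaces a covering of whose normalisation has a map to an abelian variety. -/

set_option autoImplicit false

open Filter Topology Set Metric MvPolynomial FF LinearAlgebra.Projectivization

namespace Pool.Agent.L7h90.GL

open Pool.Agent.Y190.OP Pool.Agent.W602.GT
open Pool.Agent.N154.GG (SmoothVariety HolMap holP_of holMap_of projDist toProj toProj_Phi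
  Phi_rep_mk Phi_rep_toProj proj_ext)
open Pool.Agent.N154.TT (HolToTorus RiemannForm)
open Pool.Agent.N154.TB
open scoped LinearAlgebra.Projectivization

variable {n n₁ n' m : ℕ} {ι ι₁ ι' : Type} {F : ι → MvPolynomial (Fin (n + 1)) ℂ}
  {F₁ : ι₁ → MvPolynomial (Fin (n₁ + 1)) ℂ} {F' : ι' → MvPolynomial (Fin (n' + 1)) ℂ}
  {K K' : Type} [Field K] [Algebra ℂ K] [Field K'] [Algebra ℂ K'] {y : Fin (n + 1) → K}
  {y' : Fin (n' + 1) → K'} {P : Fin (n₁ + 1) → MvPolynomial (Fin (n' + 1)) ℂ}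
  {Q : Fin (n + 1) → MvPolynomial (Fin (n₁ + 1)) ℂ} {D : MvPolynomial (Fin (n + 1)) ℂ}

/-- `X' = {F' = 0}` is a smooth projective surface of general type with generic point `y'`, `P` is an
unramified covering `X' → X₁ = {F₁ = 0}`, and `Q` is a finite birational morphism from `X₁` to the
irreducible projective surface `X = {F = 0}` with generic point `y`, which may be singular. -/
structure Tower (F' : ι' → MvPolynomial (Fin (n' + 1)) ℂ) (y' : Fin (n' + 1) → K')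
    (P : Fin (n₁ + 1) → MvPolynomial (Fin (n' + 1)) ℂ) (F₁ : ι₁ → MvPolynomial (Fin (n₁ + 1)) ℂ)
    (Q : Fin (n + 1) → MvPolynomial (Fin (n₁ + 1)) ℂ) (D : MvPolynomial (Fin (n + 1)) ℂ)
    (F : ι → MvPolynomial (Fin (n + 1)) ℂ) (y : Fin (n + 1) → K) : Prop where
  smooth : SmoothVariety F' 2 y'
  general : GeneralType ℂ K' 2
  form₁ : ∀ i, IsForm (F₁ i)
  cov : Covering F' F₁ P
  bir : FiniteBirational F₁ F Q D
  formD : IsForm D
  D_ne : val y D ≠ 0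
  form : ∀ i, IsForm (F i)
  sub : SubVar F K 2 y
  irred : Cone F ⊆ VarPts ℂ y

theorem mem_cone_of_close (hF' : ∀ i, IsForm (F' i)) {p : ℙ ℂ (Fin (n' + 1) → ℂ)}
    (h : ∀ ε > 0, ∃ q : ℙ ℂ (Fin (n' + 1) → ℂ), q.rep ∈ Cone F' ∧ projDist p q < ε) :
    p.rep ∈ Cone F' := by
  have hcl : Phi p.rep ∈ TS (Cone F') := by
    rw [← (isCompact_TF hF').isClosed.closure_eq, Metric.mem_closure_iff]
    intro ε hε
    obtain ⟨q, hq, hd⟩ := h ε hε
    exact ⟨Phi q.rep, mem_TS hq, by rw [dist_eq_norm]; exact hd⟩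
  obtain ⟨x, hx, he⟩ := hcl
  obtain ⟨c, hc, hcx⟩ := Phi_inj hx.1 p.rep_nonzero he.symm
  rw [hcx]
  exact (cone_conic hF' x hx).2 c hc

variable (h : Tower F' y' P F₁ Q D F y)
include h

theorem Tower.lift {f : ℂ → ℙ ℂ (Fin (n + 1) → ℂ)} (hf : CurveIn (Cone F) f)
    (hfD : ∃ z, val (f z).rep D ≠ 0) :
    ∃ f', CurveIn (Cone F') f' ∧ ∀ z, f z = img Q (img P (f' z)) := by
  obtain ⟨f₁, hf₁, h1⟩ := h.bir.lift h.form h.form₁ h.formD hf hfD
  obtain ⟨f', hf', h2⟩ := h.cov.lift h.form₁ h.smooth.form hf₁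
  exact ⟨f', hf', fun z => by rw [h1 z, h2 z]⟩

theorem Tower.push {f' : ℂ → ℙ ℂ (Fin (n' + 1) → ℂ)} (hf' : CurveIn (Cone F') f')
    (hne : ¬ IsConst f') : CurveIn (Cone F) (fun z => img Q (img P (f' z))) ∧
      (¬ IsConst fun z => img Q (img P (f' z))) := by
  have h1 := h.cov.toMorphism.curve h.form₁ hf'
  have h2 := h.cov.nonconst h.form₁ h.smooth.form hf' hne
  exact ⟨h.bir.toMorphism.curve h.form h1, h.bir.nonconst h.form h1 h2⟩

theorem Tower.push_ell {f' : ℂ → ℙ ℂ (Fin (n' + 1) → ℂ)} (hf' : CurveIn (Cone F') f')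
    (hne : ¬ IsConst f') (hc : EllipticClosure f') :
    EllipticClosure fun z => img Q (img P (f' z)) := by
  have h1 := h.cov.toMorphism.curve h.form₁ hf'
  have h2 := h.cov.nonconst h.form₁ h.smooth.form hf' hne
  exact (hc.img h.cov.toMorphism hf'.2 h2).img h.bir.toMorphism h1.2
    (h.bir.nonconst h.form h1 h2)

theorem Tower.cont {q : ℙ ℂ (Fin (n' + 1) → ℂ)} (hq : q.rep ∈ Cone F') {ε : ℝ} (hε : 0 < ε) :
    ∃ δ > 0, ∀ p : ℙ ℂ (Fin (n' + 1) → ℂ), p.rep ∈ Cone F' → projDist q p < δ →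
      projDist (img Q (img P q)) (img Q (img P p)) < ε := by
  have h1 := h.cov.toMorphism.img_mem h.form₁ hq
  obtain ⟨δ, hδ, h2⟩ := h.bir.toMorphism.cont h1 hε
  obtain ⟨δ', hδ', h3⟩ := h.cov.toMorphism.cont hq hδ
  exact ⟨δ', hδ', fun p hp hpq => h2 _ (h.cov.toMorphism.img_mem h.form₁ hp) (h3 p hp hpq)⟩

theorem Tower.degenerate {f : ℂ → ℙ ℂ (Fin (n + 1) → ℂ)} (hf : CurveIn (Cone F) f)
    (hne : ¬ IsConst f) (hfD : ∀ z, val (f z).rep D = 0) : EllipticClosure f :=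
  elliptic_of_degenerate h.sub h.irred (holP_of hf.1) hf.2 (nonconst_pair hne) h.formD h.D_ne hfD

theorem Tower.curve {Λ : Submodule ℤ (Fin m → ℂ)} [DiscreteTopology Λ] [IsZLattice ℝ Λ]
    {H : (Fin m → ℂ) → (Fin m → ℂ) → ℂ} (hH : RiemannForm Λ H)
    {α : (Fin (n' + 1) → ℂ) → (Fin m → ℂ) ⧸ Λ} (hα : HolToTorus (Cone F') Λ α)
    (hfib : ThinFibres F' y' α)
    {f : ℂ → ℙ ℂ (Fin (n + 1) → ℂ)} (hf : CurveIn (Cone F) f) (hne : ¬ IsConst f) :
    ∃ g, CurveIn (Cone F) g ∧ ¬ IsConst g ∧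
      (∀ z, ∀ ε > 0, ∃ w, projDist (g z) (f w) < ε) ∧ EllipticClosure g := by
  by_cases hD : ∀ z, val (f z).rep D = 0
  · refine ⟨f, hf, hne, fun z ε hε => ⟨z, ?_⟩, h.degenerate hf hne hD⟩
    change ‖Phi (f z).rep - Phi (f z).rep‖ < ε
    rwa [sub_self, norm_zero]
  · push Not at hD
    obtain ⟨f', hf', hff⟩ := h.lift hf hD
    have hne' : ¬ IsConst f' := fun hc => hne fun z w => by rw [hff z, hff w, hc z w]
    obtain ⟨g', hg', hgn, hcl, hge⟩ := irregular_curve h.smooth h.general hH hα hfib hf' hne'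
    obtain ⟨h1, h2⟩ := h.push hg' hgn
    refine ⟨_, h1, h2, fun z ε hε => ?_, h.push_ell hg' hgn hge⟩
    obtain ⟨δ, hδ, h3⟩ := h.cont (hg'.2 z) hε
    obtain ⟨w, hw⟩ := hcl z δ hδ
    exact ⟨w, by rw [hff w]; exact h3 _ (hf'.2 w) hw⟩

theorem Tower.closed (m : ℕ) :
    ∃ G : MvPolynomial (Fin (n' + 1)) ℂ, IsForm G ∧ val y' G ≠ 0 ∧
      ∀ (Λ : Submodule ℤ (Fin m → ℂ)) [DiscreteTopology Λ] [IsZLattice ℝ Λ]
        (H : (Fin m → ℂ) → (Fin m → ℂ) → ℂ) (_ : RiemannForm Λ H)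
        (α : (Fin (n' + 1) → ℂ) → (Fin m → ℂ) ⧸ Λ) (_ : HolToTorus (Cone F') Λ α)
        (_ : ThinFibres F' y' α) (V : Set (ℙ ℂ (Fin (n + 1) → ℂ))), (∀ p ∈ V, p.rep ∈ Cone F) →
        IsClosedProj V →
        (∃ g, CurveIn (Cone F) g ∧ ¬ IsConst g ∧ (∀ z, g z ∈ V) ∧ EllipticClosure g ∧
          ((∀ z, val (g z).rep D = 0) ∨ ∃ g', CurveIn (Cone F') g' ∧
            (∀ z, g z = img Q (img P (g' z))) ∧
            ((∀ z w, α (g' z).rep = α (g' w).rep) ∨ ∀ z, val (g' z).rep G = 0))) ∨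
        ∃ T : Set (ℂ → ℙ ℂ (Fin (n + 1) → ℂ)), T.Finite ∧
          (∀ g ∈ T, CurveIn (Cone F) g ∧ (∀ z, g z ∈ V) ∧ Elliptic g ∧ EllipticClosure g) ∧
          ∀ f, CurveIn (Cone F) f → (∀ z, f z ∈ V) → IsConst f ∨ Factors T f := by
  obtain ⟨G, hG, hGy, hmain⟩ := irregular_closed h.smooth h.general m
  refine ⟨G, hG, hGy, fun Λ _ _ H hH α hα hfib V hVX hVc => ?_⟩
  set V' : Set (ℙ ℂ (Fin (n' + 1) → ℂ)) := {q | q.rep ∈ Cone F' ∧ img Q (img P q) ∈ V} with hV'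
  have hV'c : IsClosedProj V' := by
    intro p hp
    have hpc : p.rep ∈ Cone F' := mem_cone_of_close h.smooth.form fun ε hε => by
      obtain ⟨q, hq, hd⟩ := hp ε hε
      exact ⟨q, hq.1, hd⟩
    refine ⟨hpc, hVc _ fun ε hε => ?_⟩
    obtain ⟨δ, hδ, h1⟩ := h.cont hpc hε
    obtain ⟨q, hq, hd⟩ := hp δ hδ
    exact ⟨_, hq.2, h1 q hq.1 hd⟩
  by_cases hDV : ∃ f, CurveIn (Cone F) f ∧ (∀ z, f z ∈ V) ∧ ¬ IsConst f ∧
      ∀ z, val (f z).rep D = 0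
  · obtain ⟨f, hf, hfV, hne, hfD⟩ := hDV
    exact Or.inl ⟨f, hf, hne, hfV, h.degenerate hf hne hfD, Or.inl hfD⟩
  push Not at hDV
  rcases hmain Λ H hH α hα hfib V' (fun p hp => hp.1) hV'c with
    ⟨g', hg', hgn, hgV, hor, hge⟩ | ⟨T, hT, hT2, hT3⟩
  · obtain ⟨h1, h2⟩ := h.push hg' hgn
    exact Or.inl ⟨_, h1, h2, fun z => (hgV z).2, h.push_ell hg' hgn hge,
      Or.inr ⟨g', hg', fun _ => rfl, hor⟩⟩
  · right
    have hTn : ∀ g ∈ T, ¬ IsConst g := by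
      intro g hg hc
      obtain ⟨-, -, -, ⟨v, w, hv, hvw⟩, -⟩ := hT2 g hg
      have h5 : ∀ z : ℂ, (Submodule.Quotient.mk (z • v + w) : (Fin m → ℂ) ⧸ Λ) =
          Submodule.Quotient.mk ((0 : ℂ) • v + w) := by
        intro z
        rw [← hvw z, hc z 0, hvw 0]
      exact mk_line_ne hv h5
    refine ⟨(fun g z => img Q (img P (g z))) '' T, hT.image _, ?_, fun f hf hfV => ?_⟩
    · rintro _ ⟨g, hg, rfl⟩
      obtain ⟨k1, k2, ⟨L, hL⟩, -, k5⟩ := hT2 g hg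
      exact ⟨(h.push k1 (hTn g hg)).1, fun z => (k2 z).2, ⟨L, fun l hl z => by
        beta_reduce
        rw [hL l hl z]⟩, h.push_ell k1 (hTn g hg) k5⟩
    · by_cases hne : IsConst f
      · exact Or.inl hne
      · right
        obtain ⟨f', hf', hff⟩ := h.lift hf (hDV f hf hfV hne)
        have hne' : ¬ IsConst f' := fun hc => hne fun z w => by rw [hff z, hff w, hc z w]
        obtain ⟨g, hg, s, hs, hfs⟩ := (hT3 f' hf' fun z => ⟨hf'.2 z, by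
          rw [← hff z]; exact hfV z⟩).resolve_left hne'
        exact ⟨_, ⟨g, hg, rfl⟩, s, hs, fun z => by rw [hff z, hfs z]⟩

end Pool.Agent.L7h90.GL
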