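import Pool.Agent.L7h90.GL.Eta
import Pool.Agent.L7h90.GL.Kod
import Pool.Agent.N154.TB.Defs

/-! The 2-forms of a smooth surface of general type. -/

set_option autoImplicit false

open Filter Topology Set Metric MvPolynomial FF

namespace Pool.Agent.L7h90.GL

open Pool.Agent.N155 Pool.Agent.Y190.OP Pool.Agent.W602.GT Pool.Agent.TH143.GT

variable {n : ℕ} {K : Type} [Field K] [Algebra ℂ K] {y : Fin (n + 1) → K}
  {A : (Fin 2 → Derivation ℂ K K) → K} {o : Fin (n + 1)} {N : ℕ}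

/-- the Jacobian of two functions -/
noncomputable def jac (E : Fin 2 → Derivation ℂ K K) (x : Fin 2 → K) : K :=
  E 0 (x 0) * E 1 (x 1) - E 0 (x 1) * E 1 (x 0)

theorem jac_pluri (x : Fin 2 → K) : IsPluri 1 (fun E : Fin 2 → Derivation ℂ K K => jac E x) := by
  intro M D
  unfold jac
  rw [Matrix.det_fin_two]
  simp only [Fin.sum_univ_two, Derivation.add_apply, Derivation.smul_apply, smul_eq_mul]
  ring

theorem jac_dual {x : Fin 2 → K} {E : Fin 2 → Derivation ℂ K K} (h : Dual x E) : jac E x = 1 := by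
  unfold jac
  rw [h.2, h.2, h.2, h.2]
  simp

theorem jac_inv {x x' : Fin 2 → K} {E E' : Fin 2 → Derivation ℂ K K} (h : Dual x E)
    (h' : Dual x' E') : jac E x' * jac E' x = 1 := by
  have h1 := pluri_change (E := E) (jac_pluri x) h'
  have h2 : jac E x = (E 0 (x' 0) * E 1 (x' 1) - E 0 (x' 1) * E 1 (x' 0)) ^ 1 * jac E' x := h1
  rw [jac_dual h, pow_one] at h2
  exact h2.symm

/-- the Jacobian of a chart in other coordinates -/
theorem Ch.jac_eq {i j k : Fin (n + 1)} {U : Set (ℂ × ℂ)} {Ψ : ℂ × ℂ → Fin (n + 1) → ℂ}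
    (h : Ch y i j k U Ψ) (hdim : Algebra.trdeg ℂ K = (2 : ℕ))
    (R : ∀ h : K, Frac y h) (p : U) {E : Fin 2 → Derivation ℂ K K}
    (hE : Dual ![y j / y i, y k / y i] E) {a b c : Fin (n + 1)} (ha : y a ≠ 0)
    {E2 : Fin 2 → Derivation ℂ K K} (hE2 : Dual ![y b / y a, y c / y a] E2) {d : ℕ}
    {H1 H0 : MvPolynomial (Fin (n + 1)) ℂ} (hH1 : H1.IsHomogeneous d) (hH0 : H0.IsHomogeneous d)
    (hn : val y H0 ≠ 0) (he : jac E2 ![y j / y i, y k / y i] = val y H1 / val y H0) :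
    det3 a b c (Ψ p) (h.d1 p) (h.d2 p) * eval (Ψ p) H1 = Ψ p a ^ 3 * eval (Ψ p) H0 := by
  obtain ⟨emb, D, h1, hD0, hD1, hDE⟩ := h.exists_emb hdim R p hE
  have hinj : Function.Injective (algebraMap PS2 MM) := IsFractionRing.injective PS2 MM
  set T := TT h.op p (1, 0) (0, 1) with hT
  set t : Fin (n + 1) → MM := fun l => algebraMap PS2 MM (T (h.psi l)) with ht
  set s1 : Fin (n + 1) → MM := fun l => algebraMap PS2 MM (dS (T (h.psi l))) with hs1
  set s2 : Fin (n + 1) → MM := fun l => algebraMap PS2 MM (dT (T (h.psi l))) with hs2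
  have hta : t a ≠ 0 := by
    have h2 := (h1 1 (X a) (X a) (isHomogeneous_X _ _) (isHomogeneous_X _ _)
      (by rw [val_X']; exact ha)).1
    rwa [aeval_X] at h2
  have hemba : ∀ l, emb (y l / y a) = t l / t a := by
    intro l
    have h2 := (h1 1 (X l) (X a) (isHomogeneous_X _ _) (isHomogeneous_X _ _)
      (by rw [val_X']; exact ha)).2
    rwa [val_X', val_X', aeval_X, aeval_X] at h2
  have hDt : ∀ (δ : Derivation ℂ MM MM) (u v : MM), v ≠ 0 → δ (u / v) = (δ u * v - u * δ v) / v ^ 2 := by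
    intro δ u v hv
    rw [div_eq_mul_inv, δ.leibniz, δ.leibniz_inv]
    simp only [smul_eq_mul]
    field_simp
    ring
  have hD0t : ∀ l, D 0 (t l) = s1 l := fun l => hD0 _
  have hD1t : ∀ l, D 1 (t l) = s2 l := fun l => hD1 _
  have hJ : emb (jac E ![y b / y a, y c / y a]) * t a ^ 3 = det3 a b c t s1 s2 := by
    unfold jac
    rw [map_sub, map_mul, map_mul, ← hDE, ← hDE, ← hDE, ← hDE]
    change (D 0 (emb (y b / y a)) * D 1 (emb (y c / y a)) -
      D 0 (emb (y c / y a)) * D 1 (emb (y b / y a))) * t a ^ 3 = _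
    rw [hemba, hemba, hDt _ _ _ hta, hDt _ _ _ hta, hDt _ _ _ hta, hDt _ _ _ hta, hD0t, hD0t, hD0t,
      hD1t, hD1t, hD1t]
    unfold det3
    field_simp
    ring
  obtain ⟨hg0, hg⟩ := h1 d H1 H0 hH1 hH0 hn
  have hinv := congrArg emb (jac_inv hE hE2)
  rw [map_mul, map_one, he, hg] at hinv
  have hfin : det3 a b c t s1 s2 * algebraMap PS2 MM (T (aeval h.psi H1)) =
      t a ^ 3 * algebraMap PS2 MM (T (aeval h.psi H0)) := by
    rw [← hJ]
    have h2 : emb (jac E ![y b / y a, y c / y a]) * t a ^ 3 * algebraMap PS2 MM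
        (T (aeval h.psi H1)) = (emb (jac E ![y b / y a, y c / y a]) *
          (algebraMap PS2 MM (T (aeval h.psi H1)) / algebraMap PS2 MM (T (aeval h.psi H0)))) *
            (t a ^ 3 * algebraMap PS2 MM (T (aeval h.psi H0))) := by
      field_simp
    rw [h2, hinv, one_mul]
  have hfin' : det3 a b c (fun l => T (h.psi l)) (fun l => dS (T (h.psi l)))
      (fun l => dT (T (h.psi l))) * T (aeval h.psi H1) =
        T (h.psi a) ^ 3 * T (aeval h.psi H0) := by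
    apply hinj
    rw [map_mul, map_mul, map_pow, map_det3]
    exact hfin
  have hcc := congrArg cc hfin'
  rw [map_mul, map_mul, map_pow, map_det3] at hcc
  simp only [hT, cc_TT, cc_dS, cc_dT, h.aeval_val, h.psi_val] at hcc
  exact hcc

/-- the zeros of the section -/
noncomputable def zform (R : ∀ h : K, Frac y h) (A : (Fin 2 → Derivation ℂ K K) → K)
    (o a : Fin (n + 1)) (E2 : Fin 2 → Derivation ℂ K K) : MvPolynomial (Fin (n + 1)) ℂ :=
  X a * (R (A E2 * (y a / y o))).G1 *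
    ∏ τ : Fin (n + 1) × Fin (n + 1) × Fin (n + 1),
      (R (jac E2 ![y τ.2.1 / y τ.1, y τ.2.2 / y τ.1])).G0

theorem isForm_mul {G H : MvPolynomial (Fin (n + 1)) ℂ} (hG : IsForm G) (hH : IsForm H) :
    IsForm (G * H) := by
  obtain ⟨d, hd⟩ := hG
  obtain ⟨e, he⟩ := hH
  exact ⟨d + e, hd.mul he⟩

theorem isForm_prod' {ι : Type} (s : Finset ι) (G : ι → MvPolynomial (Fin (n + 1)) ℂ)
    (hG : ∀ i ∈ s, IsForm (G i)) : IsForm (∏ i ∈ s, G i) := by
  classical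
  induction s using Finset.induction_on with
  | empty => exact ⟨0, by rw [Finset.prod_empty]; exact isHomogeneous_one _ _⟩
  | insert a s ha ih =>
    rw [Finset.prod_insert ha]
    exact isForm_mul (hG a (Finset.mem_insert_self a s))
      (ih fun i hi => hG i (Finset.mem_insert_of_mem hi))

theorem zform_form (R : ∀ h : K, Frac y h) (a : Fin (n + 1)) (E2 : Fin 2 → Derivation ℂ K K) :
    IsForm (zform R A o a E2) :=
  isForm_mul (isForm_mul ⟨1, isHomogeneous_X _ _⟩ ⟨_, (R _).h1⟩)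
    (isForm_prod' _ _ fun τ _ => ⟨_, (R _).h0⟩)

theorem zform_ne (R : ∀ h : K, Frac y h) {a : Fin (n + 1)} (ha : y a ≠ 0) (ho : y o ≠ 0)
    {E2 : Fin 2 → Derivation ℂ K K} (hA : A E2 ≠ 0) : val y (zform R A o a E2) ≠ 0 := by
  unfold zform
  rw [val_mul', val_mul', val_X']
  have h1 : val y (∏ τ : Fin (n + 1) × Fin (n + 1) × Fin (n + 1),
      (R (jac E2 ![y τ.2.1 / y τ.1, y τ.2.2 / y τ.1])).G0) ≠ 0 := by
    unfold val
    rw [map_prod, Finset.prod_ne_zero_iff]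
    exact fun τ _ => (R _).hn
  refine mul_ne_zero (mul_ne_zero ha fun h0 => ?_) h1
  have h2 := (R (A E2 * (y a / y o))).eq
  rw [h0, zero_div] at h2
  exact mul_ne_zero hA (div_ne_zero ha ho) h2

/-- the coefficient does not vanish outside the hypersurface -/
theorem Rp.At.coef_ne (hdim : Algebra.trdeg ℂ K = (2 : ℕ)) (R : ∀ h : K, Frac y h)
    (hA : IsPluri N A) {ρ : Rp y A o} {x : Fin (n + 1) → ℂ} (hx : x ∈ VarPts ℂ y) (h : ρ.At x)
    {a b c : Fin (n + 1)} (ha : y a ≠ 0) {E2 : Fin 2 → Derivation ℂ K K}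
    (hE2 : Dual ![y b / y a, y c / y a] E2) (hz : eval x (zform R A o a E2) ≠ 0) :
    ext0 ρ.U ρ.ξ.1 (pr ρ.i ρ.j ρ.k x) ≠ 0 := by
  set p := pr ρ.i ρ.j ρ.k x with hp
  have hpU : p ∈ ρ.U := h.mem
  have hx' := h.eq hx
  rw [← hp] at hx'
  unfold zform at hz
  rw [map_mul, map_mul, eval_X, map_prod] at hz
  obtain ⟨hz1, hz2⟩ := mul_ne_zero_iff.1 hz
  obtain ⟨hz3, hz4⟩ := mul_ne_zero_iff.1 hz1
  rw [Finset.prod_ne_zero_iff] at hz2
  have hz5 := hz2 (ρ.i, ρ.j, ρ.k) (Finset.mem_univ _)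
  have hsc : ∀ (d : ℕ) (Q : MvPolynomial (Fin (n + 1)) ℂ), Q.IsHomogeneous d → eval x Q ≠ 0 →
      eval (ρ.Ψ p) Q ≠ 0 := by
    intro d Q hQ h1 h2
    apply h1
    rw [hx', eval_smul hQ, h2, mul_zero]
  have e1 := hsc _ _ (R _).h0 hz5
  have e2 := hsc _ _ (R _).h1 hz4
  have e3 : ρ.Ψ p a ≠ 0 := by
    intro h0
    apply hz3
    rw [hx']
    change x ρ.i * ρ.Ψ p a = 0
    rw [h0, mul_zero]
  have e4 := ρ.ch.jac_eq hdim R ⟨p, hpU⟩ ρ.dual ha hE2 (R _).h1 (R _).h0 (R _).hn (R _).eq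
  have e5 : det3 a b c (ρ.Ψ p) (ρ.ch.d1 p) (ρ.ch.d2 p) ≠ 0 := by
    intro h0
    rw [h0, zero_mul] at e4
    exact mul_ne_zero (pow_ne_zero _ e3) e1 e4.symm
  have e6 := ρ.ch.compare hdim R ⟨p, hpU⟩ ρ.dual hA (o := o) ρ.ξ ρ.hQ1 ρ.hQ0 ρ.hn ρ.eq ρ.rel ha hE2
    (R _).h1 (R _).h0 (R _).hn (R _).eq
  rw [ext0_apply _ hpU]
  intro h0
  rw [h0, zero_mul, zero_mul] at e6
  exact mul_ne_zero (pow_ne_zero _ e5) e2 e6.symm

/-- the section does not vanish outside the hypersurface -/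
theorem Rp.At.V_ne (hdim : Algebra.trdeg ℂ K = (2 : ℕ)) (R : ∀ h : K, Frac y h)
    (hA : IsPluri N A) {ρ : Rp y A o} {x v w : Fin (n + 1) → ℂ} (hx : x ∈ VarPts ℂ y) (h : ρ.At x)
    {a b c : Fin (n + 1)} (ha : y a ≠ 0) {E2 : Fin 2 → Derivation ℂ K K}
    (hE2 : Dual ![y b / y a, y c / y a] E2) (hz : eval x (zform R A o a E2) ≠ 0)
    {u u' : ℂ × ℂ} (hv : ρ.Tan x v u) (hw : ρ.Tan x w u')
    (hli : LinearIndependent ℂ ![x, v, w]) : ρ.V N x v w ≠ 0 := by
  have h1 := h.coef_ne hdim R hA hx ha hE2 hz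
  set p := pr ρ.i ρ.j ρ.k x with hp
  obtain ⟨e, he⟩ := hv
  obtain ⟨f, hf⟩ := hw
  rw [← hp] at he hf
  have hx' : x = x ρ.i • ρ.Ψ p := h.eq hx
  have hs := h.ne
  have hdet : det3 ρ.i ρ.j ρ.k x v w = x ρ.i ^ 3 * (u.1 * u'.2 - u.2 * u'.1) := by
    rw [he, hf, det3_lin]
    have h1 : det3 ρ.i ρ.j ρ.k x (ρ.ch.d1 p) (ρ.ch.d2 p) = x ρ.i := by
      have h2 : det3 ρ.i ρ.j ρ.k (x ρ.i • ρ.Ψ p) (ρ.ch.d1 p) (ρ.ch.d2 p) = x ρ.i := by
        rw [det3_smul, ρ.ch.det_one h.mem, mul_one]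
      rwa [← hx'] at h2
    rw [h1]
    ring
  have hu : u.1 * u'.2 - u.2 * u'.1 ≠ 0 := by
    intro h0
    rw [Fintype.linearIndependent_iff] at hli
    have key : ∀ r s t : ℂ, r • x + s • v + t • w = 0 → s = 0 ∧ t = 0 := by
      intro r s t hr
      have h2 := hli ![r, s, t] (by
        rw [Fin.sum_univ_three]
        exact hr)
      exact ⟨h2 1, h2 2⟩
    have k1 := key (-(u'.1 * e - u.1 * f)) (u'.1) (-u.1) (by
      rw [he, hf]
      funext l
      simp only [Pi.add_apply, Pi.smul_apply, smul_eq_mul, Pi.zero_apply]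
      linear_combination (-(x ρ.i * ρ.ch.d2 p l)) * h0)
    have k2 := key (-(u'.2 * e - u.2 * f)) (u'.2) (-u.2) (by
      rw [he, hf]
      funext l
      simp only [Pi.add_apply, Pi.smul_apply, smul_eq_mul, Pi.zero_apply]
      linear_combination ((x ρ.i * ρ.ch.d1 p l)) * h0)
    have u1 : u.1 = 0 := neg_eq_zero.1 k1.2
    have u2 : u.2 = 0 := neg_eq_zero.1 k2.2
    have k3 := key (-e) 1 0 (by
      rw [he, u1, u2]
      funext l
      simp)
    exact one_ne_zero k3.1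
  unfold Rp.V
  rw [← hp, hdet]
  refine mul_ne_zero (mul_ne_zero h1 (inv_ne_zero hs)) (pow_ne_zero _ (div_ne_zero
    (mul_ne_zero (pow_ne_zero _ hs) hu) (pow_ne_zero _ hs)))

end Pool.Agent.L7h90.GL
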