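import Pool.Agent.N155.L.SFin
import Pool.Agent.L7h90.GL.Irr

/-! Brody curves in surfaces of general type are degenerate or tangent to the regular symmetric
differentials. -/

set_option autoImplicit false

open Filter Topology Set Metric MvPolynomial FF LinearAlgebra.Projectivization

namespace Pool.Agent.L7h90.GL

open Pool.Agent.Y190.OP Pool.Agent.W602.GT
open Pool.Agent.N155 (SymD Cv SEq TX TX_PM isCompact_TX tangent_gen lb_of_graph LB.lbc nc_of_fderiv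
  sgood frAt frAt_good ev_of_valAt ev good isOpen_good sval Frac nz nz_Phi sval_aff
  )
open Pool.Agent.N154.GG (SmoothVariety HolMap holP_of holMap_of projDist toProj toProj_Phi
  Phi_rep_mk Phi_rep_toProj proj_ext)
open Pool.Agent.N154.TB
open scoped LinearAlgebra.Projectivization

variable {n : ℕ} {ι : Type} {F : ι → MvPolynomial (Fin (n + 1)) ℂ} {K : Type} [Field K]
  [Algebra ℂ K] {y : Fin (n + 1) → K}

/-- curves of bounded derivative in a closed set without degenerate curves -/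
theorem web_all (hX : SmoothVariety F 2 y) (hgt : GeneralType ℂ K 2) {S : Set (Mat (n + 1))}
    (hSc : IsClosed S) (hST : S ⊆ TX y)
    (hnd : ∀ ψ : ℂ → Mat (n + 1), HolP univ ψ → (∀ z, ψ z ∈ S) → (∃ z, ψ z ≠ ψ 0) → Cv y ψ)
    {φ : ℂ → Mat (n + 1)} (hφ : HolP univ φ) (hS : ∀ z, φ z ∈ S) {B : ℝ}
    (hB : ∀ z, ‖fderiv ℝ φ z‖ ≤ B) (hnc : ∃ z, φ z ≠ φ 0) (R : ∀ h : K, Frac y h) {σ : SymD K}
    (hd : 0 < σ.d) (hreg : σ.Regular 2) : SEq R σ 0 φ := by
  have hLB : Pool.Agent.N155.LB R := lb_of_graph hX.sub hX.form hX.irred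
    (fun x hx => graph_two (hX.smooth x hx)) R
  obtain ⟨-, N, hN, ω, hω, hregω, D, hD0, hDi⟩ := hgt
  have hB0 : 0 ≤ B := (norm_nonneg _).trans (hB 0)
  set ρ : ℝ := 2 / (B + 1) with hρ
  have hρ0 : 0 < ρ := by positivity
  have hρC : (ρ : ℂ) ≠ 0 := by exact_mod_cast hρ0.ne'
  have haff : ∀ z : ℂ, aff 0 ρ (z / ρ) = z := by
    intro z
    unfold aff
    field_simp
    simp
  have haff0 : aff 0 ρ 0 = 0 := by
    unfold aff
    simp
  have hnc' : ∃ z, φ (aff 0 ρ z) ≠ φ (aff 0 ρ 0) := by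
    obtain ⟨z, hz⟩ := hnc
    refine ⟨z / ρ, ?_⟩
    rwa [haff, haff0]
  have key : SEq R σ 0 (fun z => φ (aff 0 ρ z)) := by
    refine tangent_gen (S := S) (Cn := fun _ => True)
      ⟨N, ω 0, ω 1, D, hN, hω 0, hω 1, fun v hv _ => hregω v hv 0, fun v hv _ => hregω v hv 1,
        hD0, hDi.transcendental 0⟩ hLB.lbc (fun M hM _ => hLB.lbc M hM)
      (fun ψ h1 _ h3 _ h5 => hnd ψ h1 h3 h5)
      (fun 𝓤 P φ _ _ hPS _ _ _ _ hc z =>
        hSc.mem_of_tendsto (hc.pointwise (mem_univ z)) (Eventually.of_forall fun m => hPS m z))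
      hd (fun v hv D hD => hreg v hv D hD) ?_ (fun z => hST (hS _)) (fun z => hS _)
      (fun z => ?_) hnc'
    · have := hφ.aff 0 ρ
      rwa [preimage_univ] at this
    · rw [norm_fderiv_aff hρ0.le (hφ.differentiableAt (mem_univ _))]
      have h1 := hB (aff 0 ρ z)
      rw [hρ, div_mul_eq_mul_div, div_le_iff₀ (by positivity)]
      linarith
  intro z hz
  have h2 := key (z / ρ) (by
    change sgood R σ (φ (aff 0 ρ (z / ρ)))
    rwa [haff])
  rw [sval_aff, haff] at h2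
  exact (mul_eq_zero.1 h2).resolve_left (pow_ne_zero _ hρC)

/-- the differential equation in affine terms -/
theorem tangent_of_seq {f : ℂ → ℙ ℂ (Fin (n + 1) → ℂ)} (hirr : Cone F ⊆ VarPts ℂ y)
    (hgen : coords ℂ y = ⊤) (hf : HolMap f)
    (hfX : ∀ z, (f z).rep ∈ Cone F) {σ : SymD K}
    (h : ∀ R : ∀ h : K, Frac y h, SEq R σ 0 fun z => Phi (f z).rep) : σ.Tangent y f := by
  intro V H Φ hV hH hΦ z0 hz0
  set φ : ℂ → Mat (n + 1) := fun z => Phi (f z).rep with hφ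
  have hol : HolP univ φ := holP_of hf
  have hcont : Continuous φ := continuous_iff_continuousAt.2 fun _ => hol.continuousAt (mem_univ _)
  have hne : ∀ z, (f z).rep ≠ 0 := fun z => (f z).rep_nonzero
  set R : ∀ h : K, Frac y h := frAt hgen (f z0).rep with hR
  have hsg : sgood R σ (φ z0) :=
    ⟨fun j => frAt_good _ (hne z0) (hH z0 hz0 j), fun j l => frAt_good _ (hne z0) (hΦ z0 hz0 j l)⟩
  have h1 : ∀ j, H j z0 = ev R (σ.h j) (φ z0) := fun j =>
    ev_of_valAt R (hirr (hfX z0)) (hH z0 hz0 j) (hsg.1 j)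
  have h2 : ∀ j l, deriv (Φ j l) z0 = deriv (fun w => ev R (σ.f j l) (φ w)) z0 := by
    intro j l
    apply EventuallyEq.deriv_eq
    filter_upwards [hV.mem_nhds hz0,
      ((isOpen_good R (σ.f j l)).preimage hcont).mem_nhds (hsg.2 j l)] with w hw hw'
    exact ev_of_valAt R (hirr (hfX w)) (hΦ w hw j l) hw'
  have h3 : ∑ j, H j z0 * ∏ l, deriv (Φ j l) z0 = sval R σ φ z0 := by
    unfold sval
    simp only [h1, h2]
  rw [h3]
  exact h R z0 hsg

/-- `f` is a Brody curve: it is Lipschitz. -/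
def IsBrody (f : ℂ → ℙ ℂ (Fin (n + 1) → ℂ)) : Prop :=
  ∃ C : ℝ, ∀ z w, projDist (f z) (f w) ≤ C * ‖z - w‖

/-- The image of the curve `f` is Zariski dense in the variety with generic point `y`: forms which
vanish on the curve vanish at `y`. -/
def Nondeg (y : Fin (n + 1) → K) (f : ℂ → ℙ ℂ (Fin (n + 1) → ℂ)) : Prop :=
  ∀ G : MvPolynomial (Fin (n + 1)) ℂ, IsForm G → (∀ z, val (f z).rep G = 0) → val y G = 0

/-- the set of matrices of a set of points -/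
def TV (V : Set (ℙ ℂ (Fin (n + 1) → ℂ))) : Set (Mat (n + 1)) := {M | ∃ p ∈ V, M = Phi p.rep}

section V

variable {V : Set (ℙ ℂ (Fin (n + 1) → ℂ))}

theorem TV_sub (hX : SmoothVariety F 2 y) (hVX : ∀ p ∈ V, p.rep ∈ Cone F) : TV V ⊆ TX y := by
  rintro _ ⟨p, hp, rfl⟩
  exact ⟨p.rep, hX.irred (hVX p hp), rfl⟩

theorem TV_closed (hX : SmoothVariety F 2 y) (hVX : ∀ p ∈ V, p.rep ∈ Cone F)
    (hVc : IsClosedProj V) : IsClosed (TV V) := by
  rw [← isSeqClosed_iff_isClosed]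
  intro M L hM hL
  have hLT : L ∈ TX y := isCompact_TX.isClosed.mem_of_tendsto hL
    (Eventually.of_forall fun k => TV_sub hX hVX (hM k))
  obtain ⟨u, hu, hLu⟩ := hLT
  have hrep : Phi (toProj L).rep = L := Phi_rep_toProj ⟨u, hu.1, hLu⟩
  refine ⟨toProj L, hVc _ fun ε hε => ?_, hrep.symm⟩
  obtain ⟨k, hk⟩ := (Metric.tendsto_nhds.1 hL ε hε).exists
  obtain ⟨p, hp, hMp⟩ := hM k
  refine ⟨p, hp, ?_⟩
  change ‖Phi (toProj L).rep - Phi p.rep‖ < ε
  rw [hrep, ← hMp, ← dist_eq_norm, dist_comm]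
  exact hk

theorem nc_iff {f : ℂ → ℙ ℂ (Fin (n + 1) → ℂ)} :
    (¬ IsConst f) ↔ ∃ z, Phi (f z).rep ≠ Phi (f 0).rep := by
  constructor
  · intro h
    by_contra hc
    push Not at hc
    exact h fun z w => proj_ext ((hc z).trans (hc w).symm)
  · rintro ⟨z, hz⟩ hc
    exact hz (by rw [hc z 0])

/-- matrices give curves -/
theorem curve_of (hX : SmoothVariety F 2 y) (hVX : ∀ p ∈ V, p.rep ∈ Cone F)
    {H : ℂ → Mat (n + 1)} (hH : HolP univ H) (hHV : ∀ z, H z ∈ TV V) :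
    (fun z => Phi (toProj (H z)).rep) = H ∧ (∀ z, toProj (H z) ∈ V) ∧
      CurveIn (Cone F) fun z => toProj (H z) := by
  have hrep : ∀ z, Phi (toProj (H z)).rep = H z := fun z =>
    Phi_rep_toProj (TX_PM (TV_sub hX hVX (hHV z)))
  have hgV : ∀ z, toProj (H z) ∈ V := by
    intro z
    obtain ⟨p, hp, hHp⟩ := hHV z
    have : toProj (H z) = p := proj_ext (by rw [hrep z, hHp])
    rwa [this]
  exact ⟨funext hrep, hgV, holMap_of hH, fun z => hVX _ (hgV z)⟩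

theorem nz_rep {G : MvPolynomial (Fin (n + 1)) ℂ} (hG : IsForm G) (p : ℙ ℂ (Fin (n + 1) → ℂ)) :
    nz G (Phi p.rep) ↔ val p.rep G ≠ 0 := by
  obtain ⟨d, hd⟩ := hG
  rw [nz_Phi hd p.rep_nonzero, ← Pool.Agent.N155.val_eval]

/-- **Brody curves in closed subsets of surfaces of general type.** -/
theorem web_curves (hX : SmoothVariety F 2 y) (hgt : GeneralType ℂ K 2)
    (hVX : ∀ p ∈ V, p.rep ∈ Cone F) (hVc : IsClosedProj V)
    (hdeg : ∀ g : ℂ → ℙ ℂ (Fin (n + 1) → ℂ), CurveIn (Cone F) g → ¬ IsConst g → (∀ z, g z ∈ V) →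
      Nondeg y g) {g : ℂ → ℙ ℂ (Fin (n + 1) → ℂ)} (hg : CurveIn (Cone F) g) (hne : ¬ IsConst g)
    (hgV : ∀ z, g z ∈ V) (hgB : IsBrody g) :
    Cv y (fun z => Phi (g z).rep) ∧
      (∀ (R : ∀ h : K, Frac y h) (σ : SymD K), 0 < σ.d → σ.Regular 2 →
        SEq R σ 0 fun z => Phi (g z).rep) ∧
      ∀ σ : SymD K, 0 < σ.d → σ.Regular 2 → σ.Tangent y g := by
  have hnd : ∀ ψ : ℂ → Mat (n + 1), HolP univ ψ → (∀ z, ψ z ∈ TV V) → (∃ z, ψ z ≠ ψ 0) →
      Cv y ψ := by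
    intro ψ h1 h2 h3
    obtain ⟨h4, h5, h6⟩ := curve_of hX hVX h1 h2
    refine ⟨h1, fun z => TV_sub hX hVX (h2 z), fun G hG hGy => ?_⟩
    have h7 := hdeg _ h6 (nc_iff.2 (by
      obtain ⟨z, hz⟩ := h3
      refine ⟨z, ?_⟩
      rw [congrFun h4 z, congrFun h4 0]
      exact hz)) h5
    by_contra hcon
    push Not at hcon
    refine hGy (h7 G hG fun z => ?_)
    by_contra h0
    apply hcon z
    rw [← congrFun h4 z]
    exact (nz_rep hG _).2 h0
  have hol := holP_of hg.1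
  have hST : ∀ z, Phi (g z).rep ∈ TV V := fun z => ⟨_, hgV z, rfl⟩
  have hnc := nc_iff.1 hne
  obtain ⟨C, hC⟩ := hgB
  have hB : ∀ z, ‖fderiv ℝ (fun z => Phi (g z).rep) z‖ ≤ (Real.toNNReal C : ℝ) := fun z =>
    norm_fderiv_le_of_lipschitz ℝ (LipschitzWith.of_dist_le_mul fun z w => by
      rw [dist_eq_norm, dist_eq_norm]
      exact (hC z w).trans (mul_le_mul_of_nonneg_right (Real.le_coe_toNNReal C) (norm_nonneg _)))
  have hseq : ∀ (R : ∀ h : K, Frac y h) (σ : SymD K), 0 < σ.d → σ.Regular 2 →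
      SEq R σ 0 fun z => Phi (g z).rep := fun R σ hd hreg =>
    web_all hX hgt (TV_closed hX hVX hVc) (TV_sub hX hVX) hnd hol hST hB hnc R hd hreg
  exact ⟨hnd _ hol hST hnc, hseq, fun σ hd hreg => tangent_of_seq hX.irred hX.sub.gen hg.1 hg.2
    fun R => hseq R σ hd hreg⟩

/-- Brody's theorem in closed subsets -/
theorem exists_brody (hX : SmoothVariety F 2 y)
    (hVX : ∀ p ∈ V, p.rep ∈ Cone F) (hVc : IsClosedProj V)
    {f : ℂ → ℙ ℂ (Fin (n + 1) → ℂ)} (hf : CurveIn (Cone F) f) (hfV : ∀ z, f z ∈ V)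
    (hne : ¬ IsConst f) :
    ∃ g : ℂ → ℙ ℂ (Fin (n + 1) → ℂ), CurveIn (Cone F) g ∧ ¬ IsConst g ∧ (∀ z, g z ∈ V) ∧
      IsBrody g := by
  have hScomp : IsCompact (TV V) :=
    isCompact_TX.of_isClosed_subset (TV_closed hX hVX hVc) (TV_sub hX hVX)
  obtain ⟨H, hH1, hH2, hH3, hH4⟩ := Pool.Agent.N155.brody hScomp
    ((TV_sub hX hVX).trans TX_PM) (holP_of hf.1) (fun z => ⟨f z, hfV z, rfl⟩)
    (by have := nc_iff.1 hne; push Not; exact this)
  obtain ⟨z1, hz1⟩ : ∃ z, H z ≠ H 0 := nc_of_fderiv (z := 0) fun h0 => by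
    rw [h0, norm_zero] at hH4
    exact zero_ne_one hH4
  obtain ⟨h4, h5, h6⟩ := curve_of hX hVX hH1 hH2
  refine ⟨fun z => toProj (H z), h6, nc_iff.2 ⟨z1, ?_⟩, h5, 2, fun z w => ?_⟩
  · rw [congrFun h4 z1, congrFun h4 0]
    exact hz1
  · change ‖Phi (toProj (H z)).rep - Phi (toProj (H w)).rep‖ ≤ _
    rw [congrFun h4 z, congrFun h4 w]
    exact Convex.norm_image_sub_le_of_norm_fderiv_le (𝕜 := ℝ) (s := univ)
      (fun x _ => hH1.differentiableAt (mem_univ x)) (fun x _ => hH3 x) convex_univ (mem_univ w)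
      (mem_univ z)

end V

end Pool.Agent.L7h90.GL
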